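import Mathlib

/-!
Module AnIrr (analysis): a renewal inequality.

PAPER PROOF. Let `0 < z < 1`, `U = ∑' r, u r * z ^ r` (`1 <= U < ∞`). For every `D` and `M`,
`z * (∑ i < D, I i z ^ i) * (∑ r < M, u r z ^ r) <= ∑' r, z ^ (r + 1) * ∑ i <= r, I i * u (r - i)
  <= ∑' r, z ^ (r + 1) u (r + 1) <= U`. So (`M → ∞`) `z * ∑ i < D, I i z ^ i <= 1`, and `z → 1`. (`I i <= 1` from the term
`u 0 = 1` of the hypothesis; a proof with real numbers is fine.)

(The proof below avoids `z`: with `U N = ∑ r < N, u r` one has `1 + (∑ i < D, I i) * U N <= U (N + D + 1) <= U N + D + 1`;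
if `U` is bounded, let `N → ∞` in the first inequality, otherwise in the second one.)
-/

namespace Pool.Agent.ZHW

open Finset
open scoped ENNReal

private theorem anIrr_conv (I u : ℕ → ℝ≥0∞) (D N : ℕ) :
    (∑ i ∈ range D, I i) * ∑ j ∈ range N, u j ≤
      ∑ r ∈ range (N + D), ∑ i ∈ range (r + 1), I i * u (r - i) := by
  rw [Finset.sum_mul_sum, ← Finset.sum_product']
  rw [← Finset.sum_fiberwise_of_maps_to (s := range D ×ˢ range N) (t := range (N + D))
    (g := fun p : ℕ × ℕ => p.1 + p.2) (by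
      intro p hp
      simp only [mem_product, mem_range] at hp ⊢
      omega)]
  refine Finset.sum_le_sum fun r _ => ?_
  rw [← Finset.Nat.sum_antidiagonal_eq_sum_range_succ (fun i j => I i * u j) r]
  refine Finset.sum_le_sum_of_subset ?_
  intro p hp
  simp only [mem_filter, mem_product, mem_range] at hp
  exact HasAntidiagonal.mem_antidiagonal.2 hp.2

private theorem anIrr_step (I u : ℕ → ℝ≥0∞)
    (h : ∀ r, ∑ i ∈ range (r + 1), I i * u (r - i) ≤ u (r + 1)) (D N : ℕ) :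
    (∑ i ∈ range D, I i) * ∑ j ∈ range N, u j ≤ ∑ r ∈ range (N + D), u (r + 1) :=
  (anIrr_conv I u D N).trans (Finset.sum_le_sum fun r _ => h r)

theorem anIrr (I u : ℕ → ℝ≥0∞) (hu0 : u 0 = 1) (hu : ∀ n, u n ≤ 1)
    (h : ∀ r, ∑ i ∈ range (r + 1), I i * u (r - i) ≤ u (r + 1)) (D : ℕ) : ∑ i ∈ range D, I i ≤ 1 := by
  set S := ∑ i ∈ range D, I i with hS
  have hle : ∀ N, ∑ r ∈ range (N + D), u (r + 1) ≤ ∑ j ∈ range N, u j + ((D : ℝ≥0∞) + 1) := by
    intro N
    have h1 : ∑ r ∈ range (N + D), u (r + 1) ≤ ∑ j ∈ range (N + (D + 1)), u j := by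
      rw [show N + (D + 1) = (N + D) + 1 by ring, Finset.sum_range_succ' u (N + D)]
      exact le_self_add
    refine h1.trans ?_
    rw [Finset.sum_range_add]
    refine add_le_add le_rfl ?_
    calc ∑ x ∈ range (D + 1), u (N + x) ≤ ∑ x ∈ range (D + 1), (1 : ℝ≥0∞) :=
          Finset.sum_le_sum fun x _ => hu _
      _ = (D : ℝ≥0∞) + 1 := by simp
  by_cases hV : ∑' r, u r = ⊤
  · by_contra hc
    rw [not_le] at hc
    obtain ⟨c, hc1, hc2⟩ := ENNReal.lt_iff_exists_nnreal_btwn.1 hc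
    have hc1' : (1 : NNReal) < c := by exact_mod_cast hc1
    have hb : ∀ N, ∑ j ∈ range N, u j ≤ ((D : ℝ≥0∞) + 1) / ((c - 1 : NNReal) : ℝ≥0∞) := by
      intro N
      have hfin : ∑ j ∈ range N, u j ≠ ⊤ := by
        refine (ENNReal.sum_lt_top.2 fun j _ => ?_).ne
        exact (hu j).trans_lt ENNReal.one_lt_top
      have h2 : (c : ℝ≥0∞) * ∑ j ∈ range N, u j ≤ ∑ j ∈ range N, u j + ((D : ℝ≥0∞) + 1) :=
        (mul_le_mul' hc2.le le_rfl).trans ((anIrr_step I u h D N).trans (hle N))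
      have h3 : (c : ℝ≥0∞) = 1 + ((c - 1 : NNReal) : ℝ≥0∞) := by
        rw [← ENNReal.coe_one, ← ENNReal.coe_add, add_tsub_cancel_of_le hc1'.le]
      rw [h3, add_mul, one_mul] at h2
      have h4 := (ENNReal.add_le_add_iff_left hfin).1 h2
      rw [ENNReal.le_div_iff_mul_le]
      · rwa [mul_comm]
      · left
        exact ENNReal.coe_ne_zero.2 (tsub_pos_of_lt hc1').ne'
      · left
        exact ENNReal.coe_ne_top
    have h5 : ∑' r, u r ≤ ((D : ℝ≥0∞) + 1) / ((c - 1 : NNReal) : ℝ≥0∞) := by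
      rw [ENNReal.tsum_eq_iSup_nat]
      exact iSup_le hb
    rw [hV, top_le_iff, ENNReal.div_eq_top] at h5
    rcases h5 with h5 | h5
    · have h6 : (c - 1 : NNReal) = 0 := by exact_mod_cast h5.2
      exact (tsub_pos_of_lt hc1').ne' h6
    · exact (ENNReal.add_ne_top.2 ⟨ENNReal.natCast_ne_top D, ENNReal.one_ne_top⟩) h5.1
  · have hV0 : ∑' r, u r ≠ 0 := by
      intro h0
      have := ENNReal.tsum_eq_zero.1 h0 0
      rw [hu0] at this
      exact one_ne_zero this
    have h1 : S * ∑' r, u r ≤ ∑' r, u r := by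
      rw [ENNReal.tsum_eq_iSup_nat (f := u), ENNReal.mul_iSup]
      refine iSup_le fun N => ?_
      refine (anIrr_step I u h D N).trans ?_
      rw [← ENNReal.tsum_eq_iSup_nat (f := u)]
      have h1 : ∑ r ∈ range (N + D), u (r + 1) ≤ ∑ j ∈ range (N + D + 1), u j := by
        rw [Finset.sum_range_succ' u (N + D)]
        exact le_self_add
      exact h1.trans (ENNReal.sum_le_tsum _)
    have h2 : S * ∑' r, u r ≤ 1 * ∑' r, u r := by rwa [one_mul]
    exact (ENNReal.mul_le_mul_iff_left hV0 hV).1 h2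

end Pool.Agent.ZHW
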