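import Pool.Agent.ZHW.Basic
import Pool.Agent.SHP.Side

/-!
Module Order (planarity): two disjoint crossings of a strip keep their order.

PAPER PROOF. Use `side_const` (SHP/Side) with the infinite path `η`: `η 0 = u.sum - (1, 0)`, then the vertices
`u.sum + (prefix of v).sum`, then from `(u ++ v).sum` steps `(1, 0)` for ever. Walk along the vertices
`q_(-1) = u'.sum - (1, 0)`, `q_k = u'.sum + (v'.take k).sum`, `q_(n+1) = (u' ++ v').sum + (1, 0)`, `n = v'.length`.
All differences are in `steps true` (`steps false ⊆ steps true`). No `q_k` is on `η`: column `i - 1` contains of `η` only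
`η 0`, of `q` only `q_(-1)`, and `u.sum <> u'.sum` (`Disj`, `u <> []` because `i >= 1`); the vertices of the columns
`i, ..., i + j` are different by `Disj`; the columns `> i + j` contain of `q` only `q_(n+1)` and of `η` one vertex each, at height
`(u ++ v).sum.2 <> (u' ++ v').sum.2` (the last vertices are in the same column and are different). The first coordinate
of every `q_k` is at least `i - 1 = (η 0).1`. In the gap between the columns `i - 1` and `i` the path `η` has exactly
one step, with key `2 * u.sum.2`, so the number of steps with key `> 2 * u'.sum.2` is odd iff `u'.sum.2 < u.sum.2`; in the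
gap between the columns `i + j + 1` and `i + j + 2` exactly one step, with key `2 * (u ++ v).sum.2`. By `side_const`, step by
step, the parity is the same at `q_(-1)` and at `q_(n+1)`.
(A cobridge `v` of width `j` has all vertices in the columns `0, ..., j` relative to its start.)
-/

namespace Pool.Agent.ZHW

open Pool.Agent.SHP

variable {t : Bool}

/-- The extended path: one step to the right into `a`, then the walk `v`, then steps to the right. -/
private def oPth (a : ℤ × ℤ) (v : Wd) : ℕ → ℤ × ℤ
  | 0 => a - (1, 0)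
  | k + 1 => a + (v.take k).sum + (((k - v.length : ℕ) : ℤ), 0)

private theorem steps_sub {s : ℤ × ℤ} (h : s ∈ steps t) : s ∈ steps true := by
  cases t
  · simp only [steps, Bool.false_eq_true, if_false, if_true, Finset.mem_insert, Finset.mem_singleton] at h ⊢
    tauto
  · exact h

private theorem oPth_step {a : ℤ × ℤ} {v : Wd} (hv : ∀ s ∈ v, s ∈ steps t) (k : ℕ) :
    oPth a v (k + 1) - oPth a v k ∈ steps true := by
  cases k with
  | zero => simp [oPth, steps]
  | succ m =>
    by_cases hm : m < v.length
    · have h1 : (v.take (m + 1)).sum = (v.take m).sum + v[m] := List.sum_take_succ v m hm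
      have h2 : m + 1 - v.length = 0 := by omega
      have h3 : m - v.length = 0 := by omega
      have h4 : oPth a v (m + 1 + 1) - oPth a v (m + 1) = v[m] := by
        simp only [oPth, h1, h2, h3]
        abel
      rw [h4]
      exact steps_sub (hv _ (List.getElem_mem hm))
    · have h2 : m + 1 - v.length = (m - v.length) + 1 := by omega
      have h4 : oPth a v (m + 1 + 1) - oPth a v (m + 1) = (1, 0) := by
        simp only [oPth]
        rw [List.take_of_length_le (by omega), List.take_of_length_le (by omega), h2]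
        ext <;> simp
      rw [h4]
      simp [steps]

/-- The first coordinates of the extended path of a cobridge. -/
private theorem oPth_col {a : ℤ × ℤ} {v : Wd} {j : ℕ} (hv : v ∈ CB t j) (k : ℕ) :
    (k = 0 ∧ (oPth a v k).1 = a.1 - 1) ∨
    (1 ≤ k ∧ k ≤ v.length ∧ a.1 ≤ (oPth a v k).1 ∧ (oPth a v k).1 < a.1 + j) ∨
    (v.length + 1 ≤ k ∧ (oPth a v k).1 = a.1 + j + (((k - 1 - v.length : ℕ) : ℤ)) ∧
      (oPth a v k).2 = (a + v.sum).2) := by
  obtain ⟨_, hr, hs, hj⟩ := hv
  cases k with
  | zero => left; simp [oPth]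
  | succ m =>
    right
    by_cases hm : m < v.length
    · left
      have h1 := hr (v.take m) (v.drop m) (List.take_append_drop m v).symm
      have h2 := hs (v.take m) (v.drop m) (List.take_append_drop m v).symm (by
        intro h
        have := congrArg List.length h
        simp at this
        omega)
      have h3 : (v.take m).sum.1 + (v.drop m).sum.1 = j := by
        rw [← hj, ← Prod.fst_add, ← List.sum_append, List.take_append_drop]
      have h4 : m - v.length = 0 := by omega
      have h5 : (oPth a v (m + 1)).1 = a.1 + (v.take m).sum.1 := by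
        simp [oPth, h4]
      refine ⟨by omega, by omega, by omega, by omega⟩
    · right
      have h5 : oPth a v (m + 1) = a + v.sum + (((m - v.length : ℕ) : ℤ), 0) := by
        simp only [oPth]
        rw [List.take_of_length_le (by omega)]
      refine ⟨by omega, ?_, ?_⟩
      · rw [h5, Prod.fst_add, Prod.fst_add, hj, Nat.add_sub_cancel]
      · rw [h5, Prod.snd_add, add_zero]

private theorem oPth_tendsto {a : ℤ × ℤ} {v : Wd} {j : ℕ} (hv : v ∈ CB t j) :
    Filter.Tendsto (fun k => (oPth a v k).1) Filter.atTop Filter.atTop := by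
  rw [Filter.tendsto_atTop_atTop]
  intro b
  refine ⟨v.length + 1 + (b - a.1 - j).toNat, fun k hk => ?_⟩
  have h := oPth_col (a := a) hv k
  omega

private theorem oPth_ne {i j : ℕ} {u v u' v' : Wd} (hi : 1 ≤ i) (hu : u ∈ CB t i) (hu' : u' ∈ CB t i)
    (hv : v ∈ CB t j) (hv' : v' ∈ CB t j) (hd : Disj (u ++ v) (u' ++ v')) (k k' : ℕ) :
    oPth u.sum v k ≠ oPth u'.sum v' k' := by
  have hui : u.sum.1 = i := hu.2.2.2
  have hui' : u'.sum.1 = i := hu'.2.2.2
  have hne : u ≠ [] := by
    rintro rfl
    simp at hui
    omega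
  have hD : ∀ m m' : ℕ, u.sum + (v.take m).sum ≠ u'.sum + (v'.take m').sum := by
    intro m m' h
    rw [← List.sum_append, ← List.sum_append] at h
    have := (hd (u ++ v.take m) (u' ++ v'.take m') (v.drop m) (v'.drop m')
      (by rw [List.append_assoc, List.take_append_drop])
      (by rw [List.append_assoc, List.take_append_drop]) h).1
    exact hne (List.append_eq_nil_iff.1 this).1
  have hE : (u.sum + v.sum).2 ≠ (u'.sum + v'.sum).2 := by
    intro h
    refine hD v.length v'.length ?_
    rw [List.take_length, List.take_length]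
    refine Prod.ext ?_ h
    rw [Prod.fst_add, Prod.fst_add, hui, hui', hv.2.2.2, hv'.2.2.2]
  have h0 : u.sum.2 ≠ u'.sum.2 := by
    intro h
    refine hD 0 0 ?_
    simp only [List.take_zero, List.sum_nil, add_zero]
    exact Prod.ext (by rw [hui, hui']) h
  intro h
  have hc := oPth_col (a := u.sum) hv k
  have hc' := oPth_col (a := u'.sum) hv' k'
  have h1 := congrArg Prod.fst h
  have h2 := congrArg Prod.snd h
  rw [hui] at hc
  rw [hui'] at hc'
  rcases hc with ⟨hk, hc⟩ | ⟨hk1, hk2, hc1, hc2⟩ | ⟨hk1, hc1, hc2⟩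
  · rcases hc' with ⟨hk', hc'⟩ | ⟨hk1', hk2', hc1', hc2'⟩ | ⟨hk1', hc1', hc2'⟩
    · subst hk hk'
      simp only [oPth, Prod.snd_sub, sub_zero] at h2
      exact h0 h2
    · omega
    · omega
  · rcases hc' with ⟨hk', hc'⟩ | ⟨hk1', hk2', hc1', hc2'⟩ | ⟨hk1', hc1', hc2'⟩
    · omega
    · obtain ⟨m, rfl⟩ : ∃ m, k = m + 1 := ⟨k - 1, by omega⟩
      obtain ⟨m', rfl⟩ : ∃ m', k' = m' + 1 := ⟨k' - 1, by omega⟩
      have e1 : m - v.length = 0 := by omega
      have e2 : m' - v'.length = 0 := by omega
      simp only [oPth, e1, e2] at h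
      refine hD m m' ?_
      simpa using h
    · omega
  · rcases hc' with ⟨hk', hc'⟩ | ⟨hk1', hk2', hc1', hc2'⟩ | ⟨hk1', hc1', hc2'⟩
    · omega
    · omega
    · exact hE (hc2.symm.trans (h2.trans hc2'))

theorem order {i j : ℕ} {u v u' v' : Wd} (hi : 1 ≤ i) (hu : u ∈ CB t i) (hu' : u' ∈ CB t i) (hv : v ∈ CB t j)
    (hv' : v' ∈ CB t j) (hd : Disj (u ++ v) (u' ++ v')) :
    u'.sum.2 < u.sum.2 ↔ (u' ++ v').sum.2 < (u ++ v).sum.2 := by
  have hui : u.sum.1 = i := hu.2.2.2
  have hui' : u'.sum.1 = i := hu'.2.2.2
  have hη := oPth_step (a := u.sum) (v := v) hv.1.1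
  have hq := oPth_step (a := u'.sum) (v := v') hv'.1.1
  have hηt := oPth_tendsto (a := u.sum) hv
  have hne := oPth_ne hi hu hu' hv hv' hd
  have hcol : ∀ k, (oPth u.sum v 0).1 ≤ (oPth u'.sum v' k).1 := by
    intro k
    have h1 := oPth_col (a := u'.sum) hv' k
    have h2 : (oPth u.sum v 0).1 = u.sum.1 - 1 := by simp [oPth]
    rw [h2]
    omega
  have key : ∀ k : ℕ, Even ({i | StepIn (oPth u.sum v) (oPth u'.sum v' 0).1 (2 * (oPth u'.sum v' 0).2) i}.ncard) ↔
      Even ({i | StepIn (oPth u.sum v) (oPth u'.sum v' k).1 (2 * (oPth u'.sum v' k).2) i}.ncard) := by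
    intro k
    induction k with
    | zero => rfl
    | succ k ih =>
      exact ih.trans (side_const hη hηt (hq k) (fun l => hne l k) (fun l => hne l (k + 1)) (hcol k) (hcol (k + 1)))
  have h0 : {k | StepIn (oPth u.sum v) (oPth u'.sum v' 0).1 (2 * (oPth u'.sum v' 0).2) k} =
      if u'.sum.2 < u.sum.2 then {0} else ∅ := by
    have e1 : (oPth u'.sum v' 0).1 = i - 1 := by simp [oPth, hui']
    have e2 : (oPth u'.sum v' 0).2 = u'.sum.2 := by simp [oPth]
    have e3 : (oPth u.sum v 0).2 = u.sum.2 := by simp [oPth]
    have e4 : (oPth u.sum v 1).2 = u.sum.2 := by simp [oPth]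
    have e5 : (oPth u.sum v 1).1 = i := by simp [oPth, hui]
    have e6 : (oPth u.sum v 0).1 = i - 1 := by simp [oPth, hui]
    ext k
    have h1 := oPth_col (a := u.sum) hv k
    have h2 := oPth_col (a := u.sum) hv (k + 1)
    rw [e1, e2]
    rw [hui] at h1 h2
    constructor
    · rintro ⟨h3, h4⟩
      have hk : k = 0 := by omega
      subst hk
      rw [e3, zero_add, e4] at h4
      rw [if_pos (by omega)]
      rfl
    · intro h
      split_ifs at h with h5
      · have hk : k = 0 := h
        subst hk
        refine ⟨Or.inl ⟨e6, ?_⟩, ?_⟩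
        · rw [zero_add, e5]
          omega
        · rw [e3, zero_add, e4]
          omega
      · exact absurd h (Set.notMem_empty _)
  have h1 : {k | StepIn (oPth u.sum v) (oPth u'.sum v' (v'.length + 2)).1
      (2 * (oPth u'.sum v' (v'.length + 2)).2) k} =
      if (u' ++ v').sum.2 < (u ++ v).sum.2 then {v.length + 2} else ∅ := by
    rw [List.sum_append, List.sum_append]
    obtain ⟨h1, h2⟩ : (oPth u'.sum v' (v'.length + 2)).1 = i + j + 1 ∧
        (oPth u'.sum v' (v'.length + 2)).2 = (u'.sum + v'.sum).2 := by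
      have h := oPth_col (a := u'.sum) hv' (v'.length + 2)
      omega
    obtain ⟨g1, g2⟩ : (oPth u.sum v (v.length + 2)).1 = i + j + 1 ∧
        (oPth u.sum v (v.length + 2)).2 = (u.sum + v.sum).2 := by
      have h := oPth_col (a := u.sum) hv (v.length + 2)
      omega
    obtain ⟨g3, g4⟩ : (oPth u.sum v (v.length + 2 + 1)).1 = i + j + 2 ∧
        (oPth u.sum v (v.length + 2 + 1)).2 = (u.sum + v.sum).2 := by
      have h := oPth_col (a := u.sum) hv (v.length + 2 + 1)
      omega
    rw [h1, h2]
    ext k
    have h3 := oPth_col (a := u.sum) hv k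
    have h4 := oPth_col (a := u.sum) hv (k + 1)
    constructor
    · rintro ⟨h5, h6⟩
      have hk : k = v.length + 2 := by omega
      subst hk
      rw [g2, g4] at h6
      rw [if_pos (by omega)]
      rfl
    · intro h
      split_ifs at h with h5
      · have hk : k = v.length + 2 := h
        subst hk
        refine ⟨Or.inl ⟨g1, ?_⟩, ?_⟩
        · rw [g3]
          ring
        · rw [g2, g4]
          omega
      · exact absurd h (Set.notMem_empty _)
  have h2 := key (v'.length + 2)
  rw [h0, h1] at h2
  by_cases ha : u'.sum.2 < u.sum.2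
  · by_cases hb : (u' ++ v').sum.2 < (u ++ v).sum.2
    · exact ⟨fun _ => hb, fun _ => ha⟩
    · rw [if_pos ha, if_neg hb] at h2
      simp at h2
  · by_cases hb : (u' ++ v').sum.2 < (u ++ v).sum.2
    · rw [if_neg ha, if_pos hb] at h2
      simp at h2
    · exact ⟨fun h => absurd h ha, fun h => absurd h hb⟩

end Pool.Agent.ZHW
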