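import Pool.Agent.ZHW.Defs

/-!
Module Basic: cobridges, weak bridges, renewal levels.

PAPER PROOF. Prefixes of `u ++ v` are prefixes of `u` or `u ++ a` with `a` a prefix of `v`, suffixes are suffixes of
`v` or `b ++ v` with `b` a suffix of `u` (`List.append_eq_append_iff`). `CB_append`, `CB_WB_append`: a nonempty block of
`u ++ v` with sum zero is not inside `u` or `v`, so it is `b ++ a`, `b` a nonempty suffix of `u`, `a` a prefix of `v`,
with first coordinate `> 0 + 0` (as in `bridge_append_half` in SHP/Words). `WB_step`: the last step `(1, 0)` leaves the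
columns of `l` (it is in `steps t`). `gf_WB_le`: the injection `l ↦ l ++ [(1, 0)]` into `CB t (q + 1)` (`gf_le_of_inj` with
`k = 1`) and `gf (CB t d) z = be t z d`, which is `gf_CB` of the module Flip. `Rn_unique`: if `u' = u ++ w`,
`v = w ++ v'` with `w <> []`: `w` is a nonempty suffix of the cobridge `u'`, so `w.sum.1 > 0`, but
`u.sum.1 = i = u'.sum.1 = u.sum.1 + w.sum.1`. `CB_split`, `WB_split`: `v` is a factor of `l` (`saws_infix`), its suffixes
are suffixes of `l`; `v.sum.1 >= 0` gives `i <= d`. `Rn_append`: if `A ++ P = u ++ v`, `u ∈ CB t (i + j)`, then `u` is not a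
proper prefix of `A` (`A = u ++ w`, `w <> []` would give `i = (i + j) + w.sum.1`, `w.sum.1 > 0`), so `u = A ++ w`, `P = w ++ v`,
and `w ∈ CB t j`.
-/

namespace Pool.Agent.ZHW

open Pool.Agent.SHP
open scoped ENNReal NNReal

variable {t : Bool}

private theorem Basic_saws_app {u v : Wd} (hu : u ∈ saws t) (hv : v ∈ saws t)
    (h : ∀ a b c d : Wd, u = a ++ b → b ≠ [] → v = c ++ d → 0 < b.sum.1 + c.sum.1 ∨ c = []) :
    u ++ v ∈ saws t := by
  refine ⟨fun s hs => ?_, fun a b c he hb => ?_⟩
  · rcases List.mem_append.1 hs with hs | hs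
    · exact hu.1 s hs
    · exact hv.1 s hs
  · rcases List.append_eq_append_iff.1 he with ⟨d, hd, hd'⟩ | ⟨d, hd, hd'⟩
    · exact hv.2 d b c hd' hb
    · rcases List.append_eq_append_iff.1 hd' with ⟨x, hx, hx'⟩ | ⟨x, hx, hx'⟩
      · exact hu.2 a b x (by rw [hd, hx]) hb
      · by_cases hdn : d = []
        · subst hdn
          refine hv.2 [] b c ?_ hb
          rw [hx', hx]
          simp
        · rcases h a d x c hd hdn hx' with h1 | h1
          · exfalso
            have h3 : b.sum.1 = d.sum.1 + x.sum.1 := by rw [hx, fst_sum_append]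
            rw [hb] at h3
            simp only [Prod.fst_zero] at h3
            omega
          · subst h1
            refine hu.2 a b [] ?_ hb
            rw [hd, hx]
            simp

private theorem Basic_suf {u v : Wd} (hu : ∀ a b : Wd, u = a ++ b → b ≠ [] → 0 < b.sum.1)
    (hv : ∀ a b : Wd, v = a ++ b → b ≠ [] → 0 < b.sum.1) :
    ∀ a b : Wd, u ++ v = a ++ b → b ≠ [] → 0 < b.sum.1 := by
  intro a b he hb
  rcases List.append_eq_append_iff.1 he with ⟨d, hd, hd'⟩ | ⟨d, hd, hd'⟩
  · exact hv d b hd' hb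
  · rw [hd', fst_sum_append]
    by_cases hvn : v = []
    · subst hvn
      have hdn : d ≠ [] := by
        intro h0
        apply hb
        rw [hd', h0]
        rfl
      have := hu a d hd hdn
      simp only [List.sum_nil, Prod.fst_zero]
      omega
    · have h1 := hv [] v (by simp) hvn
      by_cases hdn : d = []
      · subst hdn
        simp only [List.sum_nil, Prod.fst_zero]
        omega
      · have := hu a d hd hdn
        omega

private theorem Basic_sufw {u v : Wd} (hu : ∀ a b : Wd, u = a ++ b → 0 ≤ b.sum.1)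
    (hv : ∀ a b : Wd, v = a ++ b → 0 ≤ b.sum.1) :
    ∀ a b : Wd, u ++ v = a ++ b → 0 ≤ b.sum.1 := by
  intro a b he
  rcases List.append_eq_append_iff.1 he with ⟨d, hd, hd'⟩ | ⟨d, hd, hd'⟩
  · exact hv d b hd'
  · rw [hd', fst_sum_append]
    have h1 := hv [] v (by simp)
    have h2 := hu a d hd
    omega

private theorem Basic_Ri_app {u v : Wd} (hu : Ri u) (hu2 : 0 ≤ u.sum.1) (hv : Ri v) :
    Ri (u ++ v) := by
  intro a b he
  rcases List.append_eq_append_iff.1 he with ⟨d, hd, hd'⟩ | ⟨d, hd, hd'⟩
  · rw [hd, fst_sum_append]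
    have := hv d b hd'
    omega
  · exact hu a d hd

private theorem Basic_weak {l : Wd} (h : ∀ u v : Wd, l = u ++ v → v ≠ [] → 0 < v.sum.1) :
    ∀ u v : Wd, l = u ++ v → 0 ≤ v.sum.1 := by
  intro u v he
  by_cases hv : v = []
  · subst hv
    simp
  · exact (h u v he hv).le

private theorem Basic_nil_saws : ([] : Wd) ∈ saws t := nil_mem_bridges.1.1

theorem CB_zero : CB t 0 = {[]} := by
  ext l
  constructor
  · intro h
    by_contra hl
    have h1 := h.2.2.1 [] l (by simp) hl
    rw [h.2.2.2] at h1
    simp at h1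
  · intro h
    have hl : l = [] := h
    subst hl
    refine ⟨Basic_nil_saws, ?_, ?_, by simp⟩
    · intro u v h
      have := h.symm
      simp at this
      rw [this.1]
      simp
    · intro u v h hv
      have := h.symm
      simp at this
      exact absurd this.2 hv

theorem Ri_nil : Ri [] := by
  intro u v h
  have := h.symm
  simp at this
  rw [this.1]
  simp

theorem Ri_append {u v : Wd} {d : ℕ} (hu : u ∈ CB t d) (hv : Ri v) : Ri (u ++ v) := by
  refine Basic_Ri_app hu.2.1 ?_ hv
  rw [hu.2.2.2]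
  positivity

theorem CB_append {i j : ℕ} {u v : Wd} (hu : u ∈ CB t i) (hv : v ∈ CB t j) : u ++ v ∈ CB t (i + j) := by
  refine ⟨Basic_saws_app hu.1 hv.1 ?_, Ri_append hu hv.2.1, Basic_suf hu.2.2.1 hv.2.2.1, ?_⟩
  · intro a b c d hab hb hcd
    left
    have h1 := hu.2.2.1 a b hab hb
    have h2 := hv.2.1 c d hcd
    omega
  · rw [fst_sum_append, hu.2.2.2, hv.2.2.2]
    push_cast
    ring

theorem CB_WB_append {i j : ℕ} {u v : Wd} (hu : u ∈ CB t i) (hv : v ∈ WB t j) : u ++ v ∈ WB t (i + j) := by
  refine ⟨Basic_saws_app hu.1 hv.1 ?_, Ri_append hu hv.2.1,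
    Basic_sufw (Basic_weak hu.2.2.1) hv.2.2.1, ?_⟩
  · intro a b c d hab hb hcd
    left
    have h1 := hu.2.2.1 a b hab hb
    have h2 := hv.2.1 c d hcd
    omega
  · rw [fst_sum_append, hu.2.2.2, hv.2.2.2]
    push_cast
    ring

theorem BT_WB {s : ℕ} {l : Wd} (h : l ∈ BT t s) : l ∈ WB t s := by
  obtain ⟨hb, hs⟩ := h
  refine ⟨hb.1.1, ?_, hb.2, hs⟩
  intro u v he
  by_cases hu : u = []
  · subst hu
    simp
  · exact (hb.1.2 u v he hu).le

theorem CB_WB {s : ℕ} {l : Wd} (h : l ∈ CB t s) : l ∈ WB t s := by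
  exact ⟨h.1, h.2.1, Basic_weak h.2.2.1, h.2.2.2⟩

theorem WB_step {q : ℕ} {l : Wd} (h : l ∈ WB t q) : l ++ [(1, 0)] ∈ CB t (q + 1) := by
  have hone : ([(1, 0)] : Wd) ∈ saws t := by
    refine ⟨fun s hs => ?_, fun u v w he hv => ?_⟩
    · rw [List.mem_singleton] at hs
      subst hs
      cases t <;> simp [steps]
    · rcases v with _ | ⟨a, v⟩
      · rfl
      · exfalso
        have hl := congrArg List.length he
        simp only [List.length_append, List.length_cons, List.length_nil] at hl
        have hu : u = [] := List.eq_nil_of_length_eq_zero (by omega)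
        have hv' : v = [] := List.eq_nil_of_length_eq_zero (by omega)
        have hw : w = [] := List.eq_nil_of_length_eq_zero (by omega)
        subst hu hv' hw
        simp only [List.nil_append, List.append_nil, List.cons.injEq, and_true] at he
        rw [← he] at hv
        simp at hv
  have hsuf : ∀ a b : Wd, ([(1, 0)] : Wd) = a ++ b → b ≠ [] → 0 < b.sum.1 := by
    intro a b he hb
    rcases a with _ | ⟨x, a⟩
    · rw [List.nil_append] at he
      rw [← he]
      simp
    · exfalso
      have hl := congrArg List.length he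
      simp only [List.length_append, List.length_cons, List.length_nil] at hl
      have hb' : 0 < b.length := List.length_pos_iff.2 hb
      omega
  have hpre : ∀ a b : Wd, ([(1, 0)] : Wd) = a ++ b → a ≠ [] → 0 < a.sum.1 := by
    intro a b he ha
    rcases b with _ | ⟨x, b⟩
    · rw [List.append_nil] at he
      rw [← he]
      simp
    · exfalso
      have hl := congrArg List.length he
      simp only [List.length_append, List.length_cons, List.length_nil] at hl
      have ha' : 0 < a.length := List.length_pos_iff.2 ha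
      omega
  refine ⟨Basic_saws_app h.1 hone ?_, ?_, ?_, ?_⟩
  · intro a b c d hab _ hcd
    by_cases hc : c = []
    · right
      exact hc
    · left
      have h1 := h.2.2.1 a b hab
      have h2 := hpre c d hcd hc
      omega
  · refine Basic_Ri_app h.2.1 ?_ ?_
    · rw [h.2.2.2]
      positivity
    · intro a b he
      by_cases ha : a = []
      · subst ha
        simp
      · exact (hpre a b he ha).le
  · intro a b he hb
    rcases List.append_eq_append_iff.1 he with ⟨d, hd, hd'⟩ | ⟨d, hd, hd'⟩
    · exact hsuf d b hd' hb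
    · rw [hd', fst_sum_append]
      have := h.2.2.1 a d hd
      simp
      omega
  · rw [fst_sum_append, h.2.2.2]
    simp

theorem gf_WB_le (q : ℕ) (z : ℝ≥0) : (z : ℝ≥0∞) * gf (WB t q) z ≤ gf (CB t (q + 1)) z := by
  have := gf_le_of_inj (A := WB t q) (B := CB t (q + 1)) z 1 (fun g => g ++ [(1, 0)])
    (fun a ha => WB_step ha) (fun a _ b _ h => List.append_cancel_right h)
    (fun a _ => by simp)
  simpa using this

theorem Rn_unique {i : ℕ} {u v u' v' : Wd} (h : u ++ v = u' ++ v') (hu : u ∈ CB t i) (hu' : u' ∈ CB t i)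
    (hv : Ri v) (hv' : Ri v') : u = u' ∧ v = v' := by
  have key : ∀ {u v u' v' : Wd}, u ∈ CB t i → u' ∈ CB t i → ∀ w : Wd, u' = u ++ w →
      v = w ++ v' → u = u' ∧ v = v' := by
    intro u v u' v' hu hu' w hw hvw
    by_cases hwn : w = []
    · subst hwn
      exact ⟨by simpa using hw.symm, by simpa using hvw⟩
    · exfalso
      have h1 := hu'.2.2.1 u w hw hwn
      have h2 := hu'.2.2.2
      rw [hw, fst_sum_append, hu.2.2.2] at h2
      omega
  rcases List.append_eq_append_iff.1 h with ⟨d, hd, hd'⟩ | ⟨d, hd, hd'⟩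
  · exact key hu hu' d hd hd'
  · have := key hu' hu d hd hd'
    exact ⟨this.1.symm, this.2.symm⟩

theorem CB_split {d i : ℕ} {l u v : Wd} (hl : l ∈ CB t d) (h : l = u ++ v) (hu : u ∈ CB t i) (hv : Ri v) :
    i ≤ d ∧ v ∈ CB t (d - i) := by
  have h1 : 0 ≤ v.sum.1 := hv v [] (by simp)
  have h2 := hl.2.2.2
  rw [h, fst_sum_append, hu.2.2.2] at h2
  have hid : i ≤ d := by omega
  refine ⟨hid, ?_, hv, ?_, ?_⟩
  · exact saws_infix (u := u) (w := []) (by rw [List.append_nil, ← h]; exact hl.1)
  · intro a b hab hb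
    refine hl.2.2.1 (u ++ a) b ?_ hb
    rw [h, hab]
    simp
  · push_cast [Nat.cast_sub hid]
    omega

theorem WB_split {k i : ℕ} {l u v : Wd} (hl : l ∈ WB t k) (h : l = u ++ v) (hu : u ∈ CB t i) (hv : Ri v) :
    i ≤ k ∧ v ∈ WB t (k - i) := by
  have h1 : 0 ≤ v.sum.1 := hv v [] (by simp)
  have h2 := hl.2.2.2
  rw [h, fst_sum_append, hu.2.2.2] at h2
  have hid : i ≤ k := by omega
  refine ⟨hid, ?_, hv, ?_, ?_⟩
  · exact saws_infix (u := u) (w := []) (by rw [List.append_nil, ← h]; exact hl.1)
  · intro a b hab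
    refine hl.2.2.1 (u ++ a) b ?_
    rw [h, hab]
    simp
  · push_cast [Nat.cast_sub hid]
    omega

theorem Rn_self {d : ℕ} {l : Wd} (h : l ∈ CB t d) : Rn t d l := by
  exact ⟨l, [], by simp, h, Ri_nil⟩

theorem Rn_append {i j : ℕ} {A P : Wd} (hA : A ∈ CB t i) (hP : Ri P) : Rn t (i + j) (A ++ P) ↔ Rn t j P := by
  constructor
  · rintro ⟨u, v, he, hu, hv⟩
    have key : ∀ w : Wd, u = A ++ w → P = w ++ v → Rn t j P := by
      intro w hw hPw
      refine ⟨w, v, hPw, ⟨?_, ?_, ?_, ?_⟩, hv⟩
      · exact saws_infix (u := A) (w := []) (by rw [List.append_nil, ← hw]; exact hu.1)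
      · intro a b hab
        refine hP a (b ++ v) ?_
        rw [hPw, hab]
        simp
      · intro a b hab hb
        refine hu.2.2.1 (A ++ a) b ?_ hb
        rw [hw, hab]
        simp
      · have h2 := hu.2.2.2
        rw [hw, fst_sum_append, hA.2.2.2] at h2
        push_cast at h2
        omega
    rcases List.append_eq_append_iff.1 he with ⟨w, hw, hw'⟩ | ⟨w, hw, hw'⟩
    · exact key w hw hw'
    · by_cases hwn : w = []
      · subst hwn
        exact key [] (by simpa using hw.symm) (by simpa using hw'.symm)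
      · exfalso
        have h1 := hA.2.2.1 u w hw hwn
        have h2 := hA.2.2.2
        rw [hw, fst_sum_append, hu.2.2.2] at h2
        push_cast at h2
        omega
  · rintro ⟨u, v, he, hu, hv⟩
    exact ⟨A ++ u, v, by rw [he]; simp, CB_append hA hu, hv⟩

end Pool.Agent.ZHW
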