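import Pool.Agent.ZHW.Defs

/-!
Module Flip: the reversed and reflected walk.

PAPER PROOF. `rev` reverses the list and negates the steps (`rev_rev`, `rev_append`, `rev_sum`, `rev_length`,
`rev_mem_saws` in SHP/Cut), `refl t` is additive with `refl t (-p) = - refl t p` and `(refl t p).1 = - p.1`
(`refl_refl`, `refl_add`, `sum_map_refl`, `map_map_refl`, `map_refl_saws` in SHP/HW). So `(fl t l).sum = refl t (- l.sum)`,
whose first coordinate is `l.sum.1`; a decomposition `fl t l = u ++ v` comes from `l = fl t v ++ fl t u`.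
`fl_CB`: prefixes of `fl t l` are flips of suffixes of `l` (first coordinate `>= 0`), suffixes of `fl t l` are flips of
prefixes of `l` (first coordinate `> 0` unless empty). `fl_BT` is the same. `gf_CB`: `fl t` is a length preserving
involution (`gf_le_of_inj` with `k = 0`, twice). `JP_disj`: if `fl t p.1 = P ++ R`, `p.2 = Q ++ S`, `P.sum = Q.sum`, then
`p.1 = fl t R ++ fl t P`, so `p.1 ++ p.2.map (refl t) = fl t R ++ ((fl t P ++ Q.map (refl t)) ++ S.map (refl t))`, the
middle block has sum `refl t (- P.sum) + refl t Q.sum = 0`, so it is empty.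
-/

namespace Pool.Agent.ZHW

open Pool.Agent.SHP
open scoped ENNReal NNReal

variable {t : Bool}

private theorem Flip_refl_neg (p : ℤ × ℤ) : refl t (-p) = -refl t p := by
  obtain ⟨a, b⟩ := p
  cases t
  · simp [SHP.refl]
  · simp only [SHP.refl, Prod.neg_mk, if_true, Prod.mk.injEq, true_and]
    ring

private theorem Flip_rev_map (l : Wd) : rev (l.map (refl t)) = (rev l).map (refl t) := by
  unfold rev
  rw [← List.map_reverse, List.map_map, List.map_map]
  apply List.map_congr_left
  intro a _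
  exact (Flip_refl_neg a).symm

private theorem Flip_refl_fst (p : ℤ × ℤ) : (refl t p).1 = -p.1 := rfl

theorem fl_fl (l : Wd) : fl t (fl t l) = l := by
  unfold fl
  rw [Flip_rev_map, rev_rev, map_map_refl]

theorem fl_append (u v : Wd) : fl t (u ++ v) = fl t v ++ fl t u := by
  unfold fl
  rw [rev_append, List.map_append]

theorem fl_length (l : Wd) : (fl t l).length = l.length := by
  unfold fl
  rw [List.length_map, rev_length]

theorem fl_sum (l : Wd) : (fl t l).sum = refl t (-l.sum) := by
  unfold fl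
  rw [sum_map_refl, rev_sum]

theorem fl_sum_fst (l : Wd) : (fl t l).sum.1 = l.sum.1 := by
  rw [fl_sum, Flip_refl_fst, Prod.fst_neg, neg_neg]

private theorem Flip_split {l u v : Wd} (h : fl t l = u ++ v) : l = fl t v ++ fl t u := by
  have h1 := congrArg (fl t) h
  rw [fl_fl, fl_append] at h1
  exact h1

private theorem Flip_nil {l : Wd} (h : fl t l = []) : l = [] := by
  have h1 := fl_length (t := t) l
  rw [h] at h1
  exact List.length_eq_zero_iff.mp h1.symm

private theorem Flip_saws {l : Wd} (h : l ∈ saws t) : fl t l ∈ saws t :=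
  map_refl_saws (rev_mem_saws h)

theorem fl_CB {d : ℕ} {l : Wd} (h : l ∈ BT t d) : fl t l ∈ CB t d := by
  obtain ⟨⟨⟨hs, hp⟩, hq⟩, hd⟩ := h
  refine ⟨Flip_saws hs, ?_, ?_, ?_⟩
  · intro u v huv
    have h1 := hq _ _ (Flip_split huv)
    rwa [fl_sum_fst] at h1
  · intro u v huv hv
    have h1 := hp _ _ (Flip_split huv) (fun h0 => hv (Flip_nil h0))
    rwa [fl_sum_fst] at h1
  · rw [fl_sum_fst, hd]

theorem fl_BT {d : ℕ} {l : Wd} (h : l ∈ CB t d) : fl t l ∈ BT t d := by
  obtain ⟨hs, hr, hq, hd⟩ := h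
  refine ⟨⟨⟨Flip_saws hs, ?_⟩, ?_⟩, ?_⟩
  · intro u v huv hu
    have h1 := hq _ _ (Flip_split huv) (fun h0 => hu (Flip_nil h0))
    rwa [fl_sum_fst] at h1
  · intro u v huv
    have h1 := hr _ _ (Flip_split huv)
    rwa [fl_sum_fst] at h1
  · rw [fl_sum_fst, hd]

private theorem Flip_inj (A : Set Wd) : Set.InjOn (fl t) A := by
  intro a _ b _ hab
  have h1 := congrArg (fl t) hab
  rwa [fl_fl, fl_fl] at h1

theorem gf_CB (d : ℕ) (z : ℝ≥0) : gf (CB t d) z = be t z d := by
  unfold be
  apply le_antisymm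
  · have h1 := gf_le_of_inj (A := CB t d) (B := BT t d) z 0 (fl t) (fun a ha => fl_BT ha) (Flip_inj _)
      (fun a _ => by rw [fl_length, add_zero])
    rwa [pow_zero, one_mul] at h1
  · have h1 := gf_le_of_inj (A := BT t d) (B := CB t d) z 0 (fl t) (fun a ha => fl_CB ha) (Flip_inj _)
      (fun a _ => by rw [fl_length, add_zero])
    rwa [pow_zero, one_mul] at h1

theorem JP_disj {d s : ℕ} {p : Wd × Wd} (h : p ∈ JP t d s) : Disj (fl t p.1) p.2 := by
  obtain ⟨_, _, h3⟩ := h
  intro P Q R S hP hQ hsum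
  have h1 : p.1 = fl t R ++ fl t P := Flip_split hP
  have h4 : p.1 ++ p.2.map (refl t) =
      fl t R ++ ((fl t P ++ Q.map (refl t)) ++ S.map (refl t)) := by
    rw [h1, hQ, List.map_append]
    simp only [List.append_assoc]
  have h5 : (fl t P ++ Q.map (refl t)).sum = 0 := by
    rw [List.sum_append, fl_sum, sum_map_refl, hsum, Flip_refl_neg]
    exact neg_add_cancel _
  have h6 := h3.2 _ _ _ h4 h5
  rw [List.append_eq_nil_iff] at h6
  refine ⟨Flip_nil h6.1, ?_⟩
  have h7 := h6.2
  rwa [List.map_eq_nil_iff] at h7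

end Pool.Agent.ZHW
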