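import Pool.Agent.SHP.Plane
import Pool.Agent.SHP.Cut

/-!
Module Split: pairs of paths which meet only at the start, in the plane.

PAPER PROOF of `pairs_ge`. Through `pt t` (`Omega_eq`, `a_eq`, `comp_injective` in SHP/Plane; `Om`, `word`, `unword` in SHP/Walks;
compare `DisjointPairs_eq` there and `disj_word`, `ncard_Tz` in SH3/Plane) it is enough to inject the self-avoiding words of
length `2 n` into the pairs of self-avoiding words `(g, v)` of length `n` with `Disj g v`: `l ↦ (rev (l.take n), l.drop n)`
(proof as `cut_pair` in SHP/Cut: if `rev u = p ++ r`, `v = q ++ s` and `p.sum = q.sum` then the factor `rev p ++ q` of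
`l = u ++ v` has sum zero). The set `Pairs` is finite (the library has the finiteness of the set of words).
-/

namespace Pool.Agent.ZHW

open Pool.Agent.SHP Pool.Agent.SHP.Plane

/-- Pairs `(w, w')` of self-avoiding paths of length `n` from the origin with
`w {1, ..., n} ∩ w' {0, ..., n} = ∅`. -/
def Pairs (L : Set ℂ) (n : ℕ) : Set ((Fin (n + 1) → ℂ) × (Fin (n + 1) → ℂ)) :=
  {p | p.1 ∈ Omega L n ∧ p.2 ∈ Omega L n ∧ ∀ i j : Fin (n + 1), i ≠ 0 → p.1 i ≠ p.2 j}

/-- The probability of the event of Q1. -/
noncomputable def P (L : Set ℂ) (n : ℕ) : ℝ := ((Pairs L n).ncard : ℝ) / a L n ^ 2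

private theorem split_rev_eq_nil {l : List (ℤ × ℤ)} (h : rev l = []) : l = [] := by
  have := rev_length l
  rw [h] at this
  exact List.length_eq_zero_iff.mp this.symm

/-- The two halves of a self-avoiding word, seen from the middle, meet only at the start. -/
private theorem split_disj {t : Bool} {u v : List (ℤ × ℤ)} (h : u ++ v ∈ saws t) :
    Disj (rev u) v := by
  intro p q r s hp hq hpq
  have h1 : u = rev r ++ rev p := by
    have := congrArg rev hp
    rwa [rev_rev, rev_append] at this
  have h2 : (rev p ++ q).sum = 0 := by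
    rw [List.sum_append, rev_sum, hpq]
    exact neg_add_cancel _
  have h3 := h.2 (rev r) (rev p ++ q) s (by rw [h1, hq]; simp) h2
  have h4 := List.append_eq_nil_iff.mp h3
  exact ⟨split_rev_eq_nil h4.1, h4.2⟩

private theorem split_mem_Om {t : Bool} {n : ℕ} {l : List (ℤ × ℤ)} (hl : l ∈ saws t)
    (h : l.length = n) : unword n l ∈ Om t n := by
  rw [mem_Om_iff, word_unword h]
  exact ⟨unword_zero n l, hl⟩

private theorem split_ne {t : Bool} {n : ℕ} {w w' : Fin (n + 1) → ℤ × ℤ}
    (hw : w ∈ Om t n) (hw' : w' ∈ Om t n) (h : Disj (word w) (word w')) (i j : Fin (n + 1))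
    (hi : i ≠ 0) : w i ≠ w' j := by
  intro he
  have h4 := (h ((word w).take i) ((word w').take j) ((word w).drop i) ((word w').drop j)
    (List.take_append_drop _ _).symm (List.take_append_drop _ _).symm
    (by rw [take_word hw.1, take_word hw'.1]; exact he)).1
  have h5 := congrArg List.length h4
  rw [List.length_take, length_word, List.length_nil] at h5
  have := i.2
  have h6 : (i : ℕ) ≠ 0 := fun h => hi (Fin.ext h)
  omega

private theorem split_finite (t : Bool) (n : ℕ) : (Pairs (lat t) n).Finite := by
  have h : (Omega (lat t) n).Finite := by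
    rw [Omega_eq]
    exact (finite_Om t n).image _
  exact (h.prod h).subset (fun p hp => ⟨hp.1, hp.2.1⟩)

theorem pairs_ge (t : Bool) (n : ℕ) : (cnt (saws t) (2 * n) : ℝ) ≤ ((Pairs (lat t) n).ncard : ℝ) := by
  unfold cnt
  rw [Nat.cast_le]
  have hlen : ∀ l : List (ℤ × ℤ), l.length = 2 * n →
      (rev (l.take n)).length = n ∧ (l.drop n).length = n := by
    intro l hl
    refine ⟨?_, ?_⟩
    · rw [rev_length, List.length_take, hl]; omega
    · rw [List.length_drop, hl]; omega
  refine Set.ncard_le_ncard_of_injOn
    (fun l : List (ℤ × ℤ) => ((fun i => pt t (unword n (rev (l.take n)) i)),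
      (fun i => pt t (unword n (l.drop n) i)))) ?_ ?_ (split_finite t n)
  · rintro l ⟨hl, hl2⟩
    obtain ⟨h1, h2⟩ := hlen l hl2
    have hs : l.take n ++ l.drop n ∈ saws t := by rw [List.take_append_drop]; exact hl
    have e1 := split_mem_Om (rev_mem_saws (saws_append_left hs)) h1
    have e2 := split_mem_Om (saws_append_right hs) h2
    refine ⟨comp_mem_Omega.2 e1, comp_mem_Omega.2 e2, ?_⟩
    intro i j hi hij
    refine split_ne e1 e2 ?_ i j hi (pt_injective t hij)
    rw [word_unword h1, word_unword h2]
    exact split_disj hs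
  · rintro l ⟨hl, hl2⟩ l' ⟨hl', hl2'⟩ h
    obtain ⟨h1, h2⟩ := hlen l hl2
    obtain ⟨h1', h2'⟩ := hlen l' hl2'
    simp only [Prod.mk.injEq] at h
    have k1 : unword n (rev (l.take n)) = unword n (rev (l'.take n)) := comp_injective t n h.1
    have k2 : unword n (l.drop n) = unword n (l'.drop n) := comp_injective t n h.2
    have k3 := congrArg word k1
    rw [word_unword h1, word_unword h1'] at k3
    have k4 := congrArg rev k3
    rw [rev_rev, rev_rev] at k4
    have k5 := congrArg word k2
    rw [word_unword h2, word_unword h2'] at k5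
    rw [← List.take_append_drop n l, k4, k5, List.take_append_drop]

end Pool.Agent.ZHW
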