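import Pool.Agent.ZHW.Basic
import Pool.Agent.SHP.Crit

/-!
Module Beta: the masses of bridges of given width are at most one at the critical point.

PAPER PROOF. `be_zero`: `BT t 0 = {[]}`. `be_add`: concatenation `BT t i × BT t j -> BT t (i + j)` is injective for fixed
`i` (the second factor starts strictly: `u` is the longest prefix of `u ++ v` with first coordinate `<= i`; or use
`bridge_append` and lengths: two decompositions with `u' = u ++ w`, `v = w ++ v'`, `w <> []` give `w.sum.1 > 0` as a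
nonempty prefix of the half-plane walk `v`, and `w.sum.1 = u'.sum.1 - u.sum.1 = 0`), `gf2_le_gf_of_inj`, `gf2_prod`.
`be_le_one`: for `z < zc t`: `gf (saws t) z < ∞` (`gf_saws_ne_top`), so `be t z (k * d) <= gf (saws t) z` is bounded in `k`,
and `be t z d ^ k <= be t z (k * d)`; a number `> 1` has unbounded powers. For `z = zc t` use `gf_lsc` (SHP/GfB; if
`gf A z <= c` for all `z < z₁` then `gf A z₁ <= c`). `be_scale`: every word of `BT t d` has length at least `d`
(`fst_sum_le_length`), so `(y * z) ^ length <= y ^ d * z ^ length` for `y <= 1`. `JP_scale` is the same for pairs.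
-/

namespace Pool.Agent.ZHW

open Pool.Agent.SHP
open scoped ENNReal NNReal

variable {t : Bool}

theorem be_zero (z : ℝ≥0) : be t z 0 = 1 := by
  have h : BT t 0 = ({[]} : Set (List (ℤ × ℤ))) := by
    ext l
    constructor
    · rintro ⟨h1, h2⟩
      by_contra hl
      have h3 := bridge_sum_pos h1 hl
      rw [h2] at h3
      simp at h3
    · intro h
      have hl : l = [] := h
      subst hl
      exact ⟨nil_mem_bridges, by simp⟩
  unfold be gf
  rw [h, tsum_singleton (f := fun l : List (ℤ × ℤ) => (z : ℝ≥0∞) ^ l.length)]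
  simp

private theorem Beta_overlap {i : ℕ} {u v u' v' w : Wd} (hu : u ∈ BT t i) (hu' : u' ∈ BT t i)
    (hv : v ∈ halfs t) (h1 : u' = u ++ w) (h2 : v = w ++ v') : u = u' ∧ v = v' := by
  by_cases hw : w = []
  · subst hw
    exact ⟨by simpa using h1.symm, by simpa using h2⟩
  · exfalso
    have h3 := hv.2 w v' h2 hw
    have h4 := hu'.2
    rw [h1, fst_sum_append, hu.2] at h4
    omega

theorem be_add (z : ℝ≥0) (i j : ℕ) : be t z i * be t z j ≤ be t z (i + j) := by
  unfold be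
  rw [← gf2_prod]
  refine gf2_le_gf_of_inj z (fun p => p.1 ++ p.2) ?_ ?_ ?_
  · rintro ⟨u, v⟩ ⟨hu, hv⟩
    have hu' : u ∈ BT t i := hu
    have hv' : v ∈ BT t j := hv
    refine ⟨bridge_append hu'.1 hv'.1, ?_⟩
    show (u ++ v).sum.1 = ((i + j : ℕ) : ℤ)
    rw [fst_sum_append, hu'.2, hv'.2]
    push_cast
    rfl
  · rintro ⟨u, v⟩ ⟨hu, hv⟩ ⟨u', v'⟩ ⟨hu', hv'⟩ h
    have hu1 : u ∈ BT t i := hu
    have hv1 : v ∈ BT t j := hv
    have hu2 : u' ∈ BT t i := hu'
    have hv2 : v' ∈ BT t j := hv'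
    have h1 : u ++ v = u' ++ v' := h
    rcases List.append_eq_append_iff.1 h1 with ⟨w, hw, hw'⟩ | ⟨w, hw, hw'⟩
    · obtain ⟨e1, e2⟩ := Beta_overlap hu1 hu2 hv1.1.1 hw hw'
      rw [e1, e2]
    · obtain ⟨e1, e2⟩ := Beta_overlap hu2 hu1 hv2.1.1 hw hw'
      rw [e1, e2]
  · rintro ⟨u, v⟩ _
    show (u ++ v).length = _
    rw [List.length_append]

private theorem Beta_pow (z : ℝ≥0) (d k : ℕ) : be t z d ^ k ≤ be t z (k * d) := by
  induction k with
  | zero => rw [Nat.zero_mul, be_zero, pow_zero]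
  | succ k ih =>
    calc be t z d ^ (k + 1) = be t z d ^ k * be t z d := pow_succ _ _
      _ ≤ be t z (k * d) * be t z d := by gcongr
      _ ≤ be t z (k * d + d) := be_add z _ _
      _ = be t z ((k + 1) * d) := by rw [Nat.succ_mul]

private theorem Beta_below {z : ℝ≥0} (hz : z < zc t) (d : ℕ) : be t z d ≤ 1 := by
  by_contra h
  have h1 : 1 < be t z d := not_le.1 h
  have h2 : Filter.Tendsto (fun k : ℕ => be t z d ^ k) Filter.atTop (nhds ⊤) :=
    ENNReal.tendsto_pow_atTop_nhds_top_iff.2 h1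
  have h3 : gf (saws t) z < ⊤ := lt_top_iff_ne_top.2 (gf_saws_ne_top t hz)
  obtain ⟨k, hk⟩ := (h2.eventually (lt_mem_nhds h3)).exists
  have h4 : be t z d ^ k ≤ gf (saws t) z :=
    (Beta_pow z d k).trans (gf_mono_set (fun l hl => hl.1.1.1) z)
  exact absurd hk (not_lt.2 h4)

theorem be_le_one (d : ℕ) : be t (zc t) d ≤ 1 := by
  by_contra h
  have h1 : 1 < gf (BT t d) (zc t) := not_le.1 h
  obtain ⟨z₀, h0, h2⟩ := gf_lsc (BT t d) (zc_pos t) h1
  obtain ⟨z, hz0, hz1⟩ := exists_between h0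
  exact absurd (h2 z hz0 hz1) (not_lt.2 (Beta_below hz1 d))

private theorem Beta_len {d : ℕ} {l : Wd} (hl : l ∈ BT t d) : d ≤ l.length := by
  have h1 := fst_sum_le_length (t := t) hl.1.1.1.1
  rw [hl.2] at h1
  exact_mod_cast h1

private theorem Beta_term {y z : ℝ≥0} (hy : y ≤ 1) {d n : ℕ} (h : d ≤ n) :
    ((y * z : ℝ≥0) : ℝ≥0∞) ^ n ≤ (y : ℝ≥0∞) ^ d * (z : ℝ≥0∞) ^ n := by
  rw [ENNReal.coe_mul, mul_pow]
  have h1 : (y : ℝ≥0∞) ^ n ≤ (y : ℝ≥0∞) ^ d :=
    pow_le_pow_right_of_le_one' (by exact_mod_cast hy) h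
  gcongr

theorem be_scale {y : ℝ≥0} (hy : y ≤ 1) (d : ℕ) : be t (y * zc t) d ≤ (y : ℝ≥0∞) ^ d * be t (zc t) d := by
  unfold be gf
  rw [← ENNReal.tsum_mul_left]
  exact ENNReal.tsum_le_tsum fun l => Beta_term hy (Beta_len l.2)

theorem JP_scale {y : ℝ≥0} (hy : y ≤ 1) (d s : ℕ) :
    gf2 (JP t d s) (y * zc t) ≤ (y : ℝ≥0∞) ^ (d + s) * gf2 (JP t d s) (zc t) := by
  unfold gf2
  rw [← ENNReal.tsum_mul_left]
  exact ENNReal.tsum_le_tsum fun l =>
    Beta_term hy (add_le_add (Beta_len l.2.1) (Beta_len l.2.2.1))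

end Pool.Agent.ZHW
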