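import Pool.Agent.ZHW.Flip
import Pool.Agent.ZHW.Basic
import Pool.Agent.ZHW.Beta
import Pool.Agent.HHP.AnRen

/-!
Module Sup: the pairs without common renewal level have bounded total mass.

PAPER PROOF. `sup_ineq`: for `i <= q` concatenate `(A, B) ∈ CB t i × CB t i` (mass `(be t z i) ^ 2`, `gf_CB`, `gf2_prod`) with
`(P, Q) ∈ CS t s (q - i)`: `A ++ P ∈ CB t (i + (q - i + s)) = CB t (q + s)`, `B ++ Q ∈ WB t q`. The largest common renewal
level `<= q` of `(A ++ P, B ++ Q)` is `i` (`i` is one; a common one `i + j`, `1 <= j <= q - i`, would be by `Rn_append` a common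
renewal level `j` of `(P, Q)`). So `i` is determined by the pair, then `A, P, B, Q` (`Rn_unique`): the sum over `i` is at most
the mass of `CB t (q + s) × WB t q`, and `z * gf (WB t q) z <= be t z (q + 1)` (`gf_WB_le`, `gf_CB`). `cs_sum`: `HHP.anRen` with
`B n = be t (zc t) (n + 1)`, `u n = (be t (zc t) n) ^ 2`, `c q = gf2 (CS t (s + 1) q) (zc t)`, `x = (zc t)⁻¹` (`zc_pos`; divide
`sup_ineq` for `s + 1` by `zc t`).
-/

namespace Pool.Agent.ZHW

open Pool.Agent.SHP Finset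
open scoped ENNReal NNReal

variable {t : Bool}

/-- The concatenations of a pair of cobridges of width `i` and a pair without common renewal level. -/
private def SupS (t : Bool) (s q i : ℕ) : Set (Wd × Wd) :=
  {x | ∃ a ∈ CB t i ×ˢ CB t i, ∃ b ∈ CS t s (q - i), x = (a.1 ++ b.1, a.2 ++ b.2)}

private theorem Sup_one (z : ℝ≥0) (s q i : ℕ) :
    (be t z i) ^ 2 * gf2 (CS t s (q - i)) z ≤ gf2 (SupS t s q i) z := by
  have h0 : (be t z i) ^ 2 = gf2 (CB t i ×ˢ CB t i) z := by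
    rw [gf2_prod, gf_CB, sq]
  rw [h0]
  unfold gf2
  rw [← ENNReal.tsum_mul_right]
  have h1 : ∀ a : (CB t i ×ˢ CB t i : Set (Wd × Wd)),
      (z : ℝ≥0∞) ^ ((a : Wd × Wd).1.length + (a : Wd × Wd).2.length) *
      ∑' b : CS t s (q - i), (z : ℝ≥0∞) ^ ((b : Wd × Wd).1.length + (b : Wd × Wd).2.length)
      = ∑' b : CS t s (q - i),
        (z : ℝ≥0∞) ^ ((a : Wd × Wd).1.length + (a : Wd × Wd).2.length) *
        (z : ℝ≥0∞) ^ ((b : Wd × Wd).1.length + (b : Wd × Wd).2.length) := fun a => by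
    rw [ENNReal.tsum_mul_left]
  rw [tsum_congr h1, ← ENNReal.tsum_prod]
  let F : (CB t i ×ˢ CB t i : Set (Wd × Wd)) × CS t s (q - i) → SupS t s q i := fun p =>
    ⟨((p.1 : Wd × Wd).1 ++ (p.2 : Wd × Wd).1, (p.1 : Wd × Wd).2 ++ (p.2 : Wd × Wd).2),
      ⟨p.1, p.1.2, p.2, p.2.2, rfl⟩⟩
  have hF : Function.Injective F := by
    rintro ⟨⟨⟨A, B⟩, hAB⟩, ⟨⟨P, Q⟩, hPQ⟩⟩ ⟨⟨⟨A', B'⟩, hAB'⟩, ⟨⟨P', Q'⟩, hPQ'⟩⟩ h
    have h2 : (A ++ P, B ++ Q) = (A' ++ P', B' ++ Q') := congrArg Subtype.val h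
    have h3 := congrArg Prod.fst h2
    have h4 := congrArg Prod.snd h2
    obtain ⟨e1, e2⟩ := Rn_unique h3 hAB.1 hAB'.1 hPQ.1.2.1 hPQ'.1.2.1
    obtain ⟨e3, e4⟩ := Rn_unique h4 hAB.2 hAB'.2 hPQ.2.1.2.1 hPQ'.2.1.2.1
    subst e1 e2 e3 e4
    rfl
  refine le_trans (le_of_eq ?_) (ENNReal.tsum_comp_le_tsum_of_injective hF
    (fun x : SupS t s q i => (z : ℝ≥0∞) ^ ((x : Wd × Wd).1.length + (x : Wd × Wd).2.length)))
  refine tsum_congr fun p => ?_
  rw [← pow_add]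
  congr 1
  simp only [F, List.length_append]
  ring

private theorem Sup_sub {s q i : ℕ} (hi : i ≤ q) : SupS t s q i ⊆ CB t (q + s) ×ˢ WB t q := by
  rintro x ⟨a, ha, b, hb, rfl⟩
  have h1 : i + (q - i + s) = q + s := by omega
  have h2 : i + (q - i) = q := by omega
  refine ⟨?_, ?_⟩
  · have := CB_append ha.1 hb.1
    rwa [h1] at this
  · have := CB_WB_append ha.2 hb.2.1
    rwa [h2] at this

private theorem Sup_disj {s q i j : ℕ} {x : Wd × Wd} (hjq : j ≤ q) (hi : x ∈ SupS t s q i)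
    (hj : x ∈ SupS t s q j) : ¬ i < j := by
  intro hij
  obtain ⟨a, ha, b, hb, rfl⟩ := hi
  obtain ⟨a', ha', b', hb', h⟩ := hj
  have h3 : a.1 ++ b.1 = a'.1 ++ b'.1 := congrArg Prod.fst h
  have h4 : a.2 ++ b.2 = a'.2 ++ b'.2 := congrArg Prod.snd h
  have hji : i + (j - i) = j := by omega
  refine hb.2.2 (j - i) (by omega) (by omega) ⟨?_, ?_⟩
  · have h5 : Rn t (i + (j - i)) (a.1 ++ b.1) := by
      rw [hji]
      exact ⟨a'.1, b'.1, h3, ha'.1, hb'.1.2.1⟩
    exact (Rn_append ha.1 hb.1.2.1).1 h5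
  · have h5 : Rn t (i + (j - i)) (a.2 ++ b.2) := by
      rw [hji]
      exact ⟨a'.2, b'.2, h4, ha'.2, hb'.2.1.2.1⟩
    exact (Rn_append ha.2 hb.2.1.2.1).1 h5

theorem sup_ineq (z : ℝ≥0) (s q : ℕ) :
    (z : ℝ≥0∞) * ∑ i ∈ range (q + 1), (be t z i) ^ 2 * gf2 (CS t s (q - i)) z ≤
      be t z (q + s) * be t z (q + 1) := by
  classical
  have hmain : ∑ i ∈ range (q + 1), (be t z i) ^ 2 * gf2 (CS t s (q - i)) z ≤
      gf2 (CB t (q + s) ×ˢ WB t q) z := by
    refine le_trans (Finset.sum_le_sum fun i _ => Sup_one z s q i) ?_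
    set w : Wd × Wd → ℝ≥0∞ := fun x => (z : ℝ≥0∞) ^ (x.1.length + x.2.length) with hw
    have h1 : ∀ S : Set (Wd × Wd), gf2 S z = ∑' x : Wd × Wd, S.indicator w x := fun S =>
      tsum_subtype S w
    rw [h1]
    simp only [h1 (SupS t s q _)]
    rw [← Summable.tsum_finsetSum (fun i _ => ENNReal.summable)]
    refine ENNReal.tsum_le_tsum fun x => ?_
    by_cases hx : ∃ i ∈ range (q + 1), x ∈ SupS t s q i
    · obtain ⟨i, hi, hxi⟩ := hx
      rw [Finset.sum_eq_single i]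
      · rw [Set.indicator_of_mem hxi, Set.indicator_of_mem (Sup_sub (by
          have := Finset.mem_range.1 hi
          omega) hxi)]
      · intro j hj hji
        refine Set.indicator_of_notMem ?_ _
        intro hxj
        have h4 := Finset.mem_range.1 hi
        have h5 := Finset.mem_range.1 hj
        have h2 := Sup_disj (by omega) hxi hxj
        have h3 := Sup_disj (by omega) hxj hxi
        omega
      · intro hh
        exact absurd hi hh
    · rw [Finset.sum_eq_zero]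
      · exact zero_le
      · intro i hi
        refine Set.indicator_of_notMem ?_ _
        intro hxi
        exact hx ⟨i, hi, hxi⟩
  calc (z : ℝ≥0∞) * ∑ i ∈ range (q + 1), (be t z i) ^ 2 * gf2 (CS t s (q - i)) z
      ≤ (z : ℝ≥0∞) * gf2 (CB t (q + s) ×ˢ WB t q) z := by gcongr
    _ = be t z (q + s) * ((z : ℝ≥0∞) * gf (WB t q) z) := by
        rw [gf2_prod, gf_CB, mul_left_comm]
    _ ≤ be t z (q + s) * be t z (q + 1) := by
        gcongr
        rw [← gf_CB]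
        exact gf_WB_le q z

theorem cs_sum (s D : ℕ) : ∑ q ∈ range D, gf2 (CS t (s + 1) q) (zc t) ≤ (zc t : ℝ≥0∞)⁻¹ := by
  refine Pool.Agent.HHP.anRen (fun n => be t (zc t) (n + 1)) (fun q => gf2 (CS t (s + 1) q) (zc t))
    (fun n => (be t (zc t) n) ^ 2) (zc t : ℝ≥0∞)⁻¹ (fun n => be_le_one _) ?_ (fun i => rfl) s
    (fun d => ?_) D
  · simp [be_zero]
  · have h := sup_ineq (t := t) (zc t) (s + 1) d
    have hz : (zc t : ℝ≥0∞) ≠ 0 := by
      have := zc_pos t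
      exact_mod_cast this.ne'
    have h1 : ∑ i ∈ range (d + 1), (be t (zc t) i) ^ 2 * gf2 (CS t (s + 1) (d - i)) (zc t) =
        (zc t : ℝ≥0∞)⁻¹ * ((zc t : ℝ≥0∞) *
          ∑ i ∈ range (d + 1), (be t (zc t) i) ^ 2 * gf2 (CS t (s + 1) (d - i)) (zc t)) := by
      rw [← mul_assoc, ENNReal.inv_mul_cancel hz ENNReal.coe_ne_top, one_mul]
    calc ∑ i ∈ range (d + 1), (be t (zc t) i) ^ 2 * gf2 (CS t (s + 1) (d - i)) (zc t)
        = _ := h1
      _ ≤ (zc t : ℝ≥0∞)⁻¹ * (be t (zc t) (d + (s + 1)) * be t (zc t) (d + 1)) := by gcongr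
      _ = _ := by
        rw [← add_assoc]

end Pool.Agent.ZHW
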