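import Pool.Agent.ZHW.Basic

/-!
Module ArcRec: the first block of an ordered pair.

PAPER PROOF. Let `p = (P, Q) ∈ AP t x (r + 1)`. The level `r + 1` is a common renewal level (`Rn_self`). Let `i + 1 <= r + 1` be the
smallest one `>= 1`: `P = u ++ v`, `Q = u' ++ v'`, `u, u' ∈ CB t (i + 1)`, `Ri v`, `Ri v'`. Then `v, v' ∈ CB t (r - i)` (`CB_split`),
`(u, u') ∈ IP t i` (a common renewal level `j <= i` of `(u, u')` is one of `(P, Q)`: `u = a ++ b`, `a ∈ CB t j`, `Ri b`, then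
`Ri (b ++ v)` since prefixes of `b ++ v` are prefixes of `b`, or `b ++ c` with `b.sum.1 = (i + 1) - j >= 0`, `c` a prefix of `v`),
`0 < x + δ` for `δ = u.sum.2 - u'.sum.2` (`Pos`), and `(v, v') ∈ AP t (x + δ) (r - i)`: a common renewal `v = a ++ b`, `v' = a' ++ b'`
at level `j >= 1` gives one of `(P, Q)` at level `i + 1 + j` with `u ++ a`, `u' ++ a'` (`CB_append`), so
`0 < x + δ + (a.sum.2 - a'.sum.2)`. The map `p ↦ (i, (u, u'), (v, v'))` is injective and adds the lengths, so the mass of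
`AP t x (r + 1)` is at most the sum over `i`, `δ` of the masses of the pairs of pairs (`ENNReal` sums over sigma types).
-/

namespace Pool.Agent.ZHW

open Pool.Agent.SHP Finset
open scoped ENNReal NNReal

variable {t : Bool}

private theorem ArcRec_ind (A : Set (Wd × Wd)) (z : ℝ≥0) :
    gf2 A z = ∑' p : Wd × Wd, A.indicator (fun q => (z : ℝ≥0∞) ^ (q.1.length + q.2.length)) p :=
  tsum_subtype A (fun q : Wd × Wd => (z : ℝ≥0∞) ^ (q.1.length + q.2.length))

theorem AP_zero (x : ℤ) (z : ℝ≥0) : gf2 (AP t x 0) z ≤ 1 := by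
  have hsub : AP t x 0 ⊆ {(([] : Wd), ([] : Wd))} := by
    rintro ⟨P, Q⟩ ⟨h1, h2, -⟩
    simp only [CB_zero, Set.mem_singleton_iff] at h1 h2
    subst h1
    subst h2
    exact Set.mem_singleton _
  refine le_trans (gf2_mono_set hsub z) (le_of_eq ?_)
  unfold gf2
  rw [tsum_singleton (([] : Wd), ([] : Wd))
    (fun l : Wd × Wd => (z : ℝ≥0∞) ^ (l.1.length + l.2.length))]
  simp

/-- The first block. -/
private theorem ArcRec_block {x : ℤ} {r : ℕ} {p : Wd × Wd} (hp : p ∈ AP t x (r + 1)) :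
    ∃ i : ℕ, ∃ u v u' v' : Wd, i < r + 1 ∧ p = (u ++ v, u' ++ v') ∧ (u, u') ∈ IP t i ∧
      0 < x + (u.sum.2 - u'.sum.2) ∧ (v, v') ∈ AP t (x + (u.sum.2 - u'.sum.2)) (r - i) := by
  classical
  obtain ⟨P, Q⟩ := p
  obtain ⟨hP, hQ, hpos⟩ := hp
  have hex : ∃ j : ℕ, 1 ≤ j ∧ Rn t j P ∧ Rn t j Q :=
    ⟨r + 1, by omega, Rn_self hP, Rn_self hQ⟩
  have hle : Nat.find hex ≤ r + 1 := Nat.find_min' hex ⟨by omega, Rn_self hP, Rn_self hQ⟩
  obtain ⟨h1, hRP, hRQ⟩ := Nat.find_spec hex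
  have hmin : ∀ m : ℕ, m < Nat.find hex → ¬ (1 ≤ m ∧ Rn t m P ∧ Rn t m Q) :=
    fun m hm => Nat.find_min hex hm
  generalize Nat.find hex = j at hle h1 hRP hRQ hmin
  obtain ⟨i, rfl⟩ : ∃ i, j = i + 1 := ⟨j - 1, by omega⟩
  obtain ⟨u, v, hPe, hu, hv⟩ := hRP
  obtain ⟨u', v', hQe, hu', hv'⟩ := hRQ
  obtain ⟨-, hvC⟩ := CB_split hP hPe hu hv
  obtain ⟨-, hvC'⟩ := CB_split hQ hQe hu' hv'
  have hri : r + 1 - (i + 1) = r - i := by omega
  rw [hri] at hvC hvC'
  have key : ∀ (k : ℕ) (w w₂ L : Wd), 1 ≤ k → k ≤ i → L = w ++ w₂ → w ∈ CB t (i + 1) → Ri w₂ →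
      Rn t k w → Rn t k L := by
    rintro k w w₂ L hk hki hL hw hw₂ ⟨a, b, hab, ha, hb⟩
    obtain ⟨-, hbC⟩ := CB_split hw hab ha hb
    exact ⟨a, b ++ w₂, by rw [hL, hab, List.append_assoc], ha, Ri_append hbC hw₂⟩
  refine ⟨i, u, v, u', v', by omega, ?_, ⟨hu, hu', ?_⟩, ?_, ⟨hvC, hvC', ?_⟩⟩
  · rw [hPe, hQe]
  · intro k hk hki hboth
    exact hmin k (by omega) ⟨hk, key k u v P hk hki hPe hu hv hboth.1,
      key k u' v' Q hk hki hQe hu' hv' hboth.2⟩
  · exact hpos (i + 1) (by omega) u v u' v' hPe hQe hu hu' hv hv'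
  · intro k hk a b a' b' hva hva' ha ha' hb hb'
    have h := hpos (i + 1 + k) (by omega) (u ++ a) b (u' ++ a') b'
      (by
        show P = (u ++ a) ++ b
        have hva1 : v = a ++ b := hva
        rw [hPe, hva1, List.append_assoc])
      (by
        show Q = (u' ++ a') ++ b'
        have hva1 : v' = a' ++ b' := hva'
        rw [hQe, hva1, List.append_assoc])
      (CB_append hu ha) (CB_append hu' ha') hb hb'
    rw [List.sum_append, List.sum_append, Prod.snd_add, Prod.snd_add] at h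
    have he : x + (u.sum.2 + a.sum.2 - (u'.sum.2 + a'.sum.2)) =
        x + (u.sum.2 - u'.sum.2) + (a.sum.2 - a'.sum.2) := by ring
    rw [he] at h
    exact h

theorem arc_rec (x : ℤ) (r : ℕ) (z : ℝ≥0) :
    gf2 (AP t x (r + 1)) z ≤ ∑ i ∈ range (r + 1), ∑' δ : ℤ,
      if 0 < x + δ then gf2 (IPd t i δ) z * gf2 (AP t (x + δ) (r - i)) z else 0 := by
  classical
  have hch : ∀ p : AP t x (r + 1), ∃ y : ℕ × ℤ × (Wd × Wd) × (Wd × Wd),
      y.1 < r + 1 ∧ 0 < x + y.2.1 ∧ y.2.2.1 ∈ IPd t y.1 y.2.1 ∧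
      y.2.2.2 ∈ AP t (x + y.2.1) (r - y.1) ∧
      (p : Wd × Wd) = (y.2.2.1.1 ++ y.2.2.2.1, y.2.2.1.2 ++ y.2.2.2.2) := by
    rintro ⟨p, hp⟩
    obtain ⟨i, u, v, u', v', hi, hpe, hI, hx, hA⟩ := ArcRec_block hp
    exact ⟨(i, u.sum.2 - u'.sum.2, (u, u'), (v, v')), hi, hx, ⟨hI, rfl⟩, hA, hpe⟩
  choose f hf1 hf2 hf3 hf4 hf5 using hch
  have hinj : Function.Injective f := by
    intro p q hpq
    apply Subtype.ext
    rw [hf5 p, hf5 q, hpq]
  let W : Wd × Wd → ℝ≥0∞ := fun q => (z : ℝ≥0∞) ^ (q.1.length + q.2.length)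
  let F : ℕ × ℤ × (Wd × Wd) × (Wd × Wd) → ℝ≥0∞ := fun y =>
    if y.1 < r + 1 then
      (if 0 < x + y.2.1 then
        (IPd t y.1 y.2.1).indicator W y.2.2.1 * (AP t (x + y.2.1) (r - y.1)).indicator W y.2.2.2
      else 0)
    else 0
  have h1 : gf2 (AP t x (r + 1)) z = ∑' p : AP t x (r + 1), F (f p) := by
    unfold gf2
    refine tsum_congr fun p => ?_
    show _ = (if (f p).1 < r + 1 then _ else 0)
    rw [if_pos (hf1 p), if_pos (hf2 p), Set.indicator_of_mem (hf3 p),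
      Set.indicator_of_mem (hf4 p)]
    show (z : ℝ≥0∞) ^ ((p : Wd × Wd).1.length + (p : Wd × Wd).2.length) =
      (z : ℝ≥0∞) ^ ((f p).2.2.1.1.length + (f p).2.2.1.2.length) *
      (z : ℝ≥0∞) ^ ((f p).2.2.2.1.length + (f p).2.2.2.2.length)
    have ha : (p : Wd × Wd).1.length = (f p).2.2.1.1.length + (f p).2.2.2.1.length := by
      rw [hf5 p]
      exact List.length_append
    have hb : (p : Wd × Wd).2.length = (f p).2.2.1.2.length + (f p).2.2.2.2.length := by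
      rw [hf5 p]
      exact List.length_append
    rw [ha, hb, ← pow_add]
    congr 1
    omega
  rw [h1]
  refine le_trans (ENNReal.tsum_comp_le_tsum_of_injective hinj F) ?_
  rw [ENNReal.tsum_prod']
  have h2 : ∀ i : ℕ, ∑' w : ℤ × (Wd × Wd) × (Wd × Wd), F (i, w) =
      if i < r + 1 then (∑' δ : ℤ,
        if 0 < x + δ then gf2 (IPd t i δ) z * gf2 (AP t (x + δ) (r - i)) z else 0) else 0 := by
    intro i
    by_cases hi : i < r + 1
    · rw [if_pos hi, ENNReal.tsum_prod']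
      refine tsum_congr fun δ => ?_
      by_cases hδ : 0 < x + δ
      · rw [if_pos hδ, ENNReal.tsum_prod', ArcRec_ind (IPd t i δ) z,
          ArcRec_ind (AP t (x + δ) (r - i)) z, ← ENNReal.tsum_mul_right]
        refine tsum_congr fun a => ?_
        rw [← ENNReal.tsum_mul_left]
        refine tsum_congr fun b => ?_
        show (if i < r + 1 then (if 0 < x + δ then _ else 0) else 0) = _
        rw [if_pos hi, if_pos hδ]
      · rw [if_neg hδ]
        refine ENNReal.tsum_eq_zero.2 fun c => ?_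
        show (if i < r + 1 then (if 0 < x + δ then _ else 0) else 0) = _
        rw [if_pos hi, if_neg hδ]
    · rw [if_neg hi]
      refine ENNReal.tsum_eq_zero.2 fun c => ?_
      show (if i < r + 1 then _ else 0) = _
      rw [if_neg hi]
  have h3 : ∑' i : ℕ, ∑' w : ℤ × (Wd × Wd) × (Wd × Wd), F (i, w) =
      ∑' i : ℕ, if i < r + 1 then (∑' δ : ℤ,
        if 0 < x + δ then gf2 (IPd t i δ) z * gf2 (AP t (x + δ) (r - i)) z else 0) else 0 :=
    tsum_congr h2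
  rw [h3, tsum_eq_sum (s := range (r + 1))]
  · refine le_of_eq (Finset.sum_congr rfl fun i hi => ?_)
    rw [if_pos (mem_range.1 hi)]
  · intro i hi
    rw [if_neg (fun h => hi (mem_range.2 h))]

end Pool.Agent.ZHW
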