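import Pool.Agent.ZHW.Ren

/-!
Module Nu: the step measure of the order walk is symmetric and has mass at most one.

PAPER PROOF. `nu_symm`: exchange the two walks (`IP` is symmetric, `IPd t i (-δ)` is the image of `IPd t i δ` under `Prod.swap`,
same total length). `nu_sum`: exchange the sums (`ENNReal.tsum_comm`), `∑' δ, gf2 (IPd t i δ) z = gf2 (IP t i) z` (partition
by the value of `δ`), and `∑' i, gf2 (IP t i) (zc t) <= 1` by `irr_sum` (`ENNReal.tsum_eq_iSup_nat`).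
-/

namespace Pool.Agent.ZHW

open Pool.Agent.SHP
open scoped ENNReal NNReal

variable {t : Bool}

private theorem Nu_swap {i : ℕ} {δ : ℤ} {p : Wd × Wd} (hp : p ∈ IPd t i δ) :
    p.swap ∈ IPd t i (-δ) := by
  obtain ⟨⟨h1, h2, h3⟩, h4⟩ := hp
  refine ⟨⟨h2, h1, fun j hj1 hj2 hj => h3 j hj1 hj2 ⟨hj.2, hj.1⟩⟩, ?_⟩
  simp only [Prod.fst_swap, Prod.snd_swap]
  omega

private theorem Nu_le (z : ℝ≥0) (i : ℕ) (δ : ℤ) : gf2 (IPd t i δ) z ≤ gf2 (IPd t i (-δ)) z := by
  have h := gf2_le_of_inj (A := IPd t i δ) (B := IPd t i (-δ)) z 0 Prod.swap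
    (fun a ha => Nu_swap ha) (Prod.swap_injective.injOn)
    (fun a _ => by simp only [Prod.fst_swap, Prod.snd_swap]; omega)
  rwa [pow_zero, one_mul] at h

theorem nu_symm (z : ℝ≥0) (δ : ℤ) : nu t z (-δ) = nu t z δ := by
  unfold nu
  refine tsum_congr fun i => le_antisymm ?_ (Nu_le z i δ)
  have := Nu_le (t := t) z i (-δ)
  rwa [neg_neg] at this

private theorem Nu_part (z : ℝ≥0) (i : ℕ) :
    ∑' δ : ℤ, gf2 (IPd t i δ) z = gf2 (IP t i) z := by
  unfold gf2
  have h1 : ∀ δ : ℤ, (∑' l : IPd t i δ, (z : ℝ≥0∞) ^ ((l : Wd × Wd).1.length +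
      (l : Wd × Wd).2.length)) = ∑' l : IP t i, if (l : Wd × Wd).1.sum.2 - (l : Wd × Wd).2.sum.2 = δ
        then (z : ℝ≥0∞) ^ ((l : Wd × Wd).1.length + (l : Wd × Wd).2.length) else 0 := by
    intro δ
    rw [tsum_subtype (IPd t i δ) (fun l : Wd × Wd => (z : ℝ≥0∞) ^ (l.1.length + l.2.length)),
      tsum_subtype (IP t i) (fun l : Wd × Wd => if l.1.sum.2 - l.2.sum.2 = δ then
        (z : ℝ≥0∞) ^ (l.1.length + l.2.length) else 0)]
    refine tsum_congr fun l => ?_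
    by_cases h : l ∈ IP t i
    · by_cases h2 : l.1.sum.2 - l.2.sum.2 = δ
      · rw [Set.indicator_of_mem (show l ∈ IPd t i δ from ⟨h, h2⟩), Set.indicator_of_mem h,
          if_pos h2]
      · rw [Set.indicator_of_notMem (fun h3 : l ∈ IPd t i δ => h2 h3.2), Set.indicator_of_mem h,
          if_neg h2]
    · rw [Set.indicator_of_notMem (fun h3 : l ∈ IPd t i δ => h h3.1), Set.indicator_of_notMem h]
  rw [tsum_congr h1, ENNReal.tsum_comm]
  refine tsum_congr fun l => ?_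
  exact (tsum_eq_single _ (fun b hb => if_neg (Ne.symm hb))).trans (if_pos rfl)

theorem nu_sum : ∑' δ : ℤ, nu t (zc t) δ ≤ 1 := by
  unfold nu
  rw [ENNReal.tsum_comm, tsum_congr (fun i => Nu_part (t := t) (zc t) i),
    ENNReal.tsum_eq_iSup_nat]
  exact iSup_le fun n => irr_sum n

end Pool.Agent.ZHW
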