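import Pool.Agent.ZHW.Flip
import Pool.Agent.ZHW.Basic
import Pool.Agent.ZHW.Beta
import Pool.Agent.ZHW.AnIrr

/-!
Module Ren: the irreducible pairs of cobridges have total mass at most one.

PAPER PROOF. `ren_ineq`: `(CB t (r + 1)) × (CB t (r + 1))` has mass `(be t z (r + 1)) ^ 2` (`gf2_prod`, `gf_CB`). For `i <= r`
concatenate `(A, B) ∈ IP t i` with `(P, Q) ∈ CB t (r - i) × CB t (r - i)`: `(A ++ P, B ++ Q)` is a pair of cobridges of width
`(i + 1) + (r - i) = r + 1`. The smallest common renewal level `>= 1` of `(A ++ P, B ++ Q)` is `i + 1`: it is one (`A`, `B`),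
and a common renewal level `1 <= j <= i` of `(A ++ P, B ++ Q)` would be one of `(A, B)` (if `A ++ P = u ++ v`, `u ∈ CB t j`,
`Ri v`, then `u` is a prefix of `A`, `A = u ++ w`, because otherwise `u = A ++ w` would have `j = (i + 1) + w.sum.1` with
`w.sum.1 >= 0`; `Ri w` as prefixes of `w` are prefixes of `v`). So `i` is determined by the concatenated pair, then `A`, `P`,
`B`, `Q` (`Rn_unique`), and the sum over `i` of the masses of the disjoint images is at most the mass of the whole.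
(Formally: the sum over `i ∈ range (r + 1)` of `gf2 (IP t i) z * gf2 (CB t (r - i) ×ˢ CB t (r - i)) z` is the mass of a sigma
type which injects into `CB t (r + 1) ×ˢ CB t (r + 1)`.) `irr_sum`: `anIrr` with `I i = gf2 (IP t i) (zc t)`,
`u i = (be t (zc t) i) ^ 2`.
-/

namespace Pool.Agent.ZHW

open Pool.Agent.SHP Finset
open scoped ENNReal NNReal

variable {t : Bool}

private theorem Ren_pref {i j : ℕ} {A P A' P' : Wd} (hij : i < j) (hA : A ∈ CB t i) (hP : Ri P)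
    (hA' : A' ∈ CB t j) (hP' : Ri P') (h : A ++ P = A' ++ P') : Rn t i A' := by
  rcases List.append_eq_append_iff.1 h with ⟨w, hw, hw'⟩ | ⟨w, hw, hw'⟩
  · refine ⟨A, w, hw, hA, ?_⟩
    intro a b hab
    refine hP a (b ++ P') ?_
    rw [hw', hab]
    simp
  · exfalso
    have h1 := hP' w P hw'
    have h2 := hA.2.2.2
    rw [hw, fst_sum_append, hA'.2.2.2] at h2
    omega

/-- The concatenations of an irreducible pair of width `i + 1` and a pair of cobridges. -/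
private def RenS (t : Bool) (r i : ℕ) : Set (Wd × Wd) :=
  {q | ∃ a ∈ IP t i, ∃ b ∈ CB t (r - i) ×ˢ CB t (r - i), q = (a.1 ++ b.1, a.2 ++ b.2)}

private theorem Ren_one (z : ℝ≥0) (r i : ℕ) :
    gf2 (IP t i) z * (be t z (r - i)) ^ 2 ≤ gf2 (RenS t r i) z := by
  have h0 : (be t z (r - i)) ^ 2 = gf2 (CB t (r - i) ×ˢ CB t (r - i)) z := by
    rw [gf2_prod, gf_CB, sq]
  rw [h0]
  unfold gf2
  rw [← ENNReal.tsum_mul_right]
  have h1 : ∀ a : IP t i, (z : ℝ≥0∞) ^ ((a : Wd × Wd).1.length + (a : Wd × Wd).2.length) *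
      ∑' b : (CB t (r - i) ×ˢ CB t (r - i) : Set (Wd × Wd)),
        (z : ℝ≥0∞) ^ ((b : Wd × Wd).1.length + (b : Wd × Wd).2.length)
      = ∑' b : (CB t (r - i) ×ˢ CB t (r - i) : Set (Wd × Wd)),
        (z : ℝ≥0∞) ^ ((a : Wd × Wd).1.length + (a : Wd × Wd).2.length) *
        (z : ℝ≥0∞) ^ ((b : Wd × Wd).1.length + (b : Wd × Wd).2.length) := fun a => by
    rw [ENNReal.tsum_mul_left]
  rw [tsum_congr h1, ← ENNReal.tsum_prod]
  let F : IP t i × (CB t (r - i) ×ˢ CB t (r - i) : Set (Wd × Wd)) → RenS t r i := fun p =>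
    ⟨((p.1 : Wd × Wd).1 ++ (p.2 : Wd × Wd).1, (p.1 : Wd × Wd).2 ++ (p.2 : Wd × Wd).2),
      ⟨p.1, p.1.2, p.2, p.2.2, rfl⟩⟩
  have hF : Function.Injective F := by
    rintro ⟨⟨⟨A, B⟩, hAB⟩, ⟨⟨P, Q⟩, hPQ⟩⟩ ⟨⟨⟨A', B'⟩, hAB'⟩, ⟨⟨P', Q'⟩, hPQ'⟩⟩ h
    have h2 : (A ++ P, B ++ Q) = (A' ++ P', B' ++ Q') := congrArg Subtype.val h
    have h3 := congrArg Prod.fst h2
    have h4 := congrArg Prod.snd h2
    obtain ⟨e1, e2⟩ := Rn_unique h3 hAB.1 hAB'.1 hPQ.1.2.1 hPQ'.1.2.1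
    obtain ⟨e3, e4⟩ := Rn_unique h4 hAB.2.1 hAB'.2.1 hPQ.2.2.1 hPQ'.2.2.1
    subst e1 e2 e3 e4
    rfl
  refine le_trans (le_of_eq ?_) (ENNReal.tsum_comp_le_tsum_of_injective hF
    (fun q : RenS t r i => (z : ℝ≥0∞) ^ ((q : Wd × Wd).1.length + (q : Wd × Wd).2.length)))
  refine tsum_congr fun p => ?_
  rw [← pow_add]
  congr 1
  simp only [F, List.length_append]
  ring

private theorem Ren_sub {r i : ℕ} (hi : i ≤ r) : RenS t r i ⊆ CB t (r + 1) ×ˢ CB t (r + 1) := by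
  rintro q ⟨a, ha, b, hb, rfl⟩
  have h1 : i + 1 + (r - i) = r + 1 := by omega
  refine ⟨?_, ?_⟩
  · have := CB_append ha.1 hb.1
    rwa [h1] at this
  · have := CB_append ha.2.1 hb.2
    rwa [h1] at this

private theorem Ren_disj {r i j : ℕ} {q : Wd × Wd} (hi : q ∈ RenS t r i) (hj : q ∈ RenS t r j) :
    ¬ i < j := by
  intro hij
  obtain ⟨a, ha, b, hb, rfl⟩ := hi
  obtain ⟨a', ha', b', hb', h⟩ := hj
  have h3 := congrArg Prod.fst h
  have h4 := congrArg Prod.snd h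
  refine ha'.2.2 (i + 1) (by omega) (by omega) ⟨?_, ?_⟩
  · exact Ren_pref (by omega) ha.1 hb.1.2.1 ha'.1 hb'.1.2.1 h3
  · exact Ren_pref (by omega) ha.2.1 hb.2.2.1 ha'.2.1 hb'.2.2.1 h4

theorem ren_ineq (z : ℝ≥0) (r : ℕ) :
    ∑ i ∈ range (r + 1), gf2 (IP t i) z * (be t z (r - i)) ^ 2 ≤ (be t z (r + 1)) ^ 2 := by
  classical
  refine le_trans (Finset.sum_le_sum fun i _ => Ren_one z r i) ?_
  have h0 : (be t z (r + 1)) ^ 2 = gf2 (CB t (r + 1) ×ˢ CB t (r + 1)) z := by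
    rw [gf2_prod, gf_CB, sq]
  rw [h0]
  set w : Wd × Wd → ℝ≥0∞ := fun q => (z : ℝ≥0∞) ^ (q.1.length + q.2.length) with hw
  have h1 : ∀ S : Set (Wd × Wd), gf2 S z = ∑' q : Wd × Wd, S.indicator w q := fun S =>
    tsum_subtype S w
  rw [h1]
  simp only [h1 (RenS t r _)]
  rw [← Summable.tsum_finsetSum (fun i _ => ENNReal.summable)]
  refine ENNReal.tsum_le_tsum fun q => ?_
  by_cases hq : ∃ i ∈ range (r + 1), q ∈ RenS t r i
  · obtain ⟨i, hi, hqi⟩ := hq
    rw [Finset.sum_eq_single i]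
    · rw [Set.indicator_of_mem hqi, Set.indicator_of_mem (Ren_sub (by
        have := Finset.mem_range.1 hi
        omega) hqi)]
    · intro j _ hji
      refine Set.indicator_of_notMem ?_ _
      intro hqj
      have h2 := Ren_disj hqi hqj
      have h3 := Ren_disj hqj hqi
      omega
    · intro hh
      exact absurd hi hh
  · rw [Finset.sum_eq_zero]
    · exact zero_le
    · intro i hi
      refine Set.indicator_of_notMem ?_ _
      intro hqi
      exact hq ⟨i, hi, hqi⟩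

theorem irr_sum (D : ℕ) : ∑ i ∈ range D, gf2 (IP t i) (zc t) ≤ 1 := by
  refine anIrr (fun i => gf2 (IP t i) (zc t)) (fun i => (be t (zc t) i) ^ 2) ?_ ?_ ?_ D
  · simp [be_zero]
  · intro n
    exact pow_le_one₀ zero_le (be_le_one n)
  · intro r
    exact ren_ineq (zc t) r

end Pool.Agent.ZHW
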