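import Pool.Agent.ZHW.Order

/-!
Module ArcSign: the two legs of an arc keep their order at the common renewal levels.

PAPER PROOF. `P.sum.1 = Q.sum.1 = r` and `P <> []`, so `P.sum.2 <> Q.sum.2` by `Disj`. If `Q.sum.2 < P.sum.2`: let
`P = u ++ v`, `Q = u' ++ v'` be a common renewal at level `i >= 1`; `v, v' ∈ CB t (r - i)` by `CB_split`, and `order` gives
`u'.sum.2 < u.sum.2`. Otherwise exchange `P` and `Q` (`Disj` is symmetric).
-/

namespace Pool.Agent.ZHW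

open Pool.Agent.SHP

variable {t : Bool}

private theorem ArcSign_symm {P Q : Wd} (h : Disj P Q) : Disj Q P := by
  intro p q r s hp hq hs
  have := h q p s r hq hp hs.symm
  exact ⟨this.2, this.1⟩

private theorem ArcSign_pos {r : ℕ} {P Q : Wd} (hP : P ∈ CB t r) (hQ : Q ∈ CB t r) (hd : Disj P Q)
    (h : Q.sum.2 < P.sum.2) : Pos t 0 (P, Q) := by
  intro i hi u v u' v' hPe hQe hu hu' hv hv'
  dsimp only at hPe hQe
  obtain ⟨_, hvc⟩ := CB_split hP hPe hu hv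
  obtain ⟨_, hvc'⟩ := CB_split hQ hQe hu' hv'
  subst hPe hQe
  have := (order hi hu hu' hvc hvc' hd).2 h
  omega

theorem arc_sign {r : ℕ} {P Q : Wd} (hr : 1 ≤ r) (hP : P ∈ CB t r) (hQ : Q ∈ CB t r) (hd : Disj P Q) :
    Pos t 0 (P, Q) ∨ Pos t 0 (Q, P) := by
  have hne : Q.sum.2 ≠ P.sum.2 := by
    intro h
    have hs : P.sum = Q.sum := Prod.ext (by rw [hP.2.2.2, hQ.2.2.2]) h.symm
    have h1 := (hd P Q [] [] (by simp) (by simp) hs).1
    have h2 := hP.2.2.2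
    rw [h1] at h2
    simp at h2
    omega
  rcases lt_or_gt_of_ne hne with h | h
  · exact Or.inl (ArcSign_pos hP hQ hd h)
  · exact Or.inr (ArcSign_pos hQ hP (ArcSign_symm hd) h)

/-- The mass of the arcs of given width (two signs, symmetry under exchange). -/
theorem AD_le {r : ℕ} (hr : 1 ≤ r) (z : NNReal) : gf2 (AD t r) z ≤ 2 * gf2 (AP t 0 r) z := by
  have h1 : AD t r ⊆ AP t 0 r ∪ {p : Wd × Wd | (p.2, p.1) ∈ AP t 0 r} := by
    rintro ⟨P, Q⟩ ⟨hP, hQ, hd⟩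
    rcases arc_sign hr hP hQ hd with h | h
    · exact Or.inl ⟨hP, hQ, h⟩
    · exact Or.inr ⟨hQ, hP, h⟩
  have h2 : gf2 {p : Wd × Wd | (p.2, p.1) ∈ AP t 0 r} z ≤ gf2 (AP t 0 r) z := by
    have := gf2_le_of_inj (A := {p : Wd × Wd | (p.2, p.1) ∈ AP t 0 r}) (B := AP t 0 r) z 0
      (fun p => (p.2, p.1)) (fun a ha => ha)
      (fun a _ b _ h => Prod.ext (congrArg Prod.snd h) (congrArg Prod.fst h))
      (fun a _ => by simp [add_comm])
    simpa using this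
  calc gf2 (AD t r) z ≤ gf2 (AP t 0 r ∪ {p : Wd × Wd | (p.2, p.1) ∈ AP t 0 r}) z := gf2_mono_set h1 z
    _ ≤ gf2 (AP t 0 r) z + gf2 {p : Wd × Wd | (p.2, p.1) ∈ AP t 0 r} z := gf2_union_le _ _ z
    _ ≤ gf2 (AP t 0 r) z + gf2 (AP t 0 r) z := by gcongr
    _ = 2 * gf2 (AP t 0 r) z := (two_mul _).symm

end Pool.Agent.ZHW
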