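import Pool.Agent.ZHW.ArcRec

/-!
Module ArcSum: the ordered pairs of width at most `N` against the persistence masses of the order walk.

PAPER PROOF. Induction on `N` for all `x`. With `arc_rec`, exchanging the sums (`i <= r < N`, `r = i + k`, `k < N - i`),
`∑ r < N, a_(r+1)(x) <= ∑ i < N, ∑' δ, [0 < x + δ] I_i(δ) * ∑ k < N - i, a_k(x + δ)`, and
`∑ k < N - i, a_k(y) <= 1 + ∑ k < N - i - 1, a_(k+1)(y) <= 1 + ∑ K < N - i - 1, g_(K+1)(y) <= ∑ K < N, g_K(y)` by `AP_zero`, the
induction hypothesis for `N - i - 1 < N` (use strong induction) and `g_0 = 1`. Finally `∑ i < N, I_i(δ) <= nu t z δ`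
(`ENNReal.sum_le_tsum`) and `∑' δ, [0 < x + δ] nu δ * g_K(x + δ) = g_(K+1)(x)`.
-/

namespace Pool.Agent.ZHW

open Pool.Agent.SHP Finset
open scoped ENNReal NNReal

variable {t : Bool}

private theorem arcSum_inner (z : ℝ≥0) (N : ℕ) (y : ℤ)
    (ih : ∀ m < N, ∑ r ∈ range m, gf2 (AP t y (r + 1)) z ≤ ∑ K ∈ range m, gx (nu t z) (K + 1) y)
    (n : ℕ) (hn : n ≤ N) :
    ∑ k ∈ range n, gf2 (AP t y k) z ≤ ∑ K ∈ range N, gx (nu t z) K y := by
  cases n with
  | zero => simp
  | succ m =>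
    rw [Finset.sum_range_succ']
    have h1 := ih m (by omega)
    have h2 : gf2 (AP t y 0) z ≤ gx (nu t z) 0 y := AP_zero y z
    refine (add_le_add h1 h2).trans ?_
    rw [← Finset.sum_range_succ' (fun K => gx (nu t z) K y)]
    exact Finset.sum_le_sum_of_subset (Finset.range_mono hn)

theorem arc_sum (z : ℝ≥0) (N : ℕ) (x : ℤ) :
    ∑ r ∈ range N, gf2 (AP t x (r + 1)) z ≤ ∑ K ∈ range N, gx (nu t z) (K + 1) x := by
  induction N using Nat.strong_induction_on generalizing x with
  | _ N ih =>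
    refine (Finset.sum_le_sum (fun r _ => arc_rec (t := t) x r z)).trans ?_
    have e1 : ∑ K ∈ range N, gx (nu t z) (K + 1) x =
        ∑' δ : ℤ, ∑ K ∈ range N, if 0 < x + δ then nu t z δ * gx (nu t z) K (x + δ) else 0 := by
      rw [Summable.tsum_finsetSum (fun _ _ => ENNReal.summable)]
      rfl
    have e2 : ∑ r ∈ range N, ∑ i ∈ range (r + 1), ∑' δ : ℤ,
        (if 0 < x + δ then gf2 (IPd t i δ) z * gf2 (AP t (x + δ) (r - i)) z else 0) =
        ∑' δ : ℤ, ∑ r ∈ range N, ∑ i ∈ range (r + 1),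
          if 0 < x + δ then gf2 (IPd t i δ) z * gf2 (AP t (x + δ) (r - i)) z else 0 := by
      rw [Summable.tsum_finsetSum (fun _ _ => ENNReal.summable)]
      refine Finset.sum_congr rfl (fun r _ => ?_)
      rw [Summable.tsum_finsetSum (fun _ _ => ENNReal.summable)]
    rw [e1, e2]
    refine ENNReal.tsum_le_tsum (fun δ => ?_)
    by_cases h : 0 < x + δ
    · simp only [h, if_true]
      rw [Finset.sum_range_diag_flip N (fun i k => gf2 (IPd t i δ) z * gf2 (AP t (x + δ) k) z)]
      have h1 : ∀ i ∈ range N, ∑ k ∈ range (N - i), gf2 (IPd t i δ) z * gf2 (AP t (x + δ) k) z ≤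
          gf2 (IPd t i δ) z * ∑ K ∈ range N, gx (nu t z) K (x + δ) := by
        intro i _
        rw [← Finset.mul_sum]
        exact mul_le_mul_right (arcSum_inner z N (x + δ) (fun m hm => ih m hm (x + δ)) (N - i) (by omega)) _
      refine (Finset.sum_le_sum h1).trans ?_
      rw [← Finset.sum_mul, ← Finset.mul_sum]
      exact mul_le_mul_left (ENNReal.sum_le_tsum (range N)) _
    · simp only [h, if_false, Finset.sum_const_zero, le_refl]

end Pool.Agent.ZHW
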