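import Pool.Agent.SHP.HW
import Pool.Agent.SHP.Cut

/-!
Project ZHW (helper65, note 2892). Self-avoiding walks of the square (`t = false`) and of the triangular
(`t = true`) lattice: `a_n <= mu ^ n * exp (C * n ^ (3 / 7))` for every `n`.

Conventions of the library `Pool/Agent/SHP`: a walk is the list of its steps (elements of `steps t`), columns are
the lines `x = const`, `saws t` are the self-avoiding words, `halfs t` the strict half-plane walks (all later vertices
strictly to the right of the start), `BT t d` the bridges of width `d` (strict at the start, weak at the end),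
`HT t m` the strict half-plane walks of width at most `m`, `gf A z` the mass of a set of words (weight `z` per step),
`gf2` the mass of a set of pairs, `refl t` the reflection of the steps in the column direction, `rev` the reversed
walk, `Disj u v`: the walks `u`, `v` (same start) have only their start in common.
-/

namespace Pool.Agent.ZHW

open Pool.Agent.SHP
open scoped ENNReal NNReal

/-- Words. -/
abbrev Wd := List (ℤ × ℤ)

/-- The walk stays weakly to the right of its start. -/
def Ri (l : Wd) : Prop := ∀ u v : Wd, l = u ++ v → 0 ≤ u.sum.1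

/-- Cobridges of width `d`: weakly to the right of the start, all vertices strictly to the left of the last one. -/
def CB (t : Bool) (d : ℕ) : Set Wd :=
  {l | l ∈ saws t ∧ Ri l ∧ (∀ u v : Wd, l = u ++ v → v ≠ [] → 0 < v.sum.1) ∧ l.sum.1 = (d : ℤ)}

/-- Weak bridges of width `k`: all vertices weakly between the columns of the first and of the last vertex. -/
def WB (t : Bool) (k : ℕ) : Set Wd :=
  {l | l ∈ saws t ∧ Ri l ∧ (∀ u v : Wd, l = u ++ v → 0 ≤ v.sum.1) ∧ l.sum.1 = (k : ℤ)}

/-- The reversed and reflected walk: it exchanges bridges and cobridges. -/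
def fl (t : Bool) (l : Wd) : Wd := (rev l).map (refl t)

/-- Renewal level `i`: the walk crosses the gap between the columns `i - 1` and `i` exactly once (for `i >= 1`). -/
def Rn (t : Bool) (i : ℕ) (l : Wd) : Prop := ∃ u v : Wd, l = u ++ v ∧ u ∈ CB t i ∧ Ri v

/-- No common renewal level among `1, ..., n`. -/
def NC (t : Bool) (n : ℕ) (p : Wd × Wd) : Prop := ∀ i : ℕ, 1 ≤ i → i ≤ n → ¬ (Rn t i p.1 ∧ Rn t i p.2)

/-- Pairs (cobridge of width `q + s`, weak bridge of width `q`) without common renewal level among `1, ..., q`. -/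
def CS (t : Bool) (s q : ℕ) : Set (Wd × Wd) := {p | p.1 ∈ CB t (q + s) ∧ p.2 ∈ WB t q ∧ NC t q p}

/-- Irreducible pairs of cobridges of width `i + 1`. -/
def IP (t : Bool) (i : ℕ) : Set (Wd × Wd) := {p | p.1 ∈ CB t (i + 1) ∧ p.2 ∈ CB t (i + 1) ∧ NC t i p}

/-- Irreducible pairs of width `i + 1` with vertical difference `δ` at the end. -/
def IPd (t : Bool) (i : ℕ) (δ : ℤ) : Set (Wd × Wd) := {p | p ∈ IP t i ∧ p.1.sum.2 - p.2.sum.2 = δ}

/-- At all common renewal levels the first walk is higher than the second one, if it starts `x` higher. -/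
def Pos (t : Bool) (x : ℤ) (p : Wd × Wd) : Prop :=
  ∀ i : ℕ, 1 ≤ i → ∀ u v u' v' : Wd, p.1 = u ++ v → p.2 = u' ++ v' → u ∈ CB t i → u' ∈ CB t i → Ri v → Ri v' →
    0 < x + (u.sum.2 - u'.sum.2)

/-- Pairs of cobridges of width `r`, ordered at their common renewal levels. -/
def AP (t : Bool) (x : ℤ) (r : ℕ) : Set (Wd × Wd) := {p | p.1 ∈ CB t r ∧ p.2 ∈ CB t r ∧ Pos t x p}

/-- Pairs of cobridges of width `r` which meet only at the start (arcs, seen from the fold). -/
def AD (t : Bool) (r : ℕ) : Set (Wd × Wd) := {p | p.1 ∈ CB t r ∧ p.2 ∈ CB t r ∧ Disj p.1 p.2}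

/-- Pairs of bridges of widths `d`, `s` which form a fold of a self-avoiding walk. -/
def JP (t : Bool) (d s : ℕ) : Set (Wd × Wd) :=
  {p | p.1 ∈ BT t d ∧ p.2 ∈ BT t s ∧ p.1 ++ p.2.map (refl t) ∈ saws t}

/-- Mass of the bridges of width `d`. -/
noncomputable def be (t : Bool) (z : ℝ≥0) (d : ℕ) : ℝ≥0∞ := gf (BT t d) z

/-- The step distribution of the vertical difference between common renewal levels. -/
noncomputable def nu (t : Bool) (z : ℝ≥0) (δ : ℤ) : ℝ≥0∞ := ∑' i : ℕ, gf2 (IPd t i δ) z

/-- Mass of the `K`-step paths of the walk with step measure `ν` which start at `x` and then stay positive. -/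
noncomputable def gx (ν : ℤ → ℝ≥0∞) : ℕ → ℤ → ℝ≥0∞
  | 0, _ => 1
  | K + 1, x => ∑' δ : ℤ, if 0 < x + δ then ν δ * gx ν K (x + δ) else 0

end Pool.Agent.ZHW
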