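import Pool.Agent.ZHW.Main
import Pool.Agent.SHP.Crit

/-!
Module Fin: the bound for the number of self-avoiding walks.

PAPER PROOF. Let `ε = n ^ (-4/7) / 2` (`n >= 1`), `z = (1 - ε) * zc t`. `gf (halfs t) z` is the supremum of the `gf (HT t m) z`
(proof of `hammersley_welsh` in SHP/HW), so `gf (halfs t) z <= exp (C ε ^ (-3/4))` (`main_S`). `saws_le_disj`, `gf2_mono_set`,
`gf2_prod`, `chalfs_le` (SHP/Cut): `z ^ 2 * gf (saws t) z <= gf (halfs t) z ^ 2`. `gf_eq_cnt` (SHP/GfB):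
`cnt (saws t) n * z ^ n <= gf (saws t) z`. With `zc t * mu t = 1` (`zc_mul_mu`):
`cnt (saws t) n <= mu t ^ n * (1 - ε) ^ (- n) * z ^ (-2) * exp (2 C ε ^ (-3/4))`, `(1 - ε) ^ (- n) <= exp (2 ε n) = exp (n ^ (3/7))`,
`z ^ (-2) <= (2 * mu t) ^ 2`, `ε ^ (-3/4) = 2 ^ (3/4) * n ^ (3/7) <= 2 * n ^ (3/7)`, and constants `<= exp (C' n ^ (3/7))` since `n >= 1`.
`n = 0`: both sides are `1` (`0 ^ (3/7) = 0`; `cnt (saws t) 0 = 1`).
-/

namespace Pool.Agent.ZHW

open Pool.Agent.SHP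
open scoped ENNReal NNReal

private theorem Fin_halfs (t : Bool) (z : ℝ≥0) (B : ℝ≥0∞) (hHT : ∀ m : ℕ, gf (HT t m) z ≤ B) :
    gf (halfs t) z ≤ B := by
  classical
  have h1 : ∀ A : Set (List (ℤ × ℤ)), gf A z =
      ∑' l : List (ℤ × ℤ), A.indicator (fun l : List (ℤ × ℤ) => (z : ℝ≥0∞) ^ l.length) l := by
    intro A
    unfold gf
    rw [tsum_subtype A (fun l : List (ℤ × ℤ) => (z : ℝ≥0∞) ^ l.length)]
  rw [h1, ENNReal.tsum_eq_iSup_sum]
  apply iSup_le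
  intro F
  let T := F.sup List.length
  refine le_trans ?_ (hHT T)
  rw [h1]
  refine le_trans ?_ (ENNReal.sum_le_tsum F)
  apply Finset.sum_le_sum
  intro l hl
  by_cases hh : l ∈ halfs t
  · have h2 : l ∈ HT t T := halfs_mem_HT hh (Finset.le_sup (f := List.length) hl)
    rw [Set.indicator_of_mem hh, Set.indicator_of_mem h2]
  · rw [Set.indicator_of_notMem hh]
    exact zero_le

private theorem Fin_saws (t : Bool) (z : ℝ≥0) :
    (z : ℝ≥0∞) ^ 2 * gf (saws t) z ≤ gf (halfs t) z ^ 2 := by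
  have h1 : gf (saws t) z ≤ gf (chalfs t) z * gf (chalfs t) z := by
    refine (saws_le_disj z).trans ?_
    have h2 : disjPairs t ⊆ (chalfs t) ×ˢ (chalfs t) := by
      rintro ⟨u, v⟩ ⟨hu, hv, _⟩
      exact ⟨hu, hv⟩
    refine (gf2_mono_set h2 z).trans ?_
    rw [gf2_prod]
  calc (z : ℝ≥0∞) ^ 2 * gf (saws t) z ≤ (z : ℝ≥0∞) ^ 2 * (gf (chalfs t) z * gf (chalfs t) z) := by
        gcongr
    _ = ((z : ℝ≥0∞) * gf (chalfs t) z) ^ 2 := by ring
    _ ≤ gf (halfs t) z ^ 2 := by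
        gcongr
        exact chalfs_le z

private theorem Fin_cnt (t : Bool) (z : ℝ≥0) (n : ℕ) (b : ℝ) (hb : 0 ≤ b)
    (h : gf (halfs t) z ≤ ENNReal.ofReal b) :
    (z : ℝ) ^ (n + 2) * (cnt (saws t) n : ℝ) ≤ b ^ 2 := by
  have h1 : (cnt (saws t) n : ℝ≥0∞) * (z : ℝ≥0∞) ^ n ≤ gf (saws t) z := by
    rw [gf_eq_cnt (t := t) (fun l hl => hl.1) z]
    exact ENNReal.le_tsum (f := fun n : ℕ => (cnt (saws t) n : ℝ≥0∞) * (z : ℝ≥0∞) ^ n) n
  have h2 : (z : ℝ≥0∞) ^ (n + 2) * (cnt (saws t) n : ℝ≥0∞) ≤ ENNReal.ofReal (b ^ 2) := by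
    calc (z : ℝ≥0∞) ^ (n + 2) * (cnt (saws t) n : ℝ≥0∞)
        = (z : ℝ≥0∞) ^ 2 * ((cnt (saws t) n : ℝ≥0∞) * (z : ℝ≥0∞) ^ n) := by ring
      _ ≤ (z : ℝ≥0∞) ^ 2 * gf (saws t) z := by gcongr
      _ ≤ gf (halfs t) z ^ 2 := Fin_saws t z
      _ ≤ (ENNReal.ofReal b) ^ 2 := by gcongr
      _ = ENNReal.ofReal (b ^ 2) := by rw [ENNReal.ofReal_pow hb]
  have h3 : (z : ℝ≥0∞) ^ (n + 2) * (cnt (saws t) n : ℝ≥0∞) =
      ENNReal.ofReal ((z : ℝ) ^ (n + 2) * (cnt (saws t) n : ℝ)) := by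
    rw [ENNReal.ofReal_mul (by positivity), ENNReal.ofReal_pow (by positivity),
      ENNReal.ofReal_coe_nnreal, ENNReal.ofReal_natCast]
  rw [h3] at h2
  exact (ENNReal.ofReal_le_ofReal_iff (by positivity)).1 h2

private theorem Fin_zero (t : Bool) : (cnt (saws t) 0 : ℝ) ≤ 1 := by
  have h : cnt (saws t) 0 ≤ 1 := by
    unfold cnt
    refine (Set.ncard_le_ncard (t := {([] : List (ℤ × ℤ))}) ?_ (Set.finite_singleton _)).trans ?_
    · rintro l ⟨_, hl⟩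
      exact List.eq_nil_of_length_eq_zero hl
    · rw [Set.ncard_singleton]
  exact_mod_cast h

private theorem Fin_inv (ε : ℝ) (h0 : 0 < ε) (h1 : ε ≤ 1 / 2) (m : ℕ) :
    1 ≤ (1 - ε) ^ m * Real.exp (2 * ε * m) := by
  have h2 : (1 : ℝ) ≤ (1 - ε) * Real.exp (2 * ε) := by
    have h3 : (0 : ℝ) < 1 - ε := by linarith
    have h4 : 1 + 2 * ε ≤ Real.exp (2 * ε) := by
      have := Real.add_one_le_exp (2 * ε)
      linarith
    have h5 : (1 : ℝ) ≤ (1 - ε) * (1 + 2 * ε) := by nlinarith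
    calc (1 : ℝ) ≤ (1 - ε) * (1 + 2 * ε) := h5
      _ ≤ (1 - ε) * Real.exp (2 * ε) := by gcongr
  calc (1 : ℝ) ≤ ((1 - ε) * Real.exp (2 * ε)) ^ m := one_le_pow₀ h2
    _ = (1 - ε) ^ m * Real.exp (2 * ε * m) := by
        rw [mul_pow, ← Real.exp_nat_mul]
        congr 2
        ring

theorem cnt_le (t : Bool) : ∃ C : ℝ, 0 < C ∧ ∀ n : ℕ,
    (cnt (saws t) n : ℝ) ≤ mu t ^ n * Real.exp (C * (n : ℝ) ^ (3 / 7 : ℝ)) := by
  obtain ⟨C, hC, hS⟩ := main_S t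
  have hmu := one_le_mu t
  refine ⟨3 + 2 * mu t + 4 * C, by positivity, ?_⟩
  intro n
  rcases Nat.eq_zero_or_pos n with hn | hn
  · subst hn
    have h := Fin_zero t
    rw [Nat.cast_zero, Real.zero_rpow (by norm_num), mul_zero, Real.exp_zero, pow_zero, mul_one]
    exact h
  · have hn1 : (1 : ℝ) ≤ (n : ℝ) := by exact_mod_cast hn
    have hn0 : (0 : ℝ) < (n : ℝ) := by linarith
    set X : ℝ := (n : ℝ) ^ (3 / 7 : ℝ) with hX
    have hX1 : 1 ≤ X := Real.one_le_rpow hn1 (by norm_num)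
    set ε : ℝ := (n : ℝ) ^ (-(4 / 7) : ℝ) / 2 with hε
    have hε0 : 0 < ε := by positivity
    have hε1 : ε ≤ 1 / 2 := by
      have : (n : ℝ) ^ (-(4 / 7) : ℝ) ≤ 1 := Real.rpow_le_one_of_one_le_of_nonpos hn1 (by norm_num)
      rw [hε]
      linarith
    have hεn : 2 * (ε * n) = X := by
      rw [hε, hX]
      have : (n : ℝ) ^ (-(4 / 7) : ℝ) * n = (n : ℝ) ^ (3 / 7 : ℝ) := by
        conv_lhs => rw [← Real.rpow_one (n : ℝ)]
        rw [Real.rpow_one, ← Real.rpow_add_one hn0.ne']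
        norm_num
      rw [← this]
      ring
    have hε2 : ε ^ (-(3 / 4 : ℝ)) ≤ 2 * X := by
      rw [hε, Real.div_rpow (by positivity) (by norm_num), ← Real.rpow_mul hn0.le]
      have h1 : (-(4 / 7) : ℝ) * (-(3 / 4)) = 3 / 7 := by norm_num
      rw [h1, ← hX]
      have h2 : (2 : ℝ) ^ (-(3 / 4) : ℝ) = ((2 : ℝ) ^ (3 / 4 : ℝ))⁻¹ := Real.rpow_neg (by norm_num) _
      rw [h2, div_inv_eq_mul]
      have h3 : (2 : ℝ) ^ (3 / 4 : ℝ) ≤ 2 := by
        calc (2 : ℝ) ^ (3 / 4 : ℝ) ≤ (2 : ℝ) ^ (1 : ℝ) :=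
              Real.rpow_le_rpow_of_exponent_le (by norm_num) (by norm_num)
          _ = 2 := Real.rpow_one _
      nlinarith
    set b : ℝ := Real.exp (C * ε ^ (-(3 / 4 : ℝ))) with hb
    have hb0 : 0 ≤ b := (Real.exp_pos _).le
    have h1 := Fin_cnt t (Real.toNNReal (1 - ε) * zc t) n b hb0
      (Fin_halfs t _ _ (hS ε hε0 hε1))
    have hz : ((Real.toNNReal (1 - ε) * zc t : ℝ≥0) : ℝ) = (1 - ε) * (zc t : ℝ) := by
      rw [NNReal.coe_mul, Real.coe_toNNReal _ (by linarith)]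
    rw [hz] at h1
    have hzm := zc_mul_mu t
    have h2 : b ^ 2 ≤ Real.exp (4 * C * X) := by
      rw [hb, ← Real.exp_nat_mul]
      apply Real.exp_le_exp.mpr
      have := mul_le_mul_of_nonneg_left hε2 hC.le
      push_cast
      nlinarith
    have h3 := Fin_inv ε hε0 hε1 (n + 2)
    have h4 : Real.exp (2 * ε * ((n + 2 : ℕ) : ℝ)) ≤ Real.exp (3 * X) := by
      apply Real.exp_le_exp.mpr
      push_cast
      nlinarith
    have h5 : mu t ^ 2 ≤ Real.exp (2 * mu t * X) := by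
      have h6 : mu t ≤ Real.exp (mu t) := by
        have := Real.add_one_le_exp (mu t)
        linarith
      calc mu t ^ 2 ≤ (Real.exp (mu t)) ^ 2 := by gcongr
        _ = Real.exp (2 * mu t) := by
            rw [← Real.exp_nat_mul]
            norm_num
        _ ≤ Real.exp (2 * mu t * X) := by
            apply Real.exp_le_exp.mpr
            have : 0 ≤ 2 * mu t := by positivity
            nlinarith
    set a : ℝ := (cnt (saws t) n : ℝ) with ha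
    have ha0 : 0 ≤ a := Nat.cast_nonneg _
    have hmu0 : 0 < mu t := by linarith
    calc a = (((zc t : ℝ) * mu t) ^ (n + 2)) * a := by rw [hzm, one_pow, one_mul]
      _ ≤ (((zc t : ℝ) * mu t) ^ (n + 2)) * a *
          ((1 - ε) ^ (n + 2) * Real.exp (2 * ε * ((n + 2 : ℕ) : ℝ))) := by
            rw [hzm, one_pow, one_mul]
            nlinarith
      _ = (((1 - ε) * (zc t : ℝ)) ^ (n + 2) * a) * mu t ^ (n + 2) *
          Real.exp (2 * ε * ((n + 2 : ℕ) : ℝ)) := by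
            rw [mul_pow, mul_pow]
            ring
      _ ≤ b ^ 2 * mu t ^ (n + 2) * Real.exp (2 * ε * ((n + 2 : ℕ) : ℝ)) := by
            gcongr
      _ ≤ Real.exp (4 * C * X) * mu t ^ (n + 2) * Real.exp (3 * X) := by
            gcongr
      _ = mu t ^ n * (Real.exp (4 * C * X) * Real.exp (3 * X) * mu t ^ 2) := by ring
      _ ≤ mu t ^ n * (Real.exp (4 * C * X) * Real.exp (3 * X) * Real.exp (2 * mu t * X)) := by
            gcongr
      _ = mu t ^ n * Real.exp ((3 + 2 * mu t + 4 * C) * X) := by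
            rw [← Real.exp_add, ← Real.exp_add]
            congr 2
            ring

end Pool.Agent.ZHW
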