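import Mathlib
import Pool.Agent.HHP.Gron

/-!
Module Gron (analysis): a Gronwall inequality with gaps, for masses with `∑ t < D, J (t + s + 1) t <= C0 √(D + 1)`.

PAPER PROOF of `gron_real`. Let `q = 1 - ε`, `A = ε ^ (-3/4)`, `Λ t = A * (1 - q ^ t)` (nondecreasing, between `0` and `A`),
`Z t = S t * exp (- Λ t)`. Multiply the hypothesis by `exp (- Λ n) <= exp (- Λ a)` (`a <= n`):
`Z n <= K + ∑ a <= n, ∑ b < a, J a b * q ^ (a + b) * exp (- (Λ a - Λ b)) * Z b <= K + ∑ b < n, κ b * Z b` with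
`κ b = ∑ s < n, J (b + s + 1) b * q ^ (2 b + s + 1) * exp (- (Λ (b + s + 1) - Λ b))`. Discrete Gronwall:
`Z n <= K * exp (∑ b < n, κ b)`. With `w = q ^ b`, `m = s + 1`, `δ = 1 - q ^ m`: `Λ (b + m) - Λ b = A w δ` and
`w ^ 2 * exp (- A w δ) <= w ^ (1/2) * sup_v v ^ (3/2) exp (- A v δ) <= w ^ (1/2) * min (1, 1 / (A δ)) ^ (3/2)`
(`0 < w <= 1`; `r ^ (3/2) * exp (- r) <= 1` for `r >= 0`). For fixed `s`, Abel summation with the partial sums `<= C0 √(D + 1)`: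
`∑ b < n, J (b + s + 1) b * q ^ (b/2) <= C0 * ∑ b, √(b + 1) * (q ^ (b/2) - q ^ ((b+1)/2)) + C0 √(n+1) q^(n/2)
  = C0 * (1 + ∑ b >= 1, (√(b + 1) - √b) q ^ (b/2)) <= C0 * (1 + ∑ b >= 1, q ^ (b/2) / √b) <= C * C0 * ε ^ (-1/2)`
(for instance with `q ^ (b/2) <= exp (- ε b / 2)`, split at `b = 1 / ε`; or with the cheaper choice: the sum of `J` over a
dyadic block `[2^k / ε, 2^(k+1) / ε)` is `<= C0 √(2^(k+1) / ε + 1)` and `q ^ (b/2) <= exp (- 2^k / 2)` there).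
`q ^ m * min (1, 1 / (A δ)) ^ (3/2)`: as `q ^ m / (1 - q ^ m) ^ (3/2) <= 1 / (ε m) ^ (3/2)` (from
`(1 - q ^ m) >= m ε q ^ ((m-1)/2) >= m ε q ^ (m/2)`, so `(1 - q ^ m) ^ (3/2) >= (m ε) ^ (3/2) q ^ (3m/4) >= (m ε) ^ (3/2) q ^ m`),
it is `<= min (1, 1 / (A ε m)) ^ (3/2)`; with `v = A ε = ε ^ (1/4) <= 1` the sum over `m >= 1` is
`<= ∑ m, min (1, 1 / (v m)) ^ (3/2) <= 4 / v`. So `∑ b < n, κ b <= C * C0 * ε ^ (-1/2) * 4 / v = 4 C C0 * ε ^ (-3/4)`, and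
`S n <= K * exp (A + 4 C C0 ε ^ (-3/4))`.

`gron`: if `K = ∞` trivial. Otherwise `J a b < ∞` for `b < a`, and `S n < ∞` by strong induction; apply `gron_real` to
`toReal` (put `J a b = 0` for `b >= a`). (The module HHP/Gron of helper5 is the same with the constant sum `C0`, exponents `2`
and `1/2` instead of `3/2` and `3/4`.)
-/

namespace Pool.Agent.ZHW

open Finset
open scoped ENNReal

/-- `r ^ 3 * exp (- 2 r) <= 1`. -/
private theorem gr_exp {r : ℝ} (hr : 0 ≤ r) : r ^ 3 * Real.exp (-r) ^ 2 ≤ 1 := by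
  have h1 : r ^ 3 ≤ Real.exp r ^ 2 := by
    have h4 : Real.exp (r * (2 / 3)) ^ 3 = Real.exp r ^ 2 := by
      rw [← Real.exp_nat_mul, ← Real.exp_nat_mul]
      congr 1
      push_cast
      ring
    rw [← h4]
    apply pow_le_pow_left₀ hr
    have h5 := Real.quadratic_le_exp_of_nonneg (x := r * (2 / 3)) (by positivity)
    nlinarith [sq_nonneg (r - 3 / 2), sq_nonneg r]
  have h2 : Real.exp (-r) ^ 2 * Real.exp r ^ 2 = 1 := by
    rw [← mul_pow, ← Real.exp_add, neg_add_cancel, Real.exp_zero, one_pow]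
  have h3 : 0 ≤ Real.exp (-r) ^ 2 := by positivity
  nlinarith

/-- Telescoping bound for `b_m = √(1 + v m)`. -/
private theorem gr_tel {v : ℝ} (hv : 0 < v) (n : ℕ) :
    ∑ s ∈ range n, 1 / Real.sqrt (1 + v * ((s : ℝ) + 1)) ^ 3 ≤ 2 / v := by
  have key : ∀ s : ℕ, 1 / Real.sqrt (1 + v * ((s : ℝ) + 1)) ^ 3 ≤
      2 / v * (1 / Real.sqrt (1 + v * (s : ℝ)) - 1 / Real.sqrt (1 + v * ((s + 1 : ℕ) : ℝ))) := by
    intro s
    have hs : (0 : ℝ) ≤ s := Nat.cast_nonneg s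
    push_cast
    have ha2 : 0 < 1 + v * (s : ℝ) := by positivity
    have hb2 : 0 < 1 + v * ((s : ℝ) + 1) := by positivity
    set a := Real.sqrt (1 + v * (s : ℝ)) with ha
    set b := Real.sqrt (1 + v * ((s : ℝ) + 1)) with hb
    have ha0 : 0 < a := Real.sqrt_pos.2 ha2
    have hb0 : 0 < b := Real.sqrt_pos.2 hb2
    have hasq : a ^ 2 = 1 + v * (s : ℝ) := Real.sq_sqrt ha2.le
    have hbsq : b ^ 2 = 1 + v * ((s : ℝ) + 1) := Real.sq_sqrt hb2.le
    have hvv : v = (b - a) * (b + a) := by nlinarith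
    have hba : 0 < b - a := by
      by_contra hc
      push Not at hc
      nlinarith
    have h1 : 2 / v * (1 / a - 1 / b) = 2 / ((b + a) * (a * b)) := by
      rw [hvv]
      field_simp
    rw [h1, div_le_div_iff₀ (by positivity) (by positivity)]
    nlinarith [mul_pos ha0 hb0, mul_pos hb0 hb0, mul_pos (mul_pos ha0 hb0) hb0,
      mul_pos hba (mul_pos hb0 hb0), mul_pos hba (mul_pos ha0 hb0)]
  calc ∑ s ∈ range n, 1 / Real.sqrt (1 + v * ((s : ℝ) + 1)) ^ 3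
      ≤ ∑ s ∈ range n, 2 / v * (1 / Real.sqrt (1 + v * (s : ℝ)) - 1 / Real.sqrt (1 + v * ((s + 1 : ℕ) : ℝ))) :=
        sum_le_sum fun s _ => key s
    _ = 2 / v * (1 / Real.sqrt (1 + v * ((0 : ℕ) : ℝ)) - 1 / Real.sqrt (1 + v * (n : ℝ))) := by
        rw [← mul_sum]
        congr 1
        exact sum_range_sub' (fun k : ℕ => 1 / Real.sqrt (1 + v * (k : ℝ))) n
    _ ≤ 2 / v * 1 := by
        apply mul_le_mul_of_nonneg_left _ (by positivity)
        have : 0 ≤ 1 / Real.sqrt (1 + v * (n : ℝ)) := by positivity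
        simp only [Nat.cast_zero, mul_zero, add_zero, Real.sqrt_one, div_one]
        linarith
    _ = 2 / v := mul_one _

/-- Abel summation against a geometric sequence, partial sums bounded by `c1 * D + c0`. -/
private theorem gr_abel {z : ℝ} (h0 : 0 ≤ z) (h1 : z ≤ 1) (c0 c1 : ℝ) (j : ℕ → ℝ)
    (hj : ∀ D : ℕ, ∑ t ∈ range D, j t ≤ c1 * D + c0) (n : ℕ) :
    ∑ b ∈ range n, j b * z ^ b ≤ c0 + c1 * ∑ b ∈ range n, z ^ b := by
  have key : ∀ n : ℕ, ∑ b ∈ range n, j b * z ^ b + (c1 * n + c0 - ∑ t ∈ range n, j t) * z ^ n ≤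
      c0 + c1 * ∑ b ∈ range n, z ^ b := by
    intro n
    induction n with
    | zero => simp
    | succ n ih =>
      have h2 := hj (n + 1)
      rw [sum_range_succ] at h2
      rw [sum_range_succ, sum_range_succ, sum_range_succ]
      push_cast at h2 ⊢
      set P := ∑ t ∈ range n, j t
      set G := ∑ b ∈ range n, z ^ b
      set T := ∑ b ∈ range n, j b * z ^ b
      have hz : 0 ≤ z ^ n := pow_nonneg h0 n
      have h3 : 0 ≤ (c1 * (n + 1) + c0 - (P + j n)) * (1 - z) * z ^ n :=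
        mul_nonneg (mul_nonneg (by linarith) (by linarith)) hz
      have e : T + j n * z ^ n + (c1 * ((n : ℝ) + 1) + c0 - (P + j n)) * z ^ (n + 1) =
          T + (c1 * n + c0 - P) * z ^ n + c1 * z ^ n
            - (c1 * (n + 1) + c0 - (P + j n)) * (1 - z) * z ^ n := by ring
      rw [e]
      linarith
  have h2 := key n
  have h3 : 0 ≤ (c1 * n + c0 - ∑ t ∈ range n, j t) * z ^ n :=
    mul_nonneg (by linarith [hj n]) (pow_nonneg h0 n)
  linarith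

private theorem gr_part {v ζ C0 : ℝ} (hv : 0 < v) (hv1 : v ≤ 1) (hζ0 : 0 < ζ) (hζ1 : ζ < 1)
    (hζ : v ^ 4 ≤ 2 * (1 - ζ)) (hC0 : 0 ≤ C0) (j : ℕ → ℝ)
    (hj : ∀ D : ℕ, ∑ t ∈ range D, j t ≤ C0 * Real.sqrt ((D : ℝ) + 1)) (n : ℕ) :
    ∑ b ∈ range n, j b * ζ ^ b ≤ 2 * C0 / v ^ 2 := by
  have h1 : ∀ D : ℕ, ∑ t ∈ range D, j t ≤ (C0 * v ^ 2 / 2) * D + C0 * (v ^ 2 + 1 / v ^ 2) / 2 := by
    intro D
    refine (hj D).trans ?_
    have hD : (0 : ℝ) ≤ (D : ℝ) + 1 := by positivity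
    have h2 : Real.sqrt ((D : ℝ) + 1) ≤ (v ^ 2 * ((D : ℝ) + 1) + 1 / v ^ 2) / 2 := by
      set r := Real.sqrt ((D : ℝ) + 1) with hr
      have hr2 : r ^ 2 = (D : ℝ) + 1 := Real.sq_sqrt hD
      rw [← hr2]
      have h3 : 0 ≤ (v * r - 1 / v) ^ 2 := sq_nonneg _
      have h4 : (v * r - 1 / v) ^ 2 = v ^ 2 * r ^ 2 + 1 / v ^ 2 - 2 * r := by
        field_simp
        ring
      linarith
    calc C0 * Real.sqrt ((D : ℝ) + 1) ≤ C0 * ((v ^ 2 * ((D : ℝ) + 1) + 1 / v ^ 2) / 2) :=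
          mul_le_mul_of_nonneg_left h2 hC0
      _ = _ := by ring
  refine (gr_abel hζ0.le hζ1.le _ _ j h1 n).trans ?_
  have h2 : ∑ b ∈ range n, ζ ^ b ≤ 2 / v ^ 4 := by
    rw [geom_sum_eq hζ1.ne]
    have h3 : (ζ ^ n - 1) / (ζ - 1) = (1 - ζ ^ n) / (1 - ζ) := by
      rw [← neg_sub 1 (ζ ^ n), ← neg_sub 1 ζ, neg_div_neg_eq]
    rw [h3, div_le_div_iff₀ (by linarith) (by positivity)]
    have h4 : 0 < ζ ^ n := pow_pos hζ0 n
    have h5 : 0 < v ^ 4 := by positivity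
    nlinarith
  have h3 : (C0 * v ^ 2 / 2) * ∑ b ∈ range n, ζ ^ b ≤ (C0 * v ^ 2 / 2) * (2 / v ^ 4) :=
    mul_le_mul_of_nonneg_left h2 (by positivity)
  have h4 : (C0 * v ^ 2 / 2) * (2 / v ^ 4) = C0 / v ^ 2 := by
    field_simp
  have h5 : v ^ 2 ≤ 1 / v ^ 2 := by
    rw [le_div_iff₀ (by positivity)]
    have : v ^ 2 ≤ 1 := pow_le_one₀ hv.le hv1
    have : 0 < v ^ 2 := by positivity
    nlinarith
  have h6 : C0 * (v ^ 2 + 1 / v ^ 2) / 2 ≤ C0 * (1 / v ^ 2) := by nlinarith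
  have h7 : C0 * (1 / v ^ 2) + C0 / v ^ 2 = 2 * C0 / v ^ 2 := by ring
  linarith

private theorem gr_kernel {v ζ : ℝ} (hv : 0 < v) (h0 : 0 < ζ) (h1 : ζ < 1) (hq : 1 - ζ ^ 2 = v ^ 4)
    (b m : ℕ) (hm : 1 ≤ m) :
    (ζ ^ 2) ^ (2 * b + m) * Real.exp (-(1 / v ^ 3 * (ζ ^ 2) ^ b * (1 - (ζ ^ 2) ^ m))) ≤
      3 * ζ ^ b * (1 / Real.sqrt (1 + v * m) ^ 3) := by
  have hm0 : (0 : ℝ) < m := by exact_mod_cast hm
  set q := ζ ^ 2 with hqd
  have hq0 : 0 < q := by positivity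
  have hq1 : q < 1 := by
    have : 0 < v ^ 4 := by positivity
    linarith
  set w := q ^ b with hw
  have hw0 : 0 < w := pow_pos hq0 b
  have hw1 : w ≤ 1 := pow_le_one₀ hq0.le hq1.le
  have hwz : (ζ ^ b) ^ 2 = w := by
    rw [hw, hqd, ← pow_mul, ← pow_mul, mul_comm]
  have hzb : 0 < ζ ^ b := pow_pos h0 b
  set Q := q ^ m with hQ
  have hQ0 : 0 < Q := pow_pos hq0 m
  have hQ1 : Q < 1 := pow_lt_one₀ hq0.le hq1 (by omega)
  have e1 : q ^ (2 * b + m) = w ^ 2 * Q := by rw [pow_add, hw, hQ]; ring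
  rw [e1]
  set δ := 1 - Q with hδ
  have hδ0 : 0 < δ := by rw [hδ]; linarith
  have hE1 : Real.exp (-(1 / v ^ 3 * w * δ)) ≤ 1 := Real.exp_le_one_iff.2 (by
    have : 0 < 1 / v ^ 3 * w * δ := by positivity
    linarith)
  have hE0 := (Real.exp_pos (-(1 / v ^ 3 * w * δ)))
  have hexp := gr_exp (r := 1 / v ^ 3 * w * δ) (by positivity)
  set E := Real.exp (-(1 / v ^ 3 * w * δ)) with hE
  set β := Real.sqrt (1 + v * m) with hβ
  have hβ2 : β ^ 2 = 1 + v * m := Real.sq_sqrt (by positivity)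
  have hβ0 : 0 < β := Real.sqrt_pos.2 (by positivity)
  rw [mul_one_div, le_div_iff₀ (by positivity)]
  -- compare squares
  apply le_of_sq_le_sq _ (by positivity)
  have hL : (w ^ 2 * Q * E * β ^ 3) ^ 2 = w * (w ^ 3 * Q ^ 2 * E ^ 2) * (β ^ 2) ^ 3 := by ring
  have hR : (3 * ζ ^ b) ^ 2 = 9 * w := by rw [mul_pow, hwz]; norm_num
  rw [hL, hR, hβ2]
  have hX0 : 0 ≤ w ^ 3 * Q ^ 2 * E ^ 2 := by positivity
  have hX1 : w ^ 3 * Q ^ 2 * E ^ 2 ≤ 1 := by
    have a1 : w ^ 3 ≤ 1 := pow_le_one₀ hw0.le hw1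
    have a2 : Q ^ 2 ≤ 1 := pow_le_one₀ hQ0.le hQ1.le
    have a3 : E ^ 2 ≤ 1 := pow_le_one₀ hE0.le hE1
    exact mul_le_one₀ (mul_le_one₀ a1 (by positivity) a2) (by positivity) a3
  by_cases hc : v * m ≤ 1
  · have a1 : (1 + v * m) ^ 3 ≤ 8 := by
      have h2 : 0 < v * m := by positivity
      have h3 : (1 + v * m) ^ 3 ≤ 2 ^ 3 := pow_le_pow_left₀ (by positivity) (by linarith) 3
      linarith
    have a2 : (w ^ 3 * Q ^ 2 * E ^ 2) * (1 + v * m) ^ 3 ≤ 1 * 8 :=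
      mul_le_mul hX1 a1 (by positivity) (by norm_num)
    nlinarith
  · push Not at hc
    have a1 : (1 + v * m) ^ 3 ≤ 8 * (v * m) ^ 3 := by
      have h3 : (1 + v * m) ^ 3 ≤ (2 * (v * m)) ^ 3 := pow_le_pow_left₀ (by positivity) (by linarith) 3
      have h4 : (2 * (v * m)) ^ 3 = 8 * (v * m) ^ 3 := by ring
      linarith
    have a3 := Pool.Agent.HHP.gron_sq hq0 hq1 m
    rw [hq, ← hQ, ← hδ] at a3
    -- `(m v ^ 4) ^ 2 * Q <= δ ^ 2`, hence `(m v ^ 4) ^ 3 * Q ^ 2 <= δ ^ 3`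
    have a4 : (m * v ^ 4) * Q ≤ δ := by
      apply le_of_sq_le_sq _ hδ0.le
      have : ((m * v ^ 4) * Q) ^ 2 = ((m * v ^ 4) ^ 2 * Q) * Q := by ring
      rw [this]
      have h5 : 0 ≤ (m * v ^ 4) ^ 2 * Q := by positivity
      nlinarith
    have a5 : (m * v ^ 4) ^ 3 * Q ^ 2 ≤ δ ^ 3 := by
      calc (m * v ^ 4) ^ 3 * Q ^ 2 = ((m * v ^ 4) ^ 2 * Q) * ((m * v ^ 4) * Q) := by ring
        _ ≤ δ ^ 2 * δ := mul_le_mul a3 a4 (by positivity) (by positivity)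
        _ = δ ^ 3 := by ring
    have a6 : w ^ 3 * Q ^ 2 * E ^ 2 * (v * m) ^ 3 ≤ 1 := by
      have b1 : (m * v ^ 4) ^ 3 * Q ^ 2 * (1 / v ^ 9) ≤ δ ^ 3 * (1 / v ^ 9) :=
        mul_le_mul_of_nonneg_right a5 (by positivity)
      have b2 : (m * v ^ 4) ^ 3 * Q ^ 2 * (1 / v ^ 9) = (v * m) ^ 3 * Q ^ 2 := by
        field_simp
      rw [b2] at b1
      have b3 : w ^ 3 * E ^ 2 * ((v * m) ^ 3 * Q ^ 2) ≤ w ^ 3 * E ^ 2 * (δ ^ 3 * (1 / v ^ 9)) :=
        mul_le_mul_of_nonneg_left b1 (by positivity)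
      have b4 : w ^ 3 * E ^ 2 * (δ ^ 3 * (1 / v ^ 9)) = (1 / v ^ 3 * w * δ) ^ 3 * E ^ 2 := by
        field_simp
      rw [b4] at b3
      calc w ^ 3 * Q ^ 2 * E ^ 2 * (v * m) ^ 3 = w ^ 3 * E ^ 2 * ((v * m) ^ 3 * Q ^ 2) := by ring
        _ ≤ _ := b3
        _ ≤ 1 := hexp
    have a7 : w ^ 3 * Q ^ 2 * E ^ 2 * (1 + v * m) ^ 3 ≤ 8 := by
      calc w ^ 3 * Q ^ 2 * E ^ 2 * (1 + v * m) ^ 3 ≤ w ^ 3 * Q ^ 2 * E ^ 2 * (8 * (v * m) ^ 3) :=
            mul_le_mul_of_nonneg_left a1 hX0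
        _ = 8 * (w ^ 3 * Q ^ 2 * E ^ 2 * (v * m) ^ 3) := by ring
        _ ≤ 8 := by linarith
    nlinarith

private theorem gr_core {v ζ : ℝ} (hv : 0 < v) (hv1 : v ≤ 1) (h0 : 0 < ζ) (h1 : ζ < 1)
    (hq : 1 - ζ ^ 2 = v ^ 4) {K C0 : ℝ} (hK : 0 ≤ K) (hC0 : 0 ≤ C0) (J : ℕ → ℕ → ℝ)
    (hJ : ∀ a b, 0 ≤ J a b)
    (hJM : ∀ s D : ℕ, ∑ t ∈ range D, J (t + s + 1) t ≤ C0 * Real.sqrt ((D : ℝ) + 1)) (S : ℕ → ℝ)
    (hS : ∀ n, 0 ≤ S n)
    (hrec : ∀ n, S n ≤ K + ∑ a ∈ range (n + 1), ∑ b ∈ range a, J a b * (ζ ^ 2) ^ (a + b) * S b)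
    (n : ℕ) : S n ≤ K * Real.exp (1 / v ^ 3 + 12 * C0 / v ^ 3) := by
  set q := ζ ^ 2 with hqd
  have hq0 : 0 < q := by positivity
  have hq1 : q < 1 := by
    have : 0 < v ^ 4 := by positivity
    linarith
  set A := 1 / v ^ 3 with hA
  have hA0 : 0 < A := by positivity
  set Λ : ℕ → ℝ := fun t => A * (1 - q ^ t) with hΛ
  have hΛ0 : ∀ t, 0 ≤ Λ t := fun t => by
    have : q ^ t ≤ 1 := pow_le_one₀ hq0.le hq1.le
    exact mul_nonneg hA0.le (by linarith)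
  have hΛA : ∀ t, Λ t ≤ A := fun t => by
    have : 0 < q ^ t := pow_pos hq0 t
    simp only [hΛ]
    nlinarith
  have hΛm : ∀ a b, a ≤ b → Λ a ≤ Λ b := fun a b hab => by
    have : q ^ b ≤ q ^ a := pow_le_pow_of_le_one hq0.le hq1.le hab
    simp only [hΛ]
    exact mul_le_mul_of_nonneg_left (by linarith) hA0.le
  set κ : ℕ → ℝ := fun b => ∑ s ∈ range n, J (b + s + 1) b *
    (3 * ζ ^ b * (1 / Real.sqrt (1 + v * ((s + 1 : ℕ) : ℝ)) ^ 3)) with hκ
  have hκ0 : ∀ b, 0 ≤ κ b := fun b => sum_nonneg fun s _ => mul_nonneg (hJ _ _) (by positivity)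
  set Z : ℕ → ℝ := fun t => S t * Real.exp (-Λ t) with hZ
  have hZrec : ∀ m ≤ n, Z m ≤ K + ∑ b ∈ range m, κ b * Z b := by
    intro m hm
    have g1 := mul_le_mul_of_nonneg_right (hrec m) (Real.exp_pos (-Λ m)).le
    refine g1.trans ?_
    rw [add_mul]
    refine add_le_add ?_ ?_
    · have : Real.exp (-Λ m) ≤ 1 := Real.exp_le_one_iff.2 (by linarith [hΛ0 m])
      nlinarith
    · rw [sum_mul]
      simp_rw [sum_mul]
      calc ∑ a ∈ range (m + 1), ∑ b ∈ range a, J a b * q ^ (a + b) * S b * Real.exp (-Λ m)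
          ≤ ∑ a ∈ range (m + 1), ∑ b ∈ range a, J a b * q ^ (a + b) * S b * Real.exp (-Λ a) := by
            refine sum_le_sum fun a ha => sum_le_sum fun b _ => ?_
            rw [mem_range] at ha
            refine mul_le_mul_of_nonneg_left ?_ (mul_nonneg (mul_nonneg (hJ _ _) (pow_nonneg hq0.le _)) (hS _))
            exact Real.exp_le_exp.2 (by linarith [hΛm a m (by omega)])
        _ ≤ ∑ b ∈ range m, ∑ s ∈ range n,
            J (b + s + 1) b * q ^ (b + s + 1 + b) * S b * Real.exp (-Λ (b + s + 1)) :=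
            Pool.Agent.HHP.gron_reorg (fun a b => J a b * q ^ (a + b) * S b * Real.exp (-Λ a))
              (fun a b => mul_nonneg (mul_nonneg (mul_nonneg (hJ _ _) (pow_nonneg hq0.le _)) (hS _))
                (Real.exp_pos _).le) hm
        _ ≤ ∑ b ∈ range m, κ b * Z b := by
            refine sum_le_sum fun b _ => ?_
            rw [hκ]
            simp only
            rw [sum_mul]
            refine sum_le_sum fun s _ => ?_
            have k1 := gr_kernel hv h0 h1 hq b (s + 1) (by omega)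
            have k2 : Λ (b + s + 1) = Λ b + A * q ^ b * (1 - q ^ (s + 1)) := by
              simp only [hΛ]
              rw [show b + s + 1 = b + (s + 1) by ring, pow_add q b (s + 1)]
              ring
            have k3 : Real.exp (-Λ (b + s + 1)) =
                Real.exp (-(A * q ^ b * (1 - q ^ (s + 1)))) * Real.exp (-Λ b) := by
              rw [k2, ← Real.exp_add]; congr 1; ring
            rw [k3]
            have k4 : b + s + 1 + b = 2 * b + (s + 1) := by ring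
            rw [k4]
            have k5 : 0 ≤ J (b + s + 1) b * (S b * Real.exp (-Λ b)) :=
              mul_nonneg (hJ _ _) (mul_nonneg (hS _) (Real.exp_pos _).le)
            have k6 := mul_le_mul_of_nonneg_left k1 k5
            calc J (b + s + 1) b * q ^ (2 * b + (s + 1)) * S b *
                  (Real.exp (-(A * q ^ b * (1 - q ^ (s + 1)))) * Real.exp (-Λ b))
                = J (b + s + 1) b * (S b * Real.exp (-Λ b)) * (q ^ (2 * b + (s + 1)) *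
                  Real.exp (-(A * q ^ b * (1 - q ^ (s + 1))))) := by ring
              _ ≤ J (b + s + 1) b * (S b * Real.exp (-Λ b)) *
                  (3 * ζ ^ b * (1 / Real.sqrt (1 + v * ((s + 1 : ℕ) : ℝ)) ^ 3)) := k6
              _ = _ := by ring
  have hG := Pool.Agent.HHP.gron_disc K Z κ hκ0 n hZrec n le_rfl
  have hζ2 : v ^ 4 ≤ 2 * (1 - ζ) := by
    rw [← hq, hqd]
    nlinarith
  have hsum : ∑ b ∈ range n, κ b ≤ 12 * C0 / v ^ 3 := by
    rw [hκ]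
    simp only
    rw [sum_comm]
    calc ∑ s ∈ range n, ∑ b ∈ range n, J (b + s + 1) b *
          (3 * ζ ^ b * (1 / Real.sqrt (1 + v * ((s + 1 : ℕ) : ℝ)) ^ 3))
        = ∑ s ∈ range n, (∑ b ∈ range n, J (b + s + 1) b * ζ ^ b) *
          (3 * (1 / Real.sqrt (1 + v * ((s + 1 : ℕ) : ℝ)) ^ 3)) := by
          refine sum_congr rfl fun s _ => ?_
          rw [sum_mul]
          exact sum_congr rfl fun b _ => by ring
      _ ≤ ∑ s ∈ range n, (2 * C0 / v ^ 2) * (3 * (1 / Real.sqrt (1 + v * ((s + 1 : ℕ) : ℝ)) ^ 3)) := by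
          refine sum_le_sum fun s _ => mul_le_mul_of_nonneg_right ?_ (by positivity)
          exact gr_part hv hv1 h0 h1 hζ2 hC0 (fun b => J (b + s + 1) b) (fun D => hJM s D) n
      _ = 6 * C0 / v ^ 2 * ∑ s ∈ range n, 1 / Real.sqrt (1 + v * ((s : ℝ) + 1)) ^ 3 := by
          rw [mul_sum]
          refine sum_congr rfl fun s _ => ?_
          push_cast; ring
      _ ≤ 6 * C0 / v ^ 2 * (2 / v) := mul_le_mul_of_nonneg_left (gr_tel hv n) (by positivity)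
      _ = 12 * C0 / v ^ 3 := by
          field_simp
          ring
  have hprod : ∏ b ∈ range n, (1 + κ b) ≤ Real.exp (∑ b ∈ range n, κ b) := by
    rw [Real.exp_sum]
    refine prod_le_prod (fun b _ => by linarith [hκ0 b]) fun b _ => ?_
    linarith [Real.add_one_le_exp (κ b)]
  have hSn : S n = Z n * Real.exp (Λ n) := by
    simp only [hZ]
    rw [mul_assoc, ← Real.exp_add, neg_add_cancel, Real.exp_zero, mul_one]
  rw [hSn]
  calc Z n * Real.exp (Λ n) ≤ K * Real.exp (12 * C0 / v ^ 3) * Real.exp A := by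
        refine mul_le_mul ?_ (Real.exp_le_exp.2 (hΛA n)) (Real.exp_pos _).le (by positivity)
        refine hG.trans (mul_le_mul_of_nonneg_left ?_ hK)
        exact hprod.trans (Real.exp_le_exp.2 hsum)
    _ = K * Real.exp (A + 12 * C0 / v ^ 3) := by
        rw [mul_assoc, ← Real.exp_add]; congr 2; ring

theorem gron_real (C0 : ℝ) (hC0 : 0 ≤ C0) : ∃ C1 : ℝ, 0 < C1 ∧ ∀ ε : ℝ, 0 < ε → ε ≤ 1 / 2 → ∀ K : ℝ, 0 ≤ K →
    ∀ J : ℕ → ℕ → ℝ, (∀ a b, 0 ≤ J a b) →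
    (∀ s D : ℕ, ∑ t ∈ range D, J (t + s + 1) t ≤ C0 * Real.sqrt ((D : ℝ) + 1)) →
    ∀ S : ℕ → ℝ, (∀ n, 0 ≤ S n) →
    (∀ n, S n ≤ K + ∑ a ∈ range (n + 1), ∑ b ∈ range a, J a b * (1 - ε) ^ (a + b) * S b) →
    ∀ n, S n ≤ K * Real.exp (C1 * ε ^ (-(3 / 4 : ℝ))) := by
  refine ⟨1 + 12 * C0, by linarith, fun ε hε hε2 K hK J hJ hJs S hS hrec n => ?_⟩
  set v := ε ^ (1 / 4 : ℝ) with hv
  have hv0 : 0 < v := Real.rpow_pos_of_pos hε _
  have hv1 : v ≤ 1 := Real.rpow_le_one hε.le (by linarith) (by norm_num)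
  have hv4 : v ^ 4 = ε := by
    rw [hv, ← Real.rpow_natCast, ← Real.rpow_mul hε.le]
    norm_num
  have hv3 : 1 / v ^ 3 = ε ^ (-(3 / 4 : ℝ)) := by
    rw [hv, ← Real.rpow_natCast, ← Real.rpow_mul hε.le, Real.rpow_neg hε.le, one_div]
    norm_num
  have hz2 : Real.sqrt (1 - ε) ^ 2 = 1 - ε := Real.sq_sqrt (by linarith)
  have hz0 : 0 < Real.sqrt (1 - ε) := Real.sqrt_pos.2 (by linarith)
  have hz1 : Real.sqrt (1 - ε) < 1 := by
    rw [Real.sqrt_lt' one_pos]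
    linarith
  have h := gr_core hv0 hv1 hz0 hz1 (by rw [hz2, hv4]; ring) hK hC0 J hJ hJs S hS
    (by rw [hz2]; exact hrec) n
  refine h.trans (le_of_eq ?_)
  rw [← hv3]
  congr 2
  ring

theorem gron (C0 : ℝ) (hC0 : 0 ≤ C0) : ∃ C1 : ℝ, 0 < C1 ∧ ∀ ε : ℝ, 0 < ε → ε ≤ 1 / 2 → ∀ K : ℝ≥0∞,
    ∀ J : ℕ → ℕ → ℝ≥0∞,
    (∀ s D : ℕ, ∑ t ∈ range D, J (t + s + 1) t ≤ ENNReal.ofReal (C0 * Real.sqrt ((D : ℝ) + 1))) →
    ∀ S : ℕ → ℝ≥0∞,
    (∀ n, S n ≤ K + ∑ a ∈ range (n + 1), ∑ b ∈ range a, J a b * ENNReal.ofReal (1 - ε) ^ (a + b) * S b) →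
    ∀ n, S n ≤ K * ENNReal.ofReal (Real.exp (C1 * ε ^ (-(3 / 4 : ℝ)))) := by
  obtain ⟨C1, hC1, hg⟩ := gron_real C0 hC0
  refine ⟨C1, hC1, fun ε hε hε2 K J hJ S hrec n => ?_⟩
  rcases eq_or_ne K ∞ with rfl | hK
  · rw [ENNReal.top_mul]
    · exact le_top
    · rw [Ne, ENNReal.ofReal_eq_zero, not_le]; exact Real.exp_pos _
  have h0 : 0 ≤ 1 - ε := by linarith
  have hJne : ∀ a b, b < a → J a b ≠ ∞ := by
    intro a b hab
    have h1 := hJ (a - b - 1) (b + 1)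
    refine ne_top_of_le_ne_top ENNReal.ofReal_ne_top (le_trans ?_ h1)
    have h2 := single_le_sum (f := fun t => J (t + (a - b - 1) + 1) t) (s := range (b + 1))
      (fun _ _ => bot_le) (mem_range.2 (Nat.lt_succ_self b))
    have h3 : b + (a - b - 1) + 1 = a := by omega
    simp only [h3] at h2
    exact h2
  have hSfin : ∀ n, S n ≠ ∞ := by
    intro n
    induction n using Nat.strong_induction_on with
    | _ n ih =>
      refine ne_top_of_le_ne_top ?_ (hrec n)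
      refine ENNReal.add_ne_top.2 ⟨hK, ?_⟩
      refine ENNReal.sum_ne_top.2 fun a ha => ENNReal.sum_ne_top.2 fun b hb => ?_
      rw [mem_range] at ha hb
      exact ENNReal.mul_ne_top (ENNReal.mul_ne_top (hJne a b hb) (ENNReal.pow_ne_top ENNReal.ofReal_ne_top))
        (ih b (by omega))
  set J' : ℕ → ℕ → ℝ := fun a b => if b < a then (J a b).toReal else 0 with hJ'
  have hJ'0 : ∀ a b, 0 ≤ J' a b := fun a b => by
    simp only [hJ']; split_ifs <;> positivity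
  have h1 := hg ε hε hε2 K.toReal ENNReal.toReal_nonneg J' hJ'0 ?_ (fun n => (S n).toReal)
    (fun n => ENNReal.toReal_nonneg) ?_ n
  · have h2 : S n = ENNReal.ofReal (S n).toReal := (ENNReal.ofReal_toReal (hSfin n)).symm
    rw [h2]
    refine (ENNReal.ofReal_le_ofReal h1).trans (le_of_eq ?_)
    rw [ENNReal.ofReal_mul ENNReal.toReal_nonneg, ENNReal.ofReal_toReal hK]
  · intro s D
    have h2 := hJ s D
    have h3 : ∑ t ∈ range D, J' (t + s + 1) t = (∑ t ∈ range D, J (t + s + 1) t).toReal := by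
      rw [ENNReal.toReal_sum (fun t _ => hJne _ _ (by omega))]
      refine sum_congr rfl fun t _ => ?_
      simp only [hJ']
      rw [if_pos (by omega)]
    rw [h3]
    exact ENNReal.toReal_le_of_le_ofReal (by positivity) h2
  · intro n
    have h2 := hrec n
    have hfin : ∀ a ∈ range (n + 1), ∑ b ∈ range a, J a b * ENNReal.ofReal (1 - ε) ^ (a + b) * S b ≠ ∞ := by
      intro a ha
      refine ENNReal.sum_ne_top.2 fun b hb => ?_
      rw [mem_range] at hb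
      exact ENNReal.mul_ne_top (ENNReal.mul_ne_top (hJne a b hb) (ENNReal.pow_ne_top ENNReal.ofReal_ne_top)) (hSfin b)
    have h3 := ENNReal.toReal_mono (ENNReal.add_ne_top.2 ⟨hK, ENNReal.sum_ne_top.2 hfin⟩) h2
    rw [ENNReal.toReal_add hK (ENNReal.sum_ne_top.2 hfin), ENNReal.toReal_sum hfin] at h3
    refine h3.trans (le_of_eq ?_)
    congr 1
    refine sum_congr rfl fun a _ => ?_
    rw [ENNReal.toReal_sum (fun b hb => ENNReal.mul_ne_top (ENNReal.mul_ne_top (hJne a b (mem_range.1 hb))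
      (ENNReal.pow_ne_top ENNReal.ofReal_ne_top)) (hSfin b))]
    refine sum_congr rfl fun b hb => ?_
    rw [mem_range] at hb
    rw [ENNReal.toReal_mul, ENNReal.toReal_mul, ENNReal.toReal_pow, ENNReal.toReal_ofReal h0]
    simp only [hJ']
    rw [if_pos hb]

end Pool.Agent.ZHW
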