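import Pool.Agent.ZHW.Defs

/-!
Module HWPair: the Hammersley-Welsh recursion with two pieces at a time.

PAPER PROOF. Let `w ∈ HT t m`. If `w <> []`, let `d + 1` (`d < m`) be the smallest `n` with `w ∈ HT t n` (`w ∉ HT t 0` as `w <> []`):
`w = b ++ r`, `b ∈ BT t (d + 1)`, `r' = r.map (refl t) ∈ HT t d` (`HT_succ_decomp`). If `r' = []`: mass `be t z (d + 1)`. Otherwise
let `s + 1 <= d` be the smallest `n` with `r' ∈ HT t n`: `r' = b' ++ r2`, `b' ∈ BT t (s + 1)`, `r2.map (refl t) ∈ HT t s`, and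
`b ++ b'.map (refl t)` is a prefix of `w`, so `(b, b') ∈ JP t (d + 1) (s + 1)`. The map `w ↦ (d, s, (b, b'), r2.map (refl t))` is
injective (`map_map_refl`) and the lengths add. Compare `gf_HT_succ` in SHP/HW for the technique
(`gf` of a union is at most the sum; injections).
-/

namespace Pool.Agent.ZHW

open Pool.Agent.SHP Finset
open scoped ENNReal NNReal

variable {t : Bool}

/-- The first piece of a nonempty word of `HT t m`. -/
private theorem first_piece {m : ℕ} {w : Wd} (hw : w ∈ HT t m) (hne : w ≠ []) :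
    ∃ d < m, ∃ b r : Wd, w = b ++ r ∧ b ∈ BT t (d + 1) ∧ r.map (refl t) ∈ HT t d := by
  classical
  have hex : ∃ n, w ∈ HT t n := ⟨m, hw⟩
  have h0 : w ∉ HT t 0 := by
    intro h
    have h1 := h.2 w [] (List.append_nil w).symm
    have h2 := h.1.2 w [] (List.append_nil w).symm hne
    push_cast at h1
    omega
  have h1 : Nat.find hex ≤ m := Nat.find_min' hex hw
  have h2 : w ∈ HT t (Nat.find hex) := Nat.find_spec hex
  have h3 : Nat.find hex ≠ 0 := by
    intro h
    rw [h] at h2
    exact h0 h2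
  obtain ⟨d, hd⟩ : ∃ d, Nat.find hex = d + 1 := ⟨Nat.find hex - 1, by omega⟩
  have h4 : w ∉ HT t d := Nat.find_min hex (by omega)
  rw [hd] at h2
  obtain ⟨b, r, e, hb, hr⟩ := HT_succ_decomp h2 h4
  exact ⟨d, by omega, b, r, e, hb, hr⟩

/-- Words made of a fold and a rest. -/
private def FW (t : Bool) (d s : ℕ) : Set Wd :=
  {w | ∃ b b' r : Wd, w = b ++ b'.map (refl t) ++ r ∧ (b, b') ∈ JP t (d + 1) (s + 1) ∧ r ∈ HT t s}

private theorem two_pieces {m : ℕ} {w : Wd} (hw : w ∈ HT t m) :
    w = [] ∨ (∃ d < m, w ∈ BT t (d + 1)) ∨ ∃ d < m, ∃ s < d, w ∈ FW t d s := by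
  by_cases hne : w = []
  · exact Or.inl hne
  right
  obtain ⟨d, hd, b, r, e, hb, hr⟩ := first_piece hw hne
  by_cases hr0 : r = []
  · left
    refine ⟨d, hd, ?_⟩
    rw [e, hr0, List.append_nil]
    exact hb
  · right
    have hr1 : r.map (refl t) ≠ [] := by simpa using hr0
    obtain ⟨s, hs, b', r2, e', hb', hr2⟩ := first_piece hr hr1
    have e2 : r = b'.map (refl t) ++ r2.map (refl t) := by
      rw [← List.map_append, ← e', map_map_refl]
    have e3 : w = b ++ b'.map (refl t) ++ r2.map (refl t) := by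
      rw [e, e2, List.append_assoc]
    refine ⟨d, hd, s, hs, b, b', r2.map (refl t), e3, ⟨hb, hb', ?_⟩, hr2⟩
    apply saws_infix (u := []) (w := r2.map (refl t))
    have := hw.1.1
    rw [e3] at this
    simpa using this

private theorem gf_ind (A : Set Wd) (z : ℝ≥0) :
    gf A z = ∑' l : Wd, A.indicator (fun l : Wd => (z : ℝ≥0∞) ^ l.length) l := by
  unfold gf
  rw [tsum_subtype A (fun l : Wd => (z : ℝ≥0∞) ^ l.length)]

private theorem gf_FW (z : ℝ≥0) (d s : ℕ) :
    gf (FW t d s) z ≤ gf2 (JP t (d + 1) (s + 1)) z * gf (HT t s) z := by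
  have h1 : ∀ w : FW t d s, ∃ q : JP t (d + 1) (s + 1) × HT t s,
      (w : Wd) = (q.1 : Wd × Wd).1 ++ ((q.1 : Wd × Wd).2).map (refl t) ++ (q.2 : Wd) := by
    rintro ⟨w, b, b', r, e, hp, hr⟩
    exact ⟨(⟨(b, b'), hp⟩, ⟨r, hr⟩), e⟩
  choose φ hφ using h1
  have hinj : Function.Injective φ := by
    intro w w' h
    apply Subtype.ext
    rw [hφ w, hφ w', h]
  have h2 : gf2 (JP t (d + 1) (s + 1)) z * gf (HT t s) z =
      ∑' q : JP t (d + 1) (s + 1) × HT t s, (z : ℝ≥0∞) ^ ((q.1 : Wd × Wd).1.length + (q.1 : Wd × Wd).2.length) *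
        (z : ℝ≥0∞) ^ (q.2 : Wd).length := by
    unfold gf gf2
    rw [ENNReal.tsum_prod', ← ENNReal.tsum_mul_right]
    refine tsum_congr fun a => ?_
    rw [← ENNReal.tsum_mul_left]
  rw [h2]
  unfold gf
  refine le_trans (le_of_eq ?_) (ENNReal.tsum_comp_le_tsum_of_injective hinj _)
  refine tsum_congr fun w => ?_
  rw [← pow_add]
  congr 1
  conv_lhs => rw [hφ w]
  rw [List.length_append, List.length_append, List.length_map]

theorem hw_pair (z : ℝ≥0) (m : ℕ) :
    gf (HT t m) z ≤ 1 + ∑ d ∈ range m, be t z (d + 1) +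
      ∑ d ∈ range m, ∑ s ∈ range d, gf2 (JP t (d + 1) (s + 1)) z * gf (HT t s) z := by
  classical
  have key : gf (HT t m) z ≤ gf ({[]} : Set Wd) z + ∑ d ∈ range m, gf (BT t (d + 1)) z +
      ∑ d ∈ range m, ∑ s ∈ range d, gf (FW t d s) z := by
    simp only [gf_ind]
    simp_rw [← Summable.tsum_finsetSum (fun _ _ => ENNReal.summable (f := fun l : Wd => _))]
    rw [← ENNReal.tsum_add, ← ENNReal.tsum_add]
    refine ENNReal.tsum_le_tsum fun w => ?_
    by_cases hw : w ∈ HT t m
    · rw [Set.indicator_of_mem hw]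
      rcases two_pieces hw with h | ⟨d, hd, h⟩ | ⟨d, hd, s, hs, h⟩
      · refine le_trans ?_ (le_self_add.trans le_self_add)
        rw [Set.indicator_of_mem (show w ∈ ({[]} : Set Wd) from h)]
      · refine le_trans ?_ ((le_add_self (b := _)).trans le_self_add)
        have h1 := Finset.single_le_sum (f := fun d => (BT t (d + 1)).indicator (fun l : Wd => (z : ℝ≥0∞) ^ l.length) w)
          (fun _ _ => bot_le) (mem_range.2 hd)
        simpa only [Set.indicator_of_mem h] using h1
      · refine le_trans ?_ le_add_self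
        have h1 := Finset.single_le_sum (f := fun s => (FW t d s).indicator (fun l : Wd => (z : ℝ≥0∞) ^ l.length) w)
          (fun _ _ => bot_le) (mem_range.2 hs)
        have h2 := Finset.single_le_sum (f := fun d => ∑ s ∈ range d,
          (FW t d s).indicator (fun l : Wd => (z : ℝ≥0∞) ^ l.length) w) (fun _ _ => bot_le) (mem_range.2 hd)
        simp only [Set.indicator_of_mem h] at h1
        exact h1.trans h2
    · rw [Set.indicator_of_notMem hw]
      exact bot_le
  refine key.trans ?_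
  have h1 : gf ({[]} : Set Wd) z ≤ 1 := by
    unfold gf
    rw [tsum_singleton (f := fun l : Wd => (z : ℝ≥0∞) ^ l.length)]
    simp
  unfold be
  gcongr with d _ s _
  exact gf_FW z d s

end Pool.Agent.ZHW
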