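import Pool.Agent.ZHW.Flip
import Pool.Agent.ZHW.Basic

/-!
Module JDec: decomposition of a fold at its farthest common renewal level.

PAPER PROOF. Let `(p1, p2) ∈ JP t (b + e) b`, `P = fl t p1 ∈ CB t (b + e)` (`fl_CB`), `Q = p2 ∈ WB t b` (`BT_WB`), `Disj P Q`
(`JP_disj`). If `NC t b (P, Q)` then `(P, Q) ∈ CS t e b`. Otherwise let `i + 1` be the largest common renewal level in `1, ..., b`
(`i ∈ range b`): `P = u ++ v`, `Q = u' ++ v'`, `u, u' ∈ CB t (i + 1)`, `Ri v`, `Ri v'`; `v ∈ CB t (b + e - (i + 1))` with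
`b + e - (i + 1) = (b - (i + 1)) + e`, `v' ∈ WB t (b - (i + 1))` (`CB_split`, `WB_split`), `Disj u u'` (prefixes), and
`NC t (b - (i + 1)) (v, v')` by `Rn_append` (a common renewal level `j` of `(v, v')` is the common renewal level `i + 1 + j` of
`(P, Q)`). So `(u, u') ∈ AD t (i + 1)`, `(v, v') ∈ CS t e (b - (i + 1))`. The map is injective (`P = u ++ v`, `Q = u' ++ v'`, `fl t` is an
involution) and the lengths add.
-/

namespace Pool.Agent.ZHW

open Pool.Agent.SHP Finset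
open scoped ENNReal NNReal

variable {t : Bool}

/-- The folds decomposed at the level `i + 1`. -/
private def JDecS (t : Bool) (e b i : ℕ) : Set (Wd × Wd) :=
  {p | ∃ u v u' v' : Wd, fl t p.1 = u ++ v ∧ p.2 = u' ++ v' ∧ (u, u') ∈ AD t (i + 1) ∧
    (v, v') ∈ CS t e (b - (i + 1))}

private theorem JDec_prod (A B : Set (Wd × Wd)) (z : ℝ≥0) :
    ∑' q : A × B, (z : ℝ≥0∞) ^ ((q.1 : Wd × Wd).1.length + (q.1 : Wd × Wd).2.length) *
      (z : ℝ≥0∞) ^ ((q.2 : Wd × Wd).1.length + (q.2 : Wd × Wd).2.length) = gf2 A z * gf2 B z := by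
  unfold gf2
  rw [ENNReal.tsum_prod', ← ENNReal.tsum_mul_right]
  refine tsum_congr fun a => ?_
  rw [← ENNReal.tsum_mul_left]

private theorem JDec_piece (z : ℝ≥0) (e b i : ℕ) :
    gf2 (JDecS t e b i) z ≤ gf2 (AD t (i + 1)) z * gf2 (CS t e (b - (i + 1))) z := by
  have h : ∀ p : JDecS t e b i, ∃ q : (AD t (i + 1)) × (CS t e (b - (i + 1))),
      fl t (p : Wd × Wd).1 = (q.1 : Wd × Wd).1 ++ (q.2 : Wd × Wd).1 ∧
      (p : Wd × Wd).2 = (q.1 : Wd × Wd).2 ++ (q.2 : Wd × Wd).2 := by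
    rintro ⟨p, u, v, u', v', h1, h2, h3, h4⟩
    exact ⟨⟨⟨(u, u'), h3⟩, ⟨(v, v'), h4⟩⟩, h1, h2⟩
  choose F hF1 hF2 using h
  have hI : Function.Injective F := by
    intro p q hpq
    have h1 : fl t (p : Wd × Wd).1 = fl t (q : Wd × Wd).1 := by rw [hF1 p, hF1 q, hpq]
    have h2 : (p : Wd × Wd).2 = (q : Wd × Wd).2 := by rw [hF2 p, hF2 q, hpq]
    have h3 : (p : Wd × Wd).1 = (q : Wd × Wd).1 := by
      rw [← fl_fl (t := t) (p : Wd × Wd).1, h1, fl_fl]
    exact Subtype.ext (Prod.ext h3 h2)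
  rw [← JDec_prod]
  refine le_trans (le_of_eq ?_) (ENNReal.tsum_comp_le_tsum_of_injective hI
    (fun q : (AD t (i + 1)) × (CS t e (b - (i + 1))) =>
      (z : ℝ≥0∞) ^ ((q.1 : Wd × Wd).1.length + (q.1 : Wd × Wd).2.length) *
      (z : ℝ≥0∞) ^ ((q.2 : Wd × Wd).1.length + (q.2 : Wd × Wd).2.length)))
  unfold gf2
  refine tsum_congr fun p => ?_
  rw [← pow_add]
  congr 1
  have h1 := congrArg List.length (hF1 p)
  have h2 := congrArg List.length (hF2 p)
  rw [fl_length, List.length_append] at h1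
  rw [List.length_append] at h2
  omega

private theorem JDec_cover (e b : ℕ) {p : Wd × Wd} (hp : p ∈ JP t (b + e) b)
    (hn : ¬ NC t b (fl t p.1, p.2)) : ∃ i ∈ range b, p ∈ JDecS t e b i := by
  classical
  have hP : fl t p.1 ∈ CB t (b + e) := fl_CB hp.1
  have hQ : p.2 ∈ WB t b := BT_WB hp.2.1
  have hD : Disj (fl t p.1) p.2 := JP_disj hp
  obtain ⟨m, hm1, hmb, hm⟩ : ∃ m : ℕ, 1 ≤ m ∧ m ≤ b ∧
      ((Rn t m (fl t p.1) ∧ Rn t m p.2) ∧
      ∀ k : ℕ, m < k → k ≤ b → ¬ (Rn t k (fl t p.1) ∧ Rn t k p.2)) := by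
    unfold NC at hn
    push Not at hn
    obtain ⟨i, hi1, hib, hi2, hi3⟩ := hn
    let R : ℕ → Prop := fun i => 1 ≤ i ∧ Rn t i (fl t p.1) ∧ Rn t i p.2
    have hs : R (Nat.findGreatest R b) :=
      Nat.findGreatest_spec (P := R) hib ⟨hi1, hi2, hi3⟩
    refine ⟨Nat.findGreatest R b, hs.1, Nat.findGreatest_le b, hs.2, ?_⟩
    intro k hk hkb hkR
    exact Nat.findGreatest_is_greatest (P := R) hk hkb ⟨by omega, hkR⟩
  obtain ⟨⟨⟨u, v, h1, hu, hv⟩, ⟨u', v', h2, hu', hv'⟩⟩, hmax⟩ := hm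
  have hc := CB_split hP h1 hu hv
  have hw := WB_split hQ h2 hu' hv'
  refine ⟨m - 1, Finset.mem_range.2 (by omega), u, v, u', v', h1, h2, ?_, ?_⟩
  · have hm' : m - 1 + 1 = m := by omega
    rw [hm']
    refine ⟨hu, hu', ?_⟩
    intro a c r s ha hc' hac
    refine hD a c (r ++ v) (s ++ v') ?_ ?_ hac
    · rw [h1]
      change u ++ v = a ++ (r ++ v)
      rw [← List.append_assoc, ← ha]
    · rw [h2]
      change u' ++ v' = c ++ (s ++ v')
      rw [← List.append_assoc, ← hc']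
  · have hm' : m - 1 + 1 = m := by omega
    rw [hm']
    refine ⟨?_, hw.2, ?_⟩
    · have : b + e - m = b - m + e := by omega
      rw [← this]
      exact hc.2
    · intro j hj1 hjb hj
      have hA := (Rn_append (j := j) hu hv).2 hj.1
      have hB := (Rn_append (j := j) hu' hv').2 hj.2
      rw [← h1] at hA
      rw [← h2] at hB
      exact hmax (m + j) (by omega) (by omega) ⟨hA, hB⟩

theorem j_dec (z : ℝ≥0) (e b : ℕ) :
    gf2 (JP t (b + e) b) z ≤
      ∑ i ∈ range b, gf2 (AD t (i + 1)) z * gf2 (CS t e (b - (i + 1))) z + gf2 (CS t e b) z := by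
  have hsub : JP t (b + e) b ⊆ {p | p ∈ JP t (b + e) b ∧ NC t b (fl t p.1, p.2)} ∪
      ⋃ i ∈ range b, JDecS t e b i := by
    intro p hp
    by_cases hn : NC t b (fl t p.1, p.2)
    · exact Or.inl ⟨hp, hn⟩
    · obtain ⟨i, hi, hpi⟩ := JDec_cover e b hp hn
      exact Or.inr (Set.mem_biUnion hi hpi)
  have h0 : gf2 {p | p ∈ JP t (b + e) b ∧ NC t b (fl t p.1, p.2)} z ≤ gf2 (CS t e b) z := by
    have h := gf2_le_of_inj (A := {p | p ∈ JP t (b + e) b ∧ NC t b (fl t p.1, p.2)})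
      (B := CS t e b) z 0 (fun p => (fl t p.1, p.2)) ?_ ?_ ?_
    · simpa using h
    · rintro p ⟨hp, hn⟩
      exact ⟨fl_CB hp.1, BT_WB hp.2.1, hn⟩
    · intro p _ q _ hpq
      have hpq' : (fl t p.1, p.2) = (fl t q.1, q.2) := hpq
      have h1 : fl t p.1 = fl t q.1 := (Prod.mk.inj hpq').1
      have h2 : p.2 = q.2 := (Prod.mk.inj hpq').2
      have h3 : p.1 = q.1 := by
        rw [← fl_fl (t := t) p.1, h1, fl_fl]
      exact Prod.ext h3 h2
    · intro p _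
      simp only [fl_length]
      omega
  calc gf2 (JP t (b + e) b) z
      ≤ gf2 ({p | p ∈ JP t (b + e) b ∧ NC t b (fl t p.1, p.2)} ∪
        ⋃ i ∈ range b, JDecS t e b i) z := gf2_mono_set hsub z
    _ ≤ gf2 {p | p ∈ JP t (b + e) b ∧ NC t b (fl t p.1, p.2)} z +
        gf2 (⋃ i ∈ range b, JDecS t e b i) z := gf2_union_le _ _ z
    _ ≤ gf2 (CS t e b) z +
        ∑ i ∈ range b, gf2 (AD t (i + 1)) z * gf2 (CS t e (b - (i + 1))) z := by
        refine add_le_add h0 ?_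
        refine (ENNReal.tsum_biUnion_le (fun l : Wd × Wd =>
          (z : ℝ≥0∞) ^ (l.1.length + l.2.length)) (range b) (JDecS t e b)).trans ?_
        exact Finset.sum_le_sum fun i _ => JDec_piece z e b i
    _ = _ := add_comm _ _

end Pool.Agent.ZHW
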