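import Pool.Agent.ZHW.Defs

/-!
Module Ladder: the persistence of a symmetric walk (Sparre Andersen), abstract.

PAPER PROOF. For a list `l` of integers put `w l = (l.map ν).prod`. Then (induction on `K`)
`gx ν K x = ∑' l : {l : List ℤ // l.length = K ∧ ∀ a b, l = a ++ b → a ≠ [] → 0 < x + a.sum}, w l`. Let `g K = gx ν K 0` and
`q m = ` the mass of the lists of length `m` all of whose nonempty prefixes have sum `<= 0`. (1) `g m <= q m`: negate the
entries (`ν (-x) = ν x`). (2) `g K` is also the mass of the lists of length `K` all of whose nonempty SUFFIXES have positive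
sum (reverse the list). (3) For every `n`: `∑ k <= n, g k * q (n - k) <= (∑' x, ν x) ^ n <= 1`: cut a list of length `n` at the
first index `k` at which the partial sums `S_0 = 0, S_1, ..., S_n` attain their maximum: the first part (length `k`)
has positive nonempty suffixes (`S_k > S_j`, `j < k`), the second part has nonpositive prefixes (`S_j <= S_k`); conversely
`(a, b) ↦ a ++ b` is injective on the union over `k <= n` of such pairs (`k = a.length` is the first argmax). Only the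
injectivity is needed. (4) So `∑ k <= n, g k * g (n - k) <= 1` and
`(∑ K <= N, g K) ^ 2 <= ∑ n <= 2 N, ∑ k <= n, g k * g (n - k) <= 2 N + 1`.
-/

namespace Pool.Agent.ZHW

open Finset
open scoped ENNReal NNReal

/-- mass of the `n`-step paths from `z` which stay nonnegative (steps subtracted) -/
private noncomputable def ladN (ν : ℤ → ℝ≥0∞) : ℕ → ℤ → ℝ≥0∞
  | 0, _ => 1
  | n + 1, z => ∑' δ : ℤ, ν δ * (if 0 ≤ z - δ then ladN ν n (z - δ) else 0)

/-- mass of the `k`-step positive paths from `0` to `w` -/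
private noncomputable def ladV (ν : ℤ → ℝ≥0∞) : ℕ → ℤ → ℝ≥0∞
  | 0, w => if w = 0 then 1 else 0
  | k + 1, w => if 0 < w then ∑' u : ℤ, ν (w - u) * ladV ν k u else 0

private noncomputable def ladR (ν : ℤ → ℝ≥0∞) (k : ℕ) (z : ℤ) : ℝ≥0∞ :=
  ∑' u : ℤ, if z < u then ladV ν k u else 0

private theorem ladR_zero (ν : ℤ → ℝ≥0∞) (z : ℤ) : ladR ν 0 z = if z < 0 then 1 else 0 := by
  unfold ladR
  rw [tsum_eq_single (0 : ℤ)]
  · simp [ladV]
  · intro u hu
    simp [ladV, hu]

private theorem ladR_neg (ν : ℤ → ℝ≥0∞) (k : ℕ) {z : ℤ} (hz : z < 0) :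
    ladR ν (k + 1) z = ladR ν (k + 1) 0 := by
  unfold ladR
  refine tsum_congr fun u => ?_
  by_cases hu : 0 < u
  · rw [if_pos (by omega), if_pos hu]
  · have h0 : ladV ν (k + 1) u = 0 := by
      simp [ladV, hu]
    rw [h0, ite_self, ite_self]

private theorem ladR_succ (ν : ℤ → ℝ≥0∞) (k : ℕ) {z : ℤ} (hz : 0 ≤ z) :
    ladR ν (k + 1) z = ∑' δ : ℤ, ν δ * ladR ν k (z - δ) := by
  have h1 : ladR ν (k + 1) z = ∑' w : ℤ, ∑' u : ℤ, if z < w then ν (w - u) * ladV ν k u else 0 := by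
    unfold ladR
    refine tsum_congr fun w => ?_
    by_cases hw : z < w
    · simp only [hw, if_true]
      have : 0 < w := by omega
      simp [ladV, this]
    · simp [hw]
  have h2 : ∀ u : ℤ, (∑' w : ℤ, if z < w then ν (w - u) * ladV ν k u else 0) =
      ∑' δ : ℤ, if z < δ + u then ν δ * ladV ν k u else 0 := by
    intro u
    rw [← (Equiv.addRight u).tsum_eq]
    refine tsum_congr fun δ => ?_
    simp
  rw [h1, ENNReal.tsum_comm]
  simp_rw [h2]
  rw [ENNReal.tsum_comm]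
  refine tsum_congr fun δ => ?_
  unfold ladR
  rw [← ENNReal.tsum_mul_left]
  refine tsum_congr fun u => ?_
  by_cases h : z < δ + u
  · rw [if_pos h, if_pos (by omega)]
  · rw [if_neg h, if_neg (by omega), mul_zero]

private noncomputable def ladT (ν : ℤ → ℝ≥0∞) (n : ℕ) (z : ℤ) : ℝ≥0∞ :=
  (if 0 ≤ z then ladN ν n z else 0) + ∑ k ∈ range (n + 1), ladR ν k z * ladN ν (n - k) 0

private theorem ladT_succ (ν : ℤ → ℝ≥0∞) (n : ℕ) {z : ℤ} (hz : 0 ≤ z) :
    ladT ν (n + 1) z = ∑' δ : ℤ, ν δ * ladT ν n (z - δ) := by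
  unfold ladT
  rw [Finset.sum_range_succ', ladR_zero, if_neg (not_lt.2 hz : ¬ z < 0), zero_mul, add_zero,
    if_pos hz]
  have h1 : ∀ k ∈ range (n + 1), ladR ν (k + 1) z * ladN ν (n + 1 - (k + 1)) 0 =
      ∑' δ : ℤ, ν δ * (ladR ν k (z - δ) * ladN ν (n - k) 0) := by
    intro k _
    rw [ladR_succ ν k hz, ← ENNReal.tsum_mul_right]
    have : n + 1 - (k + 1) = n - k := by omega
    rw [this]
    exact tsum_congr fun δ => mul_assoc _ _ _
  rw [Finset.sum_congr rfl h1, ← Summable.tsum_finsetSum (fun i _ => ENNReal.summable)]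
  have h2 : ladN ν (n + 1) z = ∑' δ : ℤ, ν δ * (if 0 ≤ z - δ then ladN ν n (z - δ) else 0) := by
    rw [ladN]
  rw [h2, ← ENNReal.tsum_add]
  refine tsum_congr fun δ => ?_
  rw [mul_add, Finset.mul_sum]

private theorem ladT_neg (ν : ℤ → ℝ≥0∞) (n : ℕ) {z : ℤ} (hz : z < 0) :
    ladT ν n z = ladT ν n 0 := by
  unfold ladT
  rw [Finset.sum_range_succ', Finset.sum_range_succ', ladR_zero, ladR_zero, if_neg (by omega),
    if_pos hz, if_pos le_rfl, if_neg (by omega), zero_mul, add_zero, zero_add, one_mul,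
    Nat.sub_zero, add_comm (ladN ν n 0)]
  congr 1
  refine Finset.sum_congr rfl fun k _ => ?_
  rw [ladR_neg ν k hz]

private theorem ladT_le (ν : ℤ → ℝ≥0∞) (h1 : ∑' x, ν x ≤ 1) (n : ℕ) : ∀ z : ℤ, ladT ν n z ≤ 1 := by
  induction n with
  | zero =>
    intro z
    unfold ladT
    rw [zero_add, Finset.sum_range_one, ladR_zero]
    by_cases hz : 0 ≤ z
    · rw [if_pos hz, if_neg (by omega)]
      simp [ladN]
    · rw [if_neg hz, if_pos (by omega)]
      simp [ladN]
  | succ n ih =>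
    have key : ∀ z : ℤ, 0 ≤ z → ladT ν (n + 1) z ≤ 1 := by
      intro z hz
      rw [ladT_succ ν n hz]
      calc ∑' δ : ℤ, ν δ * ladT ν n (z - δ) ≤ ∑' δ : ℤ, ν δ * 1 :=
            ENNReal.tsum_le_tsum fun δ => mul_le_mul_right (ih _) _
        _ = ∑' δ : ℤ, ν δ := by simp
        _ ≤ 1 := h1
    intro z
    by_cases hz : 0 ≤ z
    · exact key z hz
    · rw [ladT_neg ν (n + 1) (not_le.1 hz)]
      exact key 0 le_rfl

private theorem gx_le (ν : ℤ → ℝ≥0∞) (hsym : ∀ x, ν (-x) = ν x) (n : ℕ) :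
    ∀ x : ℤ, 0 ≤ x → gx ν n x ≤ ladN ν n x := by
  induction n with
  | zero =>
    intro x _
    simp [gx, ladN]
  | succ n ih =>
    intro x hx
    rw [gx, ladN, ← (Equiv.neg ℤ).tsum_eq]
    refine ENNReal.tsum_le_tsum fun δ => ?_
    simp only [Equiv.neg_apply, hsym]
    by_cases h : 0 < x + -δ
    · rw [if_pos h, if_pos (by omega)]
      have := ih (x + -δ) h.le
      rw [← sub_eq_add_neg] at this ⊢
      exact mul_le_mul_right this _
    · rw [if_neg h]
      exact zero_le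

private theorem gx_conv (ν : ℤ → ℝ≥0∞) (k : ℕ) : ∀ j : ℕ,
    ∑' w : ℤ, ladV ν k w * gx ν j w = gx ν (j + k) 0 := by
  induction k with
  | zero =>
    intro j
    rw [tsum_eq_single (0 : ℤ)]
    · simp [ladV]
    · intro u hu
      simp [ladV, hu]
  | succ k ih =>
    intro j
    have h1 : ∀ w : ℤ, ladV ν (k + 1) w * gx ν j w =
        ∑' u : ℤ, ladV ν k u * (if 0 < w then ν (w - u) * gx ν j w else 0) := by
      intro w
      by_cases hw : 0 < w
      · simp only [hw, if_true]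
        rw [ladV, if_pos hw, ← ENNReal.tsum_mul_right]
        refine tsum_congr fun u => ?_
        ring
      · simp [ladV, hw]
    simp_rw [h1]
    rw [ENNReal.tsum_comm]
    have h2 : ∀ u : ℤ, (∑' w : ℤ, ladV ν k u * (if 0 < w then ν (w - u) * gx ν j w else 0)) =
        ladV ν k u * gx ν (j + 1) u := by
      intro u
      rw [ENNReal.tsum_mul_left, gx, ← (Equiv.addLeft u).tsum_eq]
      congr 1
      refine tsum_congr fun δ => ?_
      simp
    simp_rw [h2]
    rw [ih (j + 1)]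
    congr 1
    ring

private theorem gx_rec (ν : ℤ → ℝ≥0∞) (k : ℕ) : gx ν (k + 1) 0 = ladR ν (k + 1) 0 := by
  have h := gx_conv ν (k + 1) 0
  rw [zero_add] at h
  rw [← h]
  unfold ladR
  refine tsum_congr fun u => ?_
  by_cases hu : 0 < u
  · rw [if_pos hu]
    simp [gx]
  · have h0 : ladV ν (k + 1) u = 0 := by
      simp [ladV, hu]
    rw [if_neg hu, h0, zero_mul]

private theorem gx_sum (ν : ℤ → ℝ≥0∞) (hsym : ∀ x, ν (-x) = ν x) (h1 : ∑' x, ν x ≤ 1) (n : ℕ) :
    ∑ k ∈ range (n + 1), gx ν k 0 * gx ν (n - k) 0 ≤ 1 := by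
  refine le_trans ?_ (ladT_le ν h1 n 0)
  unfold ladT
  rw [Finset.sum_range_succ', Finset.sum_range_succ', ladR_zero, if_pos le_rfl, if_neg (by omega),
    zero_mul, add_zero, add_comm (ladN ν n 0)]
  refine add_le_add (Finset.sum_le_sum fun k _ => ?_) ?_
  · rw [gx_rec]
    exact mul_le_mul_right (gx_le ν hsym _ 0 le_rfl) _
  · have : gx ν 0 0 = 1 := by simp [gx]
    rw [this, one_mul, Nat.sub_zero]
    exact gx_le ν hsym n 0 le_rfl

theorem ladder (ν : ℤ → ℝ≥0∞) (hsym : ∀ x, ν (-x) = ν x) (h1 : ∑' x, ν x ≤ 1) (N : ℕ) :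
    (∑ K ∈ range (N + 1), gx ν K 0) ^ 2 ≤ 2 * (N : ℝ≥0∞) + 1 := by
  have e1 : (∑ K ∈ range (N + 1), gx ν K 0) ^ 2 =
      ∑ p ∈ range (N + 1) ×ˢ range (N + 1), gx ν p.1 0 * gx ν p.2 0 := by
    rw [sq, Finset.sum_mul_sum, ← Finset.sum_product']
  have hm : ∀ p ∈ range (N + 1) ×ˢ range (N + 1), p.1 + p.2 ∈ range (2 * N + 1) := by
    intro p hp
    rw [Finset.mem_product, Finset.mem_range, Finset.mem_range] at hp
    rw [Finset.mem_range]
    omega
  rw [e1, ← Finset.sum_fiberwise_of_maps_to hm]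
  have e2 : ∀ n ∈ range (2 * N + 1),
      ∑ p ∈ range (N + 1) ×ˢ range (N + 1) with p.1 + p.2 = n, gx ν p.1 0 * gx ν p.2 0 ≤ 1 := by
    intro n _
    refine le_trans ?_ (gx_sum ν hsym h1 n)
    rw [← Finset.Nat.sum_antidiagonal_eq_sum_range_succ (fun a b => gx ν a 0 * gx ν b 0) n]
    refine Finset.sum_le_sum_of_subset fun p hp => ?_
    rw [Finset.mem_filter] at hp
    simpa using hp.2
  calc _ ≤ ∑ n ∈ range (2 * N + 1), (1 : ℝ≥0∞) := Finset.sum_le_sum e2
    _ = 2 * (N : ℝ≥0∞) + 1 := by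
      rw [Finset.sum_const, Finset.card_range, nsmul_eq_mul, mul_one]
      push_cast
      rfl

end Pool.Agent.ZHW
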