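import Pool.Agent.ZHW.JDec
import Pool.Agent.ZHW.Sup
import Pool.Agent.ZHW.ArcSign
import Pool.Agent.ZHW.ArcSum
import Pool.Agent.ZHW.Ladder
import Pool.Agent.ZHW.Nu

/-!
Module JSum: the total mass of the folds with a given gap up to height `D` is `O(√D)`.

PAPER PROOF. `arc_total`: `AD_le`, `arc_sum` with `x = 0`, and `ladder` with `ν = nu t (zc t)` (`nu_symm`, `nu_sum`), `g_0 = 1`:
`∑ r < D, gf2 (AD t (r + 1)) <= 2 * ∑ K < D, g_(K+1) <= 2 * ∑ K <= D, g_K - 2`, and `(∑ K <= D, g_K) ^ 2 <= 2 D + 1 <= (5/4)^2 * ...`;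
in the form used here: `1 + ∑ r < D, gf2 (AD t (r + 1)) (zc t) <= 2 * √(2 D + 1) <= 3 * √(D + 1)`.
`j_sum`: by `j_dec` with `e + 1` and `b + 1` (`b + e + 2 = (b + 1) + (e + 1)`), exchanging sums (`i <= b < D`, `q = b - i`),
`∑ b < D, J(b + e + 2, b + 1) <= (∑ i < D, AD (i + 1)) * (∑ q < D, CS (e+1) q) + ∑ b < D, CS (e + 1) (b + 1)
  <= (1 + ∑ i < D, AD (i + 1)) * (zc t)⁻¹` by `cs_sum`.
-/

namespace Pool.Agent.ZHW

open Pool.Agent.SHP Finset
open scoped ENNReal NNReal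

variable {t : Bool}

theorem arc_total (D : ℕ) :
    1 + ∑ r ∈ range D, gf2 (AD t (r + 1)) (zc t) ≤ ENNReal.ofReal (3 * Real.sqrt ((D : ℝ) + 1)) := by
  have h1 : ∑ r ∈ range D, gf2 (AD t (r + 1)) (zc t) ≤
      2 * ∑ K ∈ range D, gx (nu t (zc t)) (K + 1) 0 := by
    calc ∑ r ∈ range D, gf2 (AD t (r + 1)) (zc t)
        ≤ ∑ r ∈ range D, 2 * gf2 (AP t 0 (r + 1)) (zc t) :=
          Finset.sum_le_sum fun r _ => AD_le (by omega) _
      _ = 2 * ∑ r ∈ range D, gf2 (AP t 0 (r + 1)) (zc t) := by rw [Finset.mul_sum]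
      _ ≤ 2 * ∑ K ∈ range D, gx (nu t (zc t)) (K + 1) 0 :=
          mul_le_mul_right (arc_sum (zc t) D 0) 2
  have h2 : 1 + ∑ r ∈ range D, gf2 (AD t (r + 1)) (zc t) ≤
      2 * ∑ K ∈ range (D + 1), gx (nu t (zc t)) K 0 := by
    rw [Finset.sum_range_succ', mul_add]
    have h0 : gx (nu t (zc t)) 0 0 = 1 := rfl
    rw [h0, mul_one, add_comm]
    exact add_le_add h1 one_le_two
  have hl := ladder (nu t (zc t)) (nu_symm (zc t)) nu_sum D
  set S := ∑ K ∈ range (D + 1), gx (nu t (zc t)) K 0 with hS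
  have hSt : S ≠ ∞ := by
    intro h
    rw [h] at hl
    have h3 : (∞ : ℝ≥0∞) ^ 2 = ∞ := by simp
    rw [h3, top_le_iff] at hl
    exact absurd hl (by
      have : (2 : ℝ≥0∞) * (D : ℝ≥0∞) + 1 = ((2 * D + 1 : ℕ) : ℝ≥0∞) := by push_cast; ring
      rw [this]
      exact ENNReal.natCast_ne_top _)
  have hr : S.toReal ^ 2 ≤ 2 * (D : ℝ) + 1 := by
    have := ENNReal.toReal_mono (b := 2 * (D : ℝ≥0∞) + 1) (by
      have : (2 : ℝ≥0∞) * (D : ℝ≥0∞) + 1 = ((2 * D + 1 : ℕ) : ℝ≥0∞) := by push_cast; ring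
      rw [this]
      exact ENNReal.natCast_ne_top _) hl
    rw [ENNReal.toReal_pow] at this
    refine this.trans (le_of_eq ?_)
    have : (2 : ℝ≥0∞) * (D : ℝ≥0∞) + 1 = ((2 * D + 1 : ℕ) : ℝ≥0∞) := by push_cast; ring
    rw [this, ENNReal.toReal_natCast]
    push_cast
    ring
  refine h2.trans ?_
  have h4 : 2 * S.toReal ≤ 3 * Real.sqrt ((D : ℝ) + 1) := by
    have hD : (0 : ℝ) ≤ D := Nat.cast_nonneg D
    have hs := Real.sq_sqrt (show (0 : ℝ) ≤ (D : ℝ) + 1 by linarith)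
    have hs0 := Real.sqrt_nonneg ((D : ℝ) + 1)
    refine le_of_sq_le_sq ?_ (by positivity)
    nlinarith
  rw [← ENNReal.ofReal_toReal hSt]
  rw [show (2 : ℝ≥0∞) = ENNReal.ofReal 2 by simp, ← ENNReal.ofReal_mul (by norm_num)]
  exact ENNReal.ofReal_le_ofReal h4

theorem j_sum (e D : ℕ) :
    ∑ b ∈ range D, gf2 (JP t (b + e + 2) (b + 1)) (zc t) ≤
      ENNReal.ofReal (3 / (zc t : ℝ) * Real.sqrt ((D : ℝ) + 1)) := by
  have hz : 0 < zc t := zc_pos t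
  have hcs := cs_sum (t := t) e D
  have hcs1 := cs_sum (t := t) e (D + 1)
  have h1 : ∀ b ∈ range D, gf2 (JP t (b + e + 2) (b + 1)) (zc t) ≤
      ∑ i ∈ range (b + 1), gf2 (AD t (i + 1)) (zc t) * gf2 (CS t (e + 1) (b - i)) (zc t) +
        gf2 (CS t (e + 1) (b + 1)) (zc t) := by
    intro b _
    have := j_dec (t := t) (zc t) (e + 1) (b + 1)
    rw [show b + 1 + (e + 1) = b + e + 2 by omega] at this
    refine this.trans (le_of_eq ?_)
    congr 1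
    refine Finset.sum_congr rfl fun i _ => ?_
    rw [show b + 1 - (i + 1) = b - i by omega]
  have h2 : ∑ b ∈ range D, ∑ i ∈ range (b + 1),
      gf2 (AD t (i + 1)) (zc t) * gf2 (CS t (e + 1) (b - i)) (zc t) ≤
      (∑ i ∈ range D, gf2 (AD t (i + 1)) (zc t)) * (zc t : ℝ≥0∞)⁻¹ := by
    rw [Finset.sum_range_diag_flip D
      (fun i k => gf2 (AD t (i + 1)) (zc t) * gf2 (CS t (e + 1) k) (zc t)), Finset.sum_mul]
    refine Finset.sum_le_sum fun i _ => ?_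
    rw [← Finset.mul_sum]
    gcongr
    refine le_trans (Finset.sum_le_sum_of_subset (Finset.range_mono (Nat.sub_le D i))) hcs
  have h3 : ∑ b ∈ range D, gf2 (CS t (e + 1) (b + 1)) (zc t) ≤ (zc t : ℝ≥0∞)⁻¹ := by
    refine le_trans ?_ hcs1
    rw [Finset.sum_range_succ']
    exact le_self_add
  calc ∑ b ∈ range D, gf2 (JP t (b + e + 2) (b + 1)) (zc t)
      ≤ ∑ b ∈ range D, (∑ i ∈ range (b + 1),
          gf2 (AD t (i + 1)) (zc t) * gf2 (CS t (e + 1) (b - i)) (zc t) +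
        gf2 (CS t (e + 1) (b + 1)) (zc t)) := Finset.sum_le_sum h1
    _ ≤ (∑ i ∈ range D, gf2 (AD t (i + 1)) (zc t)) * (zc t : ℝ≥0∞)⁻¹ + (zc t : ℝ≥0∞)⁻¹ := by
        rw [Finset.sum_add_distrib]
        exact add_le_add h2 h3
    _ = (1 + ∑ i ∈ range D, gf2 (AD t (i + 1)) (zc t)) * (zc t : ℝ≥0∞)⁻¹ := by ring
    _ ≤ ENNReal.ofReal (3 * Real.sqrt ((D : ℝ) + 1)) * (zc t : ℝ≥0∞)⁻¹ := by
        gcongr
        exact arc_total D
    _ = ENNReal.ofReal (3 / (zc t : ℝ) * Real.sqrt ((D : ℝ) + 1)) := by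
        have hz' : (0 : ℝ) < (zc t : ℝ) := by exact_mod_cast hz
        have h5 : (zc t : ℝ≥0∞)⁻¹ = ENNReal.ofReal ((zc t : ℝ)⁻¹) := by
          rw [ENNReal.ofReal_inv_of_pos hz', ENNReal.ofReal_coe_nnreal]
        rw [h5, ← ENNReal.ofReal_mul (by positivity)]
        congr 1
        field_simp

end Pool.Agent.ZHW
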