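import Pool.Agent.ZHW.HWPair
import Pool.Agent.ZHW.Beta
import Pool.Agent.ZHW.JSum
import Pool.Agent.ZHW.Gron

/-!
Module Main: the masses of the strict half-plane walks below the critical point.

PAPER PROOF. Let `y = 1 - ε`, `z = y * zc t`, `S m = gf (HT t m) z`. In `hw_pair` use `be_scale` and `be_le_one`
(`be t z (d + 1) <= y ^ (d + 1)`, so `∑ d < m, be t z (d + 1) <= 1 / ε`) and `JP_scale`:
`gf2 (JP t (d + 1) (s + 1)) z <= y ^ (d + s + 2) * gf2 (JP t (d + 1) (s + 1)) (zc t) <= y ^ ((d + 1) + s) * ...`. Put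
`J a b = if b + 1 < a then gf2 (JP t a (b + 1)) (zc t) else 0`. With `a = d + 1`, `b = s < d`:
`S m <= (1 + 1 / ε) + ∑ a < m + 1, ∑ b < a, J a b * y ^ (a + b) * S b`. For `s = 0` the sums `∑ t < D, J (t + s + 1) t` vanish, for
`s = e + 1` they are `∑ t < D, gf2 (JP t (t + e + 2) (t + 1)) (zc t) <= C0 * √(D + 1)` with `C0 = 3 / zc t` (`j_sum`). So
`gron` gives `S m <= (1 + 1 / ε) * exp (C1 * ε ^ (-3/4))`, and `1 + 1 / ε <= exp (2 * ε ^ (-3/4))`
(`x = ε ^ (-3/4) >= 1`, `1 / ε = x ^ (4/3) <= x ^ 2`, `1 + x ^ 2 <= exp (2 x)`).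
-/

namespace Pool.Agent.ZHW

open Pool.Agent.SHP Finset
open scoped ENNReal NNReal

private theorem main_exp {ε : ℝ} (h0 : 0 < ε) (h1 : ε ≤ 1 / 2) :
    1 + 1 / ε ≤ Real.exp (2 * ε ^ (-(3 / 4 : ℝ))) := by
  set x := ε ^ (-(3 / 4 : ℝ)) with hx
  have hx0 : 0 ≤ x := Real.rpow_nonneg h0.le _
  have h2 : 1 / ε ≤ x ^ 2 := by
    have e1 : x ^ 2 = ε ^ (-(3 / 2 : ℝ)) := by
      rw [hx, ← Real.rpow_natCast, ← Real.rpow_mul h0.le]
      norm_num
    have e2 : 1 / ε = ε ^ (-1 : ℝ) := by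
      rw [Real.rpow_neg_one, one_div]
    rw [e1, e2]
    exact Real.rpow_le_rpow_of_exponent_ge h0 (by linarith) (by norm_num)
  have h3 : Real.exp (2 * x) = Real.exp x ^ 2 := by
    rw [← Real.exp_nat_mul]
    norm_num
  have h4 : x + 1 ≤ Real.exp x := Real.add_one_le_exp x
  have h5 : (x + 1) ^ 2 ≤ Real.exp x ^ 2 := pow_le_pow_left₀ (by linarith) h4 2
  rw [h3]
  nlinarith

private theorem main_geom {ε : ℝ} (h0 : 0 < ε) (h1 : ε ≤ 1 / 2) (m : ℕ) :
    ∑ d ∈ range m, (1 - ε) ^ (d + 1) ≤ 1 / ε := by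
  have h2 : ∑ d ∈ range m, (1 - ε) ^ (d + 1) ≤ ∑ d ∈ range m, (1 - ε) ^ d := by
    apply Finset.sum_le_sum
    intro d _
    exact pow_le_pow_of_le_one (by linarith) (by linarith) (Nat.le_succ d)
  have h3 := mul_neg_geom_sum (1 - ε) m
  have h4 : ε * ∑ d ∈ range m, (1 - ε) ^ d ≤ 1 := by
    have h5 : (1 - (1 - ε)) * ∑ d ∈ range m, (1 - ε) ^ d = 1 - (1 - ε) ^ m := h3
    have h6 : 0 ≤ (1 - ε) ^ m := pow_nonneg (by linarith) m
    have h7 : (1 - (1 - ε)) = ε := by ring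
    rw [h7] at h5
    linarith
  refine h2.trans ?_
  rw [le_div_iff₀ h0]
  linarith

theorem main_S (t : Bool) : ∃ C : ℝ, 0 < C ∧ ∀ ε : ℝ, 0 < ε → ε ≤ 1 / 2 → ∀ m : ℕ,
    gf (HT t m) (Real.toNNReal (1 - ε) * zc t) ≤ ENNReal.ofReal (Real.exp (C * ε ^ (-(3 / 4 : ℝ)))) := by
  obtain ⟨C1, hC1, hg⟩ := gron (3 / (zc t : ℝ)) (by positivity)
  refine ⟨C1 + 2, by linarith, ?_⟩
  intro ε hε hε2 m
  set y : ℝ≥0 := Real.toNNReal (1 - ε) with hy
  have hy1 : y ≤ 1 := by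
    rw [hy, Real.toNNReal_le_one]
    linarith
  have hyE : (y : ℝ≥0∞) = ENNReal.ofReal (1 - ε) := rfl
  have hyle : (y : ℝ≥0∞) ≤ 1 := by exact_mod_cast hy1
  set J : ℕ → ℕ → ℝ≥0∞ := fun a b => if b + 1 < a then gf2 (JP t a (b + 1)) (zc t) else 0 with hJ
  have hK : ∀ m : ℕ, ∑ d ∈ range m, be t (y * zc t) (d + 1) ≤ ENNReal.ofReal (1 / ε) := by
    intro m
    have h1 : ∀ d ∈ range m, be t (y * zc t) (d + 1) ≤ ENNReal.ofReal ((1 - ε) ^ (d + 1)) := by
      intro d _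
      refine (be_scale hy1 (d + 1)).trans ?_
      rw [hyE, ENNReal.ofReal_pow (by linarith)]
      calc ENNReal.ofReal (1 - ε) ^ (d + 1) * be t (zc t) (d + 1)
          ≤ ENNReal.ofReal (1 - ε) ^ (d + 1) * 1 := by gcongr; exact be_le_one (d + 1)
        _ = ENNReal.ofReal (1 - ε) ^ (d + 1) := mul_one _
    refine (Finset.sum_le_sum h1).trans ?_
    rw [← ENNReal.ofReal_sum_of_nonneg]
    · exact ENNReal.ofReal_le_ofReal (main_geom hε hε2 m)
    · intro d _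
      exact pow_nonneg (by linarith) _
  have hrec : ∀ n : ℕ, gf (HT t n) (y * zc t) ≤ (1 + ENNReal.ofReal (1 / ε)) +
      ∑ a ∈ range (n + 1), ∑ b ∈ range a, J a b * ENNReal.ofReal (1 - ε) ^ (a + b) *
        gf (HT t b) (y * zc t) := by
    intro n
    refine (hw_pair (y * zc t) n).trans ?_
    apply add_le_add
    · exact add_le_add le_rfl (hK n)
    · rw [Finset.sum_range_succ']
      simp only [Finset.range_zero, Finset.sum_empty, add_zero]
      apply Finset.sum_le_sum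
      intro d _
      rw [Finset.sum_range_succ]
      refine le_trans ?_ (le_add_of_nonneg_right zero_le)
      apply Finset.sum_le_sum
      intro s hs
      have hsd : s < d := Finset.mem_range.1 hs
      gcongr
      rw [hJ]
      simp only
      rw [if_pos (by omega)]
      refine (JP_scale hy1 (d + 1) (s + 1)).trans ?_
      rw [mul_comm, ← hyE]
      have hp : (y : ℝ≥0∞) ^ (d + 1 + (s + 1)) ≤ (y : ℝ≥0∞) ^ (d + 1 + s) :=
        pow_le_pow_right_of_le_one' hyle (by omega)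
      exact mul_le_mul_right hp _
  have hJs : ∀ s D : ℕ, ∑ t ∈ range D, J (t + s + 1) t ≤
      ENNReal.ofReal (3 / (zc t : ℝ) * Real.sqrt ((D : ℝ) + 1)) := by
    intro s D
    cases s with
    | zero =>
      rw [Finset.sum_eq_zero]
      · exact zero_le
      · intro b _
        rw [hJ]
        simp
    | succ e =>
      refine le_trans (le_of_eq ?_) (j_sum (t := t) e D)
      apply Finset.sum_congr rfl
      intro b _
      rw [hJ]
      simp only
      rw [if_pos (by omega)]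
      rfl
  have hfin := hg ε hε hε2 (1 + ENNReal.ofReal (1 / ε)) J hJs (fun n => gf (HT t n) (y * zc t)) hrec m
  refine hfin.trans ?_
  have h1 : (1 : ℝ≥0∞) + ENNReal.ofReal (1 / ε) = ENNReal.ofReal (1 + 1 / ε) := by
    rw [ENNReal.ofReal_add zero_le_one (by positivity), ENNReal.ofReal_one]
  rw [h1, ← ENNReal.ofReal_mul (by positivity)]
  apply ENNReal.ofReal_le_ofReal
  have h2 := main_exp hε hε2
  have h3 : Real.exp ((C1 + 2) * ε ^ (-(3 / 4 : ℝ)))
      = Real.exp (2 * ε ^ (-(3 / 4 : ℝ))) * Real.exp (C1 * ε ^ (-(3 / 4 : ℝ))) := by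
    rw [← Real.exp_add]
    congr 1
    ring
  rw [h3]
  exact mul_le_mul_of_nonneg_right h2 (Real.exp_pos _).le

end Pool.Agent.ZHW
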